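import Pool.Agent.Work.MP_33efdc_lc.Defs

/-! Bundle of small proof modules (one section per former module). -/

section

/-!
# Boundary data of a polygon and glued arcs

`PD G` is the boundary of a polygon cut open at vertex `0`: `n` edges, positions of the vertices
along the boundary (in an ordered group `G`, in the application `ℝ` or `ℤ`), angles.
`Nd D p q θ` says that the arc `[p, q]` can be glued to itself such that `p` and `q` are
identified; `θ` is the sum of the angles of the points of the arc in the class of `p` and `q`.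
-/

set_option autoImplicit false

namespace Pool.Agent.MP33

open Real

section

variable {G : Type}

/-- The positions of the vertices increase. -/
def PD.Mono [LT G] (D : PD G) : Prop := ∀ i j, i < j → j ≤ D.n → D.v i < D.v j

/-- There is no vertex strictly between `x` and `y`. -/
def PD.flat [LE G] (D : PD G) (x y : G) : Prop := ∀ i ≤ D.n, D.v i ≤ x ∨ y ≤ D.v i

/-- Glued arcs. -/
inductive Nd [AddCommGroup G] [LinearOrder G] (D : PD G) : G → G → ℝ → Prop
  | single (p : G) : Nd D p p (D.ang p)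
  | snoc {p q s r : G} {θ θ' : ℝ} : Nd D p q θ → 0 < s → D.flat q (q + s) →
      Nd D (q + s) r θ' → θ' ≤ 2 * π → D.flat r (r + s) → Nd D p (r + s) (θ + D.ang (r + s))

/-- Glued arcs where `p` and `q` are consecutive in their class. -/
def Ch [AddCommGroup G] [LinearOrder G] (D : PD G) (p q : G) : Prop :=
  ∃ (s r : G) (θ : ℝ), q = r + s ∧ 0 < s ∧ D.flat p (p + s) ∧ Nd D (p + s) r θ ∧ θ ≤ 2 * π ∧
    D.flat r (r + s)

theorem Nd.snoc' [AddCommGroup G] [LinearOrder G] {D : PD G} {p q r : G} {θ : ℝ}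
    (h : Nd D p q θ) (hc : Ch D q r) : Nd D p r (θ + D.ang r) := by
  obtain ⟨s, r', θ', rfl, hs, f1, h', hθ, f2⟩ := hc
  exact h.snoc hs f1 h' hθ f2

end

end Pool.Agent.MP33

end

section

/-!
# Perturbing real positions to even integers
-/

set_option autoImplicit false

namespace Pool.Agent.MP33

/-- `ψ` respects order and addition on `S`. -/
def Good (S : Finset ℝ) (ψ : ℝ → ℤ) : Prop :=
  (∀ a ∈ S, ∀ b ∈ S, a < b → ψ a < ψ b) ∧
  (∀ a ∈ S, ∀ b ∈ S, ∀ c ∈ S, a + b = c → ψ a + ψ b = ψ c)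

theorem Good.mono {S T : Finset ℝ} {ψ : ℝ → ℤ} (h : Good T ψ) (hST : S ⊆ T) : Good S ψ :=
  ⟨fun a ha b hb => h.1 a (hST ha) b (hST hb),
   fun a ha b hb c hc => h.2 a (hST ha) b (hST hb) c (hST hc)⟩

theorem exists_good (S : Finset ℝ) : ∃ ψ : ℝ → ℤ, (∀ x, Even (ψ x)) ∧ Good S ψ := by
  classical
  -- a positive lower bound for the gaps
  obtain ⟨δ, hδ, hgap⟩ : ∃ δ : ℝ, 0 < δ ∧ ∀ a ∈ S, ∀ b ∈ S, a < b → δ ≤ b - a := by
    by_cases hne : ((S ×ˢ S).filter (fun p => p.1 < p.2)).Nonempty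
    · obtain ⟨p, hp, hmin⟩ := Finset.exists_min_image _ (fun p : ℝ × ℝ => p.2 - p.1) hne
      refine ⟨p.2 - p.1, ?_, fun a ha b hb hab => ?_⟩
      · have := (Finset.mem_filter.1 hp).2
        linarith
      · exact hmin (a, b) (Finset.mem_filter.2 ⟨Finset.mem_product.2 ⟨ha, hb⟩, hab⟩)
    · refine ⟨1, one_pos, fun a ha b hb hab => ?_⟩
      exact absurd ⟨(a, b), Finset.mem_filter.2 ⟨Finset.mem_product.2 ⟨ha, hb⟩, hab⟩⟩ hne
  obtain ⟨N1, hN1⟩ := exists_nat_gt (1 / δ)
  -- pigeonhole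
  let g : ℕ → (S → Fin 4) := fun k s =>
    ⟨⌊4 * Int.fract ((k : ℝ) * N1 * (s : ℝ))⌋.toNat, by
      have h1 := Int.fract_nonneg ((k : ℝ) * N1 * (s : ℝ))
      have h2 := Int.fract_lt_one ((k : ℝ) * N1 * (s : ℝ))
      have h3 : ⌊4 * Int.fract ((k : ℝ) * N1 * (s : ℝ))⌋ < 4 := by
        rw [Int.floor_lt]; push_cast; linarith
      omega⟩
  obtain ⟨k, k', hne, hk⟩ := Finite.exists_ne_map_eq_of_infinite g
  obtain ⟨k, k', hlt, hk⟩ : ∃ k k' : ℕ, k < k' ∧ g k = g k' := by
    rcases lt_or_gt_of_ne hne with h | h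
    · exact ⟨k, k', h, hk⟩
    · exact ⟨k', k, h, hk.symm⟩
  have hclose : ∀ s ∈ S, |Int.fract ((k' : ℝ) * N1 * s) - Int.fract ((k : ℝ) * N1 * s)| < 1 / 4 := by
    intro s hs
    have h1 := congrFun hk ⟨s, hs⟩
    have h2 : ⌊4 * Int.fract ((k : ℝ) * N1 * s)⌋.toNat = ⌊4 * Int.fract ((k' : ℝ) * N1 * s)⌋.toNat :=
      congrArg Fin.val h1
    have h3 := Int.fract_nonneg ((k : ℝ) * N1 * s)
    have h4 := Int.fract_nonneg ((k' : ℝ) * N1 * s)
    have h5 : 0 ≤ ⌊4 * Int.fract ((k : ℝ) * N1 * s)⌋ := Int.floor_nonneg.2 (by linarith)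
    have h6 : 0 ≤ ⌊4 * Int.fract ((k' : ℝ) * N1 * s)⌋ := Int.floor_nonneg.2 (by linarith)
    have h7 : ⌊4 * Int.fract ((k : ℝ) * N1 * s)⌋ = ⌊4 * Int.fract ((k' : ℝ) * N1 * s)⌋ := by omega
    have h8 := Int.abs_sub_lt_one_of_floor_eq_floor h7
    rw [← mul_sub, abs_mul, abs_of_pos (by norm_num : (0 : ℝ) < 4)] at h8
    rw [abs_sub_comm]
    linarith
  -- the multiplier
  set N : ℝ := ((k' : ℝ) - k) * N1 with hN
  have hδ1 : 0 < 1 / δ := by positivity
  have hN1' : (0 : ℝ) < N1 := lt_trans hδ1 hN1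
  have hkk : (1 : ℝ) ≤ (k' : ℝ) - k := by
    have : (k : ℝ) + 1 ≤ k' := by exact_mod_cast hlt
    linarith
  have hNge : (N1 : ℝ) ≤ N := by rw [hN]; nlinarith
  have hround : ∀ s ∈ S, |N * s - round (N * s)| < 1 / 4 := by
    intro s hs
    have h1 := hclose s hs
    have h2 : N * s = ((⌊(k' : ℝ) * N1 * s⌋ - ⌊(k : ℝ) * N1 * s⌋ : ℤ) : ℝ) +
        (Int.fract ((k' : ℝ) * N1 * s) - Int.fract ((k : ℝ) * N1 * s)) := by
      unfold Int.fract
      push_cast
      rw [hN]; ring
    refine lt_of_le_of_lt (round_le (N * s) (⌊(k' : ℝ) * N1 * s⌋ - ⌊(k : ℝ) * N1 * s⌋)) ?_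
    rw [h2]
    push_cast
    rw [add_sub_cancel_left]
    exact h1
  refine ⟨fun x => 2 * round (N * x), fun x => ⟨round (N * x), by ring⟩, ?_, ?_⟩
  · intro a ha b hb hab
    have h1 := hgap a ha b hb hab
    have h2 := abs_lt.1 (hround a ha)
    have h3 := abs_lt.1 (hround b hb)
    have h4 : 1 < N * (b - a) := by
      have : 1 < N1 * δ := by rwa [div_lt_iff₀ hδ] at hN1
      nlinarith
    have h5 : (round (N * a) : ℝ) < round (N * b) := by nlinarith
    have h6 : round (N * a) < round (N * b) := by exact_mod_cast h5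
    show 2 * round (N * a) < 2 * round (N * b)
    omega
  · intro a ha b hb c hc habc
    have h1 := abs_lt.1 (hround a ha)
    have h2 := abs_lt.1 (hround b hb)
    have h3 := abs_lt.1 (hround c hc)
    have h0 : N * a + N * b = N * c := by rw [← mul_add, habc]
    have h4 : ((round (N * a) + round (N * b) - round (N * c) : ℤ) : ℝ) < 1 := by
      push_cast; linarith
    have h5 : (-1 : ℝ) < ((round (N * a) + round (N * b) - round (N * c) : ℤ) : ℝ) := by
      push_cast; linarith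
    have h6 : round (N * a) + round (N * b) - round (N * c) < 1 := by exact_mod_cast h4
    have h7 : -1 < round (N * a) + round (N * b) - round (N * c) := by exact_mod_cast h5
    show 2 * round (N * a) + 2 * round (N * b) = 2 * round (N * c)
    omega

end Pool.Agent.MP33

end

section

/-!
# Integer gluings as involutions on unit cells
-/

set_option autoImplicit false

namespace Pool.Agent.MP33

open Real Finset

/-- `A` is a non-crossing involution of the cells in `C`, with odd displacements. -/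
structure Pr (C : Finset ℤ) (A : ℤ → ℤ) : Prop where
  mem : ∀ i ∈ C, A i ∈ C
  invol : ∀ i ∈ C, A (A i) = i
  odd : ∀ i ∈ C, Odd (A i - i)
  nc : ∀ i ∈ C, ∀ j ∈ C, i < j → j < A i → i < A j ∧ A j < A i

section

variable (D : PD ℤ)

theorem ang_of_flat {D : PD ℤ} {x y j : ℤ} (h : D.flat x y) (h1 : x < j) (h2 : j < y) :
    D.ang j = π := by
  unfold PD.ang
  rw [dif_neg]
  rintro ⟨i, hi, rfl⟩
  rcases h i hi with h | h <;> omega

/-- Sum of the turning angles in a set of positions. -/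
noncomputable def tau (D : PD ℤ) (s : Finset ℤ) : ℝ := ∑ j ∈ s, (π - D.ang j)

theorem tau_flat {D : PD ℤ} {x y : ℤ} {s : Finset ℤ} (h : D.flat x y)
    (hs : ∀ j ∈ s, x < j ∧ j < y) : tau D s = 0 := by
  refine Finset.sum_eq_zero (fun j hj => ?_)
  rw [ang_of_flat h (hs j hj).1 (hs j hj).2, sub_self]

/-- The contribution of the two sides of an edge. -/
theorem edge_sum {D : PD ℤ} {a b s : ℤ} {f : ℤ → ℤ} (h1 : D.flat a (a + s))
    (h2 : D.flat b (b + s)) (hf : ∀ i, a < i → i < a + s → f i = f (a + b + s - i)) :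
    ∃ N : ℤ, (∑ j ∈ Ioo a (a + s), (f j : ℝ) * D.ang j) +
      (∑ j ∈ Ioo b (b + s), (f j : ℝ) * D.ang j) = 2 * π * N := by
  refine ⟨∑ j ∈ Ioo a (a + s), f j, ?_⟩
  have e1 : ∑ j ∈ Ioo a (a + s), (f j : ℝ) * D.ang j = ∑ j ∈ Ioo a (a + s), (f j : ℝ) * π := by
    refine Finset.sum_congr rfl (fun j hj => ?_)
    rw [Finset.mem_Ioo] at hj
    rw [ang_of_flat h1 hj.1 hj.2]
  have e2 : ∑ j ∈ Ioo b (b + s), (f j : ℝ) * D.ang j = ∑ j ∈ Ioo a (a + s), (f j : ℝ) * π := by
    refine Finset.sum_nbij' (fun j => a + b + s - j) (fun j => a + b + s - j) ?_ ?_ ?_ ?_ ?_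
    · intro j hj; rw [Finset.mem_Ioo] at hj ⊢; omega
    · intro j hj; rw [Finset.mem_Ioo] at hj ⊢; omega
    · intro j _; omega
    · intro j _; omega
    · intro j hj
      rw [Finset.mem_Ioo] at hj
      rw [ang_of_flat h2 hj.1 hj.2, hf (a + b + s - j) (by omega) (by omega)]
      congr 3
      omega
  rw [e1, e2, ← Finset.sum_mul]
  push_cast
  ring

/-- The outcome of the analysis of a glued arc. -/
structure NdCells (D : PD ℤ) (p q : ℤ) (θ : ℝ) (A : ℤ → ℤ) : Prop where
  le : p ≤ q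
  even : Even (q - p)
  pr : Pr (Ico p q) A
  fn : ∀ f : ℤ → ℤ, (∀ j, f j = 0 ∨ f j = 1) → (∀ i ∈ Ico p q, f i = f (A i + 1)) →
    f q = f p ∧ ∃ m : ℤ, 0 ≤ 2 * π * m - ((∑ j ∈ Icc p q, (f j : ℝ) * D.ang j) - f p * θ) ∧
      2 * π * m - ((∑ j ∈ Icc p q, (f j : ℝ) * D.ang j) - f p * θ) ≤ tau D (Icc p q) + θ - π

theorem sum_Icc_split {F : ℤ → ℝ} {p q r s : ℤ} (h1 : p ≤ q) (h2 : q + s ≤ r) (hs : 0 < s) :
    ∑ j ∈ Icc p (r + s), F j = (∑ j ∈ Icc p q, F j) + (∑ j ∈ Ioo q (q + s), F j) +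
      (∑ j ∈ Icc (q + s) r, F j) + (∑ j ∈ Ioo r (r + s), F j) + F (r + s) := by
  have e : Icc p (r + s) = Icc p q ∪ (Ioo q (q + s) ∪ (Icc (q + s) r ∪ (Ioo r (r + s) ∪ {r + s}))) := by
    ext j; simp only [Finset.mem_union, Finset.mem_Icc, Finset.mem_Ioo, Finset.mem_singleton]; omega
  rw [e, Finset.sum_union, Finset.sum_union, Finset.sum_union, Finset.sum_union,
    Finset.sum_singleton]
  · ring
  all_goals
    rw [Finset.disjoint_left]
    intro j hj
    simp only [Finset.mem_union, Finset.mem_Icc, Finset.mem_Ioo, Finset.mem_singleton] at hj ⊢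
    omega

/-- Combine two partial involutions by an edge. -/
def glueA (q r s : ℤ) (A1 A2 : ℤ → ℤ) (i : ℤ) : ℤ :=
  if i < q then A1 i else if i < q + s then q + r + s - 1 - i else if i < r then A2 i
    else q + r + s - 1 - i

theorem Nd.cells {D : PD ℤ} {p q : ℤ} {θ : ℝ} (h : Nd D p q θ) : ∃ A, NdCells D p q θ A := by
  induction h with
  | single p =>
    refine ⟨fun i => i, le_refl _, by simp, ⟨by simp, by simp, by simp, by simp⟩, ?_⟩
    intro f hf hi
    refine ⟨rfl, 0, ?_⟩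
    simp only [Finset.Icc_self, Finset.sum_singleton, tau]
    constructor <;> simp
  | @snoc p q s r θ θ' _ hs f1 _ hθ f2 ih1 ih2 =>
    obtain ⟨A1, hA1⟩ := ih1
    obtain ⟨A2, hA2⟩ := ih2
    have l1 := hA1.le
    have l2 := hA2.le
    obtain ⟨e1, he1⟩ := hA1.even
    obtain ⟨e2, he2⟩ := hA2.even
    refine ⟨glueA q r s A1 A2, by omega, ⟨e1 + s + e2, by omega⟩, ⟨?_, ?_, ?_, ?_⟩, ?_⟩
    · intro i hi
      rw [Finset.mem_Ico] at hi ⊢
      unfold glueA
      split_ifs with c1 c2 c3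
      · have := Finset.mem_Ico.1 (hA1.pr.mem i (Finset.mem_Ico.2 ⟨hi.1, c1⟩)); omega
      · omega
      · have := Finset.mem_Ico.1 (hA2.pr.mem i (Finset.mem_Ico.2 ⟨by omega, c3⟩)); omega
      · omega
    · intro i hi
      rw [Finset.mem_Ico] at hi
      unfold glueA
      by_cases c1 : i < q
      · have h1 := Finset.mem_Ico.1 (hA1.pr.mem i (Finset.mem_Ico.2 ⟨hi.1, c1⟩))
        rw [if_pos c1, if_pos h1.2]
        exact hA1.pr.invol i (Finset.mem_Ico.2 ⟨hi.1, c1⟩)
      · by_cases c2 : i < q + s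
        · rw [if_neg c1, if_pos c2, if_neg (by omega), if_neg (by omega), if_neg (by omega)]
          omega
        · by_cases c3 : i < r
          · have hm : i ∈ Ico (q + s) r := Finset.mem_Ico.2 ⟨by omega, c3⟩
            have h1 := Finset.mem_Ico.1 (hA2.pr.mem i hm)
            rw [if_neg c1, if_neg c2, if_pos c3, if_neg (by omega), if_neg (by omega),
              if_pos h1.2]
            exact hA2.pr.invol i hm
          · rw [if_neg c1, if_neg c2, if_neg c3, if_neg (by omega), if_pos (by omega)]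
            omega
    · intro i hi
      rw [Finset.mem_Ico] at hi
      unfold glueA
      split_ifs with c1 c2 c3
      · exact hA1.pr.odd i (Finset.mem_Ico.2 ⟨hi.1, c1⟩)
      · exact ⟨e2 + (q + s - 1 - i), by omega⟩
      · exact hA2.pr.odd i (Finset.mem_Ico.2 ⟨by omega, c3⟩)
      · exact ⟨e2 + (q + s - 1 - i), by omega⟩
    · intro i hi j hj hij hjA
      rw [Finset.mem_Ico] at hi hj
      unfold glueA at hjA ⊢
      by_cases c1 : i < q
      · have h1 := Finset.mem_Ico.1 (hA1.pr.mem i (Finset.mem_Ico.2 ⟨hi.1, c1⟩))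
        rw [if_pos c1] at hjA ⊢
        have hjq : j < q := by omega
        rw [if_pos hjq]
        exact hA1.pr.nc i (Finset.mem_Ico.2 ⟨hi.1, c1⟩) j (Finset.mem_Ico.2 ⟨hj.1, hjq⟩) hij hjA
      · by_cases c2 : i < q + s
        · rw [if_neg c1, if_pos c2] at hjA ⊢
          by_cases d2 : j < q + s
          · rw [if_neg (by omega), if_pos d2]; omega
          · by_cases d3 : j < r
            · have h1 := Finset.mem_Ico.1 (hA2.pr.mem j (Finset.mem_Ico.2 ⟨by omega, d3⟩))
              rw [if_neg (by omega), if_neg d2, if_pos d3]; omega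
            · rw [if_neg (by omega), if_neg d2, if_neg d3]; omega
        · by_cases c3 : i < r
          · have hm : i ∈ Ico (q + s) r := Finset.mem_Ico.2 ⟨by omega, c3⟩
            have h1 := Finset.mem_Ico.1 (hA2.pr.mem i hm)
            rw [if_neg c1, if_neg c2, if_pos c3] at hjA ⊢
            rw [if_neg (by omega), if_neg (by omega), if_pos (by omega)]
            exact hA2.pr.nc i hm j (Finset.mem_Ico.2 ⟨by omega, by omega⟩) hij hjA
          · rw [if_neg c1, if_neg c2, if_neg c3] at hjA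
            omega
    · intro f hf hi
      have hi1 : ∀ i ∈ Ico p q, f i = f (A1 i + 1) := by
        intro i hm
        have h1 := Finset.mem_Ico.1 hm
        have := hi i (Finset.mem_Ico.2 ⟨h1.1, by omega⟩)
        rwa [glueA, if_pos h1.2] at this
      have hi2 : ∀ i ∈ Ico (q + s) r, f i = f (A2 i + 1) := by
        intro i hm
        have h1 := Finset.mem_Ico.1 hm
        have := hi i (Finset.mem_Ico.2 ⟨by omega, by omega⟩)
        rwa [glueA, if_neg (by omega), if_neg (by omega), if_pos h1.2] at this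
      have hi3 : ∀ i, q ≤ i → i < q + s → f i = f (q + r + s - i) := by
        intro i h1 h2
        have := hi i (Finset.mem_Ico.2 ⟨by omega, by omega⟩)
        rw [glueA, if_neg (by omega), if_pos h2] at this
        rw [this]; congr 1; omega
      obtain ⟨g1, m1, a1, b1⟩ := hA1.fn f hf hi1
      obtain ⟨g2, m2, a2, b2⟩ := hA2.fn f hf hi2
      obtain ⟨N, hN⟩ := edge_sum f1 f2 (f := f) (fun i h1 h2 => hi3 i h1.le h2)
      have g3 : f (r + s) = f p := by
        rw [← g1, hi3 q (le_refl _) (by omega)]; congr 1; omega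
      refine ⟨g3, m1 + N + m2 + f (q + s), ?_⟩
      have e1 := sum_Icc_split (F := fun j => (f j : ℝ) * D.ang j) l1 l2 hs
      have e2 := sum_Icc_split (F := fun j => π - D.ang j) l1 l2 hs
      have e3 : tau D (Ioo q (q + s)) = 0 := tau_flat f1 (fun j hj => Finset.mem_Ioo.1 hj)
      have e4 : tau D (Ioo r (r + s)) = 0 := tau_flat f2 (fun j hj => Finset.mem_Ioo.1 hj)
      unfold tau at e3 e4 b1 b2 ⊢
      rw [e1, e2, e3, e4, g3]
      push_cast
      have hπ := Real.pi_pos
      rcases hf (q + s) with h0 | h0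
      · rw [h0] at a2 b2 ⊢
        push_cast at a2 b2 ⊢
        constructor <;> nlinarith
      · rw [h0] at a2 b2 ⊢
        push_cast at a2 b2 ⊢
        constructor <;> nlinarith

end

end Pool.Agent.MP33

end
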