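import Mathlib
import Pool.Agent.Work.MP_33efdc_lc.Defs
import Pool.Agent.Work.MP_33efdc_lc.Gluing
import Pool.Agent.Work.MP_33efdc_lc.Bd.B01

/-! Bundle of small proof modules (one section per former module). -/

section

/-!
A fixed point free involution of the sides of a polygon is noncrossing iff the glued surface
has Euler characteristic two.  Proof: count the functions with values in `ZMod 2` on the vertices.
-/

namespace Pool.Agent.MP33

open Finset

section

variable (m : ℕ) (hm : 0 < m) (mu : ℕ → ℕ)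

/-- Gluing relation on the vertices. -/
abbrev glue : Fin m → Fin m → Prop := fun x y => ∃ i < m, x.val = (i + 1) % m ∧ y.val = mu i

/-- Lift of a function on the classes to a periodic function. -/
def lft (h : Quot (glue m mu) → ZMod 2) (i : ℕ) : ZMod 2 :=
  h (Quot.mk (glue m mu) ⟨i % m, Nat.mod_lt _ hm⟩)

variable {m mu}

theorem lft_mod (h : Quot (glue m mu) → ZMod 2) (i : ℕ) : lft m hm mu h (i % m) = lft m hm mu h i := by
  unfold lft
  simp only [Nat.mod_mod]

theorem lft_rel (mu_lt : ∀ i < m, mu i < m) (h : Quot (glue m mu) → ZMod 2) (i : ℕ) (hi : i < m) :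
    lft m hm mu h (i + 1) = lft m hm mu h (mu i) := by
  unfold lft
  congr 1
  exact Quot.sound ⟨i, hi, rfl, Nat.mod_eq_of_lt (mu_lt i hi)⟩

/-- Differences. -/
def dif (F : ℕ → ZMod 2) (i : ℕ) : ZMod 2 := F (i + 1) + F i

theorem two_cancel (a : ZMod 2) : a + a = 0 := by
  revert a; decide

theorem dif_mu (mu_lt : ∀ i < m, mu i < m) (mu_mu : ∀ i < m, mu (mu i) = i)
    (h : Quot (glue m mu) → ZMod 2) (i : ℕ) (hi : i < m) :
    dif (lft m hm mu h) (mu i) = dif (lft m hm mu h) i := by
  unfold dif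
  rw [lft_rel hm mu_lt h (mu i) (mu_lt i hi), mu_mu i hi, lft_rel hm mu_lt h i hi, add_comm]

theorem sum_dif (F : ℕ → ZMod 2) (a b : ℕ) (hab : a ≤ b) :
    F b = F a + ∑ j ∈ Finset.Ico a b, dif F j := by
  induction b, hab using Nat.le_induction with
  | base => simp
  | succ b hb ih =>
    rw [Finset.sum_Ico_succ_top hb, ← add_assoc, ← ih]
    unfold dif
    have := two_cancel (F b)
    linear_combination -this

theorem card_S (mu_lt : ∀ i < m, mu i < m) (mu_mu : ∀ i < m, mu (mu i) = i)
    (mu_ne : ∀ i < m, mu i ≠ i) : 2 * ((Finset.range m).filter (fun i => i < mu i)).card = m := by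
  have h1 := Finset.card_filter_add_card_filter_not (s := Finset.range m) (fun i => i < mu i)
  have h2 : ((Finset.range m).filter (fun i => i < mu i)).card =
      ((Finset.range m).filter (fun i => ¬ i < mu i)).card := by
    refine Finset.card_bij (fun i _ => mu i) ?_ ?_ ?_
    · intro i hi
      rw [Finset.mem_filter, Finset.mem_range] at hi ⊢
      refine ⟨mu_lt i hi.1, ?_⟩
      rw [mu_mu i hi.1]
      omega
    · intro i hi j hj hij
      rw [Finset.mem_filter, Finset.mem_range] at hi hj
      rw [← mu_mu i hi.1, hij, mu_mu j hj.1]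
    · intro j hj
      rw [Finset.mem_filter, Finset.mem_range] at hj
      refine ⟨mu j, ?_, mu_mu j hj.1⟩
      rw [Finset.mem_filter, Finset.mem_range, mu_mu j hj.1]
      have := mu_ne j hj.1
      exact ⟨mu_lt j hj.1, by omega⟩
  rw [Finset.card_range] at h1
  omega

/-- The comparison map. -/
def cmp (S : Finset ℕ) (h : Quot (glue m mu) → ZMod 2) : ZMod 2 × (S → ZMod 2) :=
  (lft m hm mu h 0, fun s => dif (lft m hm mu h) s)

theorem cmp_inj (mu_lt : ∀ i < m, mu i < m) (mu_mu : ∀ i < m, mu (mu i) = i)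
    (mu_ne : ∀ i < m, mu i ≠ i) :
    Function.Injective (cmp (m := m) (mu := mu) hm ((Finset.range m).filter (fun i => i < mu i))) := by
  intro h h' heq
  have h0 : lft m hm mu h 0 = lft m hm mu h' 0 := congrArg Prod.fst heq
  have h1 : ∀ j < m, dif (lft m hm mu h) j = dif (lft m hm mu h') j := by
    intro j hj
    by_cases hS : j < mu j
    · exact congrFun (congrArg Prod.snd heq) ⟨j, by
        rw [Finset.mem_filter, Finset.mem_range]
        exact ⟨hj, hS⟩⟩
    · rw [← dif_mu hm mu_lt mu_mu h j hj, ← dif_mu hm mu_lt mu_mu h' j hj]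
      exact congrFun (congrArg Prod.snd heq) ⟨mu j, by
        rw [Finset.mem_filter, Finset.mem_range, mu_mu j hj]
        have := mu_ne j hj
        exact ⟨mu_lt j hj, by omega⟩⟩
  funext q
  induction q using Quot.ind with
  | _ x =>
    have h2 : lft m hm mu h x = lft m hm mu h' x := by
      rw [sum_dif (lft m hm mu h) 0 x (Nat.zero_le _), sum_dif (lft m hm mu h') 0 x (Nat.zero_le _),
        h0]
      congr 1
      refine Finset.sum_congr rfl fun j hj => h1 j ?_
      rw [Finset.mem_Ico] at hj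
      have := x.is_lt
      omega
    unfold lft at h2
    have h3 : (⟨x.val % m, Nat.mod_lt _ hm⟩ : Fin m) = x := Fin.ext (Nat.mod_eq_of_lt x.is_lt)
    rw [h3] at h2
    exact h2

theorem cmp_surj (mu_lt : ∀ i < m, mu i < m) (mu_mu : ∀ i < m, mu (mu i) = i)
    (mu_ne : ∀ i < m, mu i ≠ i)
    (hnc : ∀ i j, i < j → j < mu i → mu i < m → i < mu j ∧ mu j < mu i) :
    Function.Surjective (cmp (m := m) (mu := mu) hm ((Finset.range m).filter (fun i => i < mu i))) := by
  classical
  rintro ⟨a, g⟩
  -- extension of `g`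
  let G : ℕ → ZMod 2 := fun i =>
    if hi : i ∈ (Finset.range m).filter (fun i => i < mu i) then g ⟨i, hi⟩ else
      if hi : mu i ∈ (Finset.range m).filter (fun i => i < mu i) then g ⟨mu i, hi⟩ else 0
  have hG : ∀ i < m, G (mu i) = G i := by
    intro i hi
    have hm2 := mu_lt i hi
    have hne := mu_ne i hi
    simp only [G, Finset.mem_filter, Finset.mem_range, mu_mu i hi]
    by_cases h1 : i < mu i
    · have h2 : ¬ (mu i < m ∧ mu i < i) := by omega
      have h3 : i < m ∧ i < mu i := ⟨hi, h1⟩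
      rw [dif_neg h2, dif_pos h3, dif_pos h3]
    · have h2 : (mu i < m ∧ mu i < i) := by omega
      have h3 : ¬ (i < m ∧ i < mu i) := by omega
      rw [dif_pos h2, dif_neg h3, dif_pos h2]
  let F : ℕ → ZMod 2 := fun i => a + ∑ j ∈ Finset.range i, G j
  have hdF : ∀ i, dif F i = G i := by
    intro i
    simp only [dif, F]
    rw [Finset.sum_range_succ]
    have := two_cancel (a + ∑ j ∈ Finset.range i, G j)
    linear_combination this
  have hzero : ∀ a b, a ≤ b → (∀ j, a ≤ j → j < b → j < m ∧ a ≤ mu j ∧ mu j < b) → F b = F a := by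
    intro a b hab hcl
    rw [sum_dif F a b hab]
    have : ∑ j ∈ Finset.Ico a b, dif F j = 0 := by
      simp only [hdF]
      refine Finset.sum_involution (fun j _ => mu j) ?_ ?_ ?_ ?_
      · intro j hj
        rw [Finset.mem_Ico] at hj
        rw [hG j (hcl j hj.1 hj.2).1]
        exact two_cancel _
      · intro j hj _
        rw [Finset.mem_Ico] at hj
        exact mu_ne j (hcl j hj.1 hj.2).1
      · intro j hj
        rw [Finset.mem_Ico] at hj ⊢
        exact (hcl j hj.1 hj.2).2
      · intro j hj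
        rw [Finset.mem_Ico] at hj
        exact mu_mu j (hcl j hj.1 hj.2).1
    rw [this, add_zero]
  have hrel : ∀ i < m, F (i + 1) = F (mu i) := by
    intro i hi
    have hm2 := mu_lt i hi
    have hne := mu_ne i hi
    by_cases h1 : i < mu i
    · refine (hzero (i + 1) (mu i) (by omega) ?_).symm
      intro j hj1 hj2
      have := hnc i j (by omega) hj2 hm2
      omega
    · refine hzero (mu i) (i + 1) (by omega) ?_
      intro j hj1 hj2
      rcases Nat.lt_or_ge (mu i) j with h2 | h2
      · rcases Nat.lt_or_ge j i with h3 | h3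
        · have := hnc (mu i) j h2 (by rw [mu_mu i hi]; exact h3) (by rw [mu_mu i hi]; exact hi)
          rw [mu_mu i hi] at this
          omega
        · have h4 : j = i := by omega
          subst h4
          omega
      · have h4 : j = mu i := by omega
        subst h4
        rw [mu_mu i hi]
        omega
  have hFm : F m = F 0 := by
    refine hzero 0 m (Nat.zero_le _) ?_
    intro j _ hj
    exact ⟨hj, Nat.zero_le _, mu_lt j hj⟩
  have hFmod : ∀ i ≤ m, F (i % m) = F i := by
    intro i hi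
    rcases Nat.lt_or_ge i m with h1 | h1
    · rw [Nat.mod_eq_of_lt h1]
    · have : i = m := by omega
      rw [this, Nat.mod_self, hFm]
  refine ⟨Quot.lift (fun x : Fin m => F x) ?_, ?_⟩
  · rintro x y ⟨i, hi, hx, hy⟩
    show F x = F y
    rw [hx, hy, hFmod (i + 1) (by omega), hrel i hi]
  · have hl : ∀ i ≤ m, lft m hm mu (Quot.lift (fun x : Fin m => F x) (by
        rintro x y ⟨i, hi, hx, hy⟩
        show F x = F y
        rw [hx, hy, hFmod (i + 1) (by omega), hrel i hi])) i = F i := by
      intro i hi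
      show F (i % m) = F i
      exact hFmod i hi
    refine Prod.ext ?_ ?_
    · refine (hl 0 (Nat.zero_le _)).trans ?_
      simp [F]
    · funext s
      have hs := s.2
      rw [Finset.mem_filter, Finset.mem_range] at hs
      have h2 := hdF s
      unfold dif at h2
      have h3 : G s = g s := by
        simp only [G]
        rw [dif_pos s.2]
      refine Eq.trans ?_ (h2.trans h3)
      exact congrArg₂ (· + ·) (hl _ (by omega)) (hl _ (by omega))

end

/-- Noncrossing matchings are those whose one-face map has Euler characteristic two. -/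
theorem planar_iff_card (m : ℕ) (hm : 0 < m) (mu : ℕ → ℕ) (mu_lt : ∀ i < m, mu i < m)
    (mu_mu : ∀ i < m, mu (mu i) = i) (mu_ne : ∀ i < m, mu i ≠ i) :
    (∀ i j, i < j → j < mu i → mu i < m → i < mu j ∧ mu j < mu i) ↔
      2 * Nat.card (Quot (fun x y : Fin m => ∃ i < m, x.val = (i + 1) % m ∧ y.val = mu i)) =
        m + 2 := by
  classical
  have hS := card_S mu_lt mu_mu mu_ne
  have hinj := cmp_inj hm mu_lt mu_mu mu_ne
  have hc1 : Nat.card (Quot (glue m mu) → ZMod 2) = 2 ^ Nat.card (Quot (glue m mu)) := by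
    rw [Nat.card_fun, Nat.card_zmod]
  have hc2 : Nat.card (ZMod 2 × (((Finset.range m).filter (fun i => i < mu i)) → ZMod 2)) =
      2 ^ (((Finset.range m).filter (fun i => i < mu i)).card + 1) := by
    rw [Nat.card_prod, Nat.card_fun, Nat.card_zmod, Nat.card_eq_fintype_card, Fintype.card_coe]
    ring
  show _ ↔ 2 * Nat.card (Quot (glue m mu)) = m + 2
  constructor
  · intro hnc
    have hb := Nat.card_eq_of_bijective _ ⟨hinj, cmp_surj hm mu_lt mu_mu mu_ne hnc⟩
    rw [hc1, hc2] at hb
    have := Nat.pow_right_injective (le_refl 2) hb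
    omega
  · intro hcard i j hij hj hmi
    have hb : Function.Bijective (cmp (m := m) (mu := mu) hm
        ((Finset.range m).filter (fun i => i < mu i))) := by
      refine hinj.bijective_of_nat_card_le ?_
      rw [hc1, hc2]
      refine Nat.pow_le_pow_right (by norm_num) ?_
      omega
    by_contra hcon
    obtain ⟨h, hh⟩ := hb.2 (0, fun s => if (s : ℕ) = j ∨ (s : ℕ) = mu j then 1 else 0)
    have hjm : j < m := by omega
    have him : i < m := by omega
    have hd : ∀ l < m, dif (lft m hm mu h) l = if l = j ∨ l = mu j then 1 else 0 := by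
      intro l hl
      by_cases h1 : l < mu l
      · exact congrFun (congrArg Prod.snd hh) ⟨l, by
          rw [Finset.mem_filter, Finset.mem_range]
          exact ⟨hl, h1⟩⟩
      · rw [← dif_mu hm mu_lt mu_mu h l hl]
        have h2 := congrFun (congrArg Prod.snd hh) ⟨mu l, by
          rw [Finset.mem_filter, Finset.mem_range, mu_mu l hl]
          have := mu_ne l hl
          exact ⟨mu_lt l hl, by omega⟩⟩
        have h3 : (mu l = j ∨ mu l = mu j) ↔ (l = j ∨ l = mu j) := by
          constructor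
          · rintro (h | h)
            · right; rw [← h, mu_mu l hl]
            · left; rw [← mu_mu l hl, h, mu_mu j hjm]
          · rintro (h | h)
            · right; rw [h]
            · left; rw [h, mu_mu j hjm]
        refine h2.trans ?_
        simp only [h3]
    have hsum := sum_dif (lft m hm mu h) (i + 1) (mu i) (by omega)
    rw [← lft_rel hm mu_lt h i him] at hsum
    have h4 : ∑ l ∈ Finset.Ico (i + 1) (mu i), dif (lft m hm mu h) l = 1 := by
      rw [Finset.sum_eq_single j]
      · rw [hd j hjm]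
        simp
      · intro l hl hne
        rw [Finset.mem_Ico] at hl
        rw [hd l (by omega), if_neg]
        intro h5
        rcases h5 with h5 | h5
        · exact hne h5
        · apply hcon
          rw [← h5]
          omega
      · intro h5
        exact absurd (Finset.mem_Ico.mpr ⟨hij, hj⟩) h5
    rw [h4] at hsum
    have h6 : (1 : ZMod 2) = 0 := by linear_combination -hsum
    exact absurd h6 (by decide)

end Pool.Agent.MP33

end

section

/-!
# The total turning of a simple polygon is `2 π` or `-2 π`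

A discrete version of the proof of H. Hopf: the directions `w j - w i` of the secants.
-/

set_option autoImplicit false

namespace Pool.Agent.MP33

open Real

/-- The angle from `x` to `y`. -/
noncomputable def tn (x y : ℂ) : ℝ := (y / x).arg

theorem tn_eq {x y : ℂ} (hx : x ≠ 0) (hy : y ≠ 0) (h1 : x.arg ≠ π)
    (h2 : y.arg - x.arg ∈ Set.Ioc (-π) π) : tn x y = y.arg - x.arg := by
  unfold tn
  have hi : (x⁻¹).arg = -x.arg := by rw [Complex.arg_inv, if_neg h1]
  rw [div_eq_mul_inv, Complex.arg_mul hy (inv_ne_zero hx) (by rw [hi]; simpa [sub_eq_add_neg] using h2),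
    hi, sub_eq_add_neg]

theorem tn_neg (x y : ℂ) : tn (-x) (-y) = tn x y := by
  unfold tn; rw [neg_div_neg_eq]

theorem tn_mul {u : ℂ} (hu : u ≠ 0) (x y : ℂ) : tn (u * x) (u * y) = tn x y := by
  unfold tn
  rw [mul_div_mul_left _ _ hu]

/-- Angles between vectors in a half-plane are additive. -/
theorem tn_add {u x y z : ℂ} (hx : 0 < (u * x).re) (hy : 0 < (u * y).re) (hz : 0 < (u * z).re) :
    tn x y + tn y z = tn x z := by
  have hu : u ≠ 0 := by rintro rfl; simp at hx
  have key : ∀ {a b : ℂ}, 0 < a.re → 0 < b.re → tn a b = b.arg - a.arg := by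
    intro a b ha hb
    have ha0 : a ≠ 0 := by rintro rfl; simp at ha
    have hb0 : b ≠ 0 := by rintro rfl; simp at hb
    have h1 := Complex.abs_arg_lt_pi_div_two_iff.2 (Or.inl ha)
    have h2 := Complex.abs_arg_lt_pi_div_two_iff.2 (Or.inl hb)
    rw [abs_lt] at h1 h2
    refine tn_eq ha0 hb0 (by linarith [Real.pi_pos]) ⟨by linarith, by linarith⟩
  rw [← tn_mul hu x y, ← tn_mul hu y z, ← tn_mul hu x z, key hx hy, key hy hz, key hx hz]
  ring

theorem isCompact_seg (a b : ℂ) : IsCompact (segment ℝ a b) := by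
  rw [segment_eq_image]
  exact isCompact_Icc.image (by fun_prop)

/-- The differences of the points of two disjoint segments lie in a half-plane. -/
theorem hp_of_disjoint {a a' b b' : ℂ} (h : Disjoint (segment ℝ a a') (segment ℝ b b')) :
    ∃ u : ℂ, 0 < (u * (b - a)).re ∧ 0 < (u * (b - a')).re ∧ 0 < (u * (b' - a)).re ∧
      0 < (u * (b' - a')).re := by
  obtain ⟨f, s, t, h1, h2, h3⟩ := geometric_hahn_banach_compact_closed (convex_segment a a')
    (isCompact_seg a a') (convex_segment b b') (isCompact_seg b b').isClosed h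
  have key : ∀ x : ℂ, (((f 1 : ℝ) - (f Complex.I : ℝ) * Complex.I : ℂ) * x).re = f x := by
    intro x
    have hx : x = x.re • (1 : ℂ) + x.im • Complex.I := by
      rw [Complex.real_smul, Complex.real_smul, mul_one]; exact (Complex.re_add_im x).symm
    conv_rhs => rw [hx, map_add, map_smul, map_smul, smul_eq_mul, smul_eq_mul]
    simp
    ring
  refine ⟨(f 1 : ℝ) - (f Complex.I : ℝ) * Complex.I, ?_, ?_, ?_, ?_⟩ <;> rw [key, map_sub]
  · have := h1 a (left_mem_segment ℝ _ _); have := h3 b (left_mem_segment ℝ _ _); linarith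
  · have := h1 a' (right_mem_segment ℝ _ _); have := h3 b (left_mem_segment ℝ _ _); linarith
  · have := h1 a (left_mem_segment ℝ _ _); have := h3 b' (right_mem_segment ℝ _ _); linarith
  · have := h1 a' (right_mem_segment ℝ _ _); have := h3 b' (right_mem_segment ℝ _ _); linarith

/-- At a corner: the two edges and their sum lie in a half-plane. -/
theorem hp_corner {x y : ℂ} (h : (0 : ℂ) ∉ segment ℝ x y) :
    ∃ u : ℂ, 0 < (u * x).re ∧ 0 < (u * y).re ∧ 0 < (u * (x + y)).re := by
  have hd : Disjoint (segment ℝ (0 : ℂ) 0) (segment ℝ x y) := by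
    rw [segment_same, Set.disjoint_singleton_left]; exact h
  obtain ⟨u, h1, _, h2, _⟩ := hp_of_disjoint hd
  rw [sub_zero] at h1 h2
  refine ⟨u, h1, h2, ?_⟩
  rw [mul_add, Complex.add_re]
  linarith

/-- Vectors with argument in `[0, π)`. -/
def upp (x : ℂ) : Prop := 0 < x.im ∨ (x.im = 0 ∧ 0 < x.re)

theorem upp.arg {x : ℂ} (h : upp x) : 0 ≤ x.arg ∧ x.arg < π := by
  rw [Complex.arg_nonneg_iff, Complex.arg_lt_pi_iff]
  rcases h with h | ⟨h1, h2⟩
  · exact ⟨h.le, Or.inr h.ne'⟩
  · exact ⟨h1.ge, Or.inl h2.le⟩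

theorem upp.ne {x : ℂ} (h : upp x) : x ≠ 0 := by
  rintro rfl
  rcases h with h | ⟨_, h⟩ <;> simp at h

theorem tn_upp {x y : ℂ} (hx : upp x) (hy : upp y) : tn x y = y.arg - x.arg := by
  have h1 := hx.arg
  have h2 := hy.arg
  exact tn_eq hx.ne hy.ne h1.2.ne ⟨by linarith, by linarith⟩

/-- The total turning, vertices indexed such that `w 0` is extreme. -/
theorem turning_aux {n : ℕ} (hn : 3 ≤ n) {w : ℕ → ℂ} (hw : w n = w 0)
    (hs : ∀ i j, i + 1 < j → j + 1 ≤ n → ¬ (i = 0 ∧ j + 1 = n) →
      Disjoint (segment ℝ (w i) (w (i + 1))) (segment ℝ (w j) (w (j + 1))))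
    (hc : ∀ i, i + 2 ≤ n → (0 : ℂ) ∉ segment ℝ (w (i + 1) - w i) (w (i + 2) - w (i + 1)))
    (hc0 : (0 : ℂ) ∉ segment ℝ (w n - w (n - 1)) (w 1 - w 0))
    (hx : ∀ j, 0 < j → j < n → upp (w j - w 0)) :
    (∑ i ∈ Finset.range (n - 1), tn (w (i + 1) - w i) (w (i + 2) - w (i + 1))) +
        tn (w n - w (n - 1)) (w 1 - w 0) = 2 * π ∨
    (∑ i ∈ Finset.range (n - 1), tn (w (i + 1) - w i) (w (i + 2) - w (i + 1))) +
        tn (w n - w (n - 1)) (w 1 - w 0) = -(2 * π) := by
  set R : ℕ → ℝ := fun i => ∑ k ∈ Finset.range i, tn (w (k + 1) - w k) (w (k + 2) - w (k + 1))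
    with hR
  set H : ℕ → ℕ → ℝ := fun i j => tn (w j - w i) (w (j + 1) - w i) with hH
  set Vt : ℕ → ℕ → ℝ := fun i j => tn (w j - w i) (w j - w (i + 1)) with hVt
  -- the lifted argument along row `i`
  set U : ℕ → ℕ → ℝ := fun i j => R i + ∑ k ∈ Finset.Ico (i + 1) j, H i k with hU
  have hR1 : ∀ i, R (i + 1) = R i + tn (w (i + 1) - w i) (w (i + 2) - w (i + 1)) := by
    intro i; simp only [hR]; rw [Finset.sum_range_succ]
  have hU0 : ∀ i, U i (i + 1) = R i := by intro i; simp [hU]
  have hU1 : ∀ i j, i + 1 ≤ j → U i (j + 1) = U i j + H i j := by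
    intro i j hij; simp only [hU]; rw [Finset.sum_Ico_succ_top hij]; ring
  have tri : ∀ i, i + 2 ≤ n → H i (i + 1) + Vt i (i + 2) =
      tn (w (i + 1) - w i) (w (i + 2) - w (i + 1)) := by
    intro i hi
    obtain ⟨u, h1, h2, h3⟩ := hp_corner (hc i hi)
    have e : w (i + 1) - w i + (w (i + 2) - w (i + 1)) = w (i + 2) - w i := by ring
    rw [e] at h3
    exact tn_add h1 h3 h2
  have rect : ∀ i j, i + 1 < j → j + 1 ≤ n → ¬ (i = 0 ∧ j + 1 = n) →
      H i j + Vt i (j + 1) = Vt i j + H (i + 1) j := by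
    intro i j h1 h2 h3
    obtain ⟨u, u1, u2, u3, u4⟩ := hp_of_disjoint (hs i j h1 h2 h3)
    rw [show H i j + Vt i (j + 1) = tn (w j - w i) (w (j + 1) - w (i + 1)) from tn_add u1 u3 u4,
      show Vt i j + H (i + 1) j = tn (w j - w i) (w (j + 1) - w (i + 1)) from tn_add u1 u2 u4]
  have key : ∀ i j, i + 2 ≤ j → j ≤ n → ¬ (i = 0 ∧ j = n) → U i j + Vt i j = U (i + 1) j := by
    intro i j hij
    induction j, hij using Nat.le_induction with
    | base =>
      intro h1 _
      rw [hU1 i (i + 1) (le_refl _), hU0, add_assoc, tri i h1, ← hR1, ← hU0 (i + 1)]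
    | succ j hj ih =>
      intro h1 h2
      rw [hU1 i j (by omega), hU1 (i + 1) j (by omega), add_assoc, rect i j (by omega) h1 h2,
        ← add_assoc, ih (by omega) (by omega)]
  obtain ⟨m, rfl⟩ : ∃ m, n = m + 3 := ⟨n - 3, by omega⟩
  have en : m + 3 - 1 = m + 2 := by omega
  rw [en] at hc0 ⊢
  -- row 0
  have row0 : ∀ j, j ≤ m + 1 → U 0 (j + 1) = (w (j + 1) - w 0).arg - (w 1 - w 0).arg := by
    intro j
    induction j with
    | zero => intro _; rw [hU0]; simp [hR]
    | succ j ih =>
      intro hj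
      rw [hU1 0 (j + 1) (by omega), ih (by omega)]
      rw [show H 0 (j + 1) = _ from tn_upp (hx (j + 1) (by omega) (by omega))
        (hx (j + 1 + 1) (by omega) (by omega))]
      ring
  -- the last column
  have col : ∀ i, i ≤ m + 1 → U (i + 1) (m + 3) =
      U 1 (m + 3) + ((w (i + 1) - w 0).arg - (w 1 - w 0).arg) := by
    intro i
    induction i with
    | zero => intro _; ring
    | succ i ih =>
      intro hi
      rw [← key (i + 1) (m + 3) (by omega) (le_refl _) (by omega), ih (by omega)]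
      have : Vt (i + 1) (m + 3) = (w (i + 2) - w 0).arg - (w (i + 1) - w 0).arg := by
        show tn (w (m + 3) - w (i + 1)) (w (m + 3) - w (i + 2)) = _
        rw [hw, ← tn_upp (hx (i + 1) (by omega) (by omega)) (hx (i + 2) (by omega) (by omega)),
          ← tn_neg, neg_sub, neg_sub]
      rw [this]
      ring
  have h1 := col (m + 1) (le_refl _)
  have h2 := key 0 (m + 2) (by omega) (by omega) (by omega)
  have h3 := hU1 1 (m + 2) (by omega)
  have h4 := row0 (m + 1) (le_refl _)
  -- the corner at `w 0`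
  obtain ⟨u, u1, u2, u3⟩ := hp_corner hc0
  have h5 : Vt 0 (m + 2) + H 1 (m + 2) = tn (w (m + 3) - w (m + 2)) (w 1 - w 0) := by
    have a1 : w (m + 2) - w 0 = -(w (m + 3) - w (m + 2)) := by rw [hw]; ring
    have a2 : w (m + 2) - w 1 = -(w (m + 3) - w (m + 2) + (w 1 - w 0)) := by rw [hw]; ring
    have a3 : w (m + 3) - w 1 = -(w 1 - w 0) := by rw [hw]; ring
    show tn (w (m + 2) - w 0) (w (m + 2) - w (0 + 1)) +
      tn (w (m + 2) - w 1) (w (m + 2 + 1) - w 1) = _
    rw [zero_add, show m + 2 + 1 = m + 3 from rfl, a1, a2, a3, tn_neg, tn_neg]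
    exact tn_add u1 u3 u2
  have hR2 : R (m + 2) = U (m + 2) (m + 3) := (hU0 (m + 2)).symm
  have hT : R (m + 2) = 2 * ((w (m + 2) - w 0).arg - (w 1 - w 0).arg) +
      tn (w (m + 3) - w (m + 2)) (w 1 - w 0) := by
    rw [hR2]
    have e1 : m + 1 + 1 = m + 2 := rfl
    rw [e1] at h1 h4
    have e2 : m + 2 + 1 = m + 3 := rfl
    rw [e2] at h3
    rw [h1, h3, ← h5, ← h2, h4]
    ring
  show R (m + 2) + _ = _ ∨ R (m + 2) + _ = _
  rw [hT]
  -- the last angle
  have p1 := hx (m + 2) (by omega) (by omega)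
  have p2 := hx 1 (by omega) (by omega)
  have q1 := p1.arg
  have q2 := p2.arg
  have ht := tn_upp p1 p2
  have e3 : w (m + 3) - w (m + 2) = -(w (m + 2) - w 0) := by rw [hw]; ring
  have hq : tn (w (m + 3) - w (m + 2)) (w 1 - w 0) =
      (-((w 1 - w 0) / (w (m + 2) - w 0))).arg := by
    unfold tn; rw [e3, div_neg]
  set q := (w 1 - w 0) / (w (m + 2) - w 0) with hqd
  have hqa : q.arg = (w 1 - w 0).arg - (w (m + 2) - w 0).arg := ht
  have hsin : Real.sin q.arg = q.im / ‖q‖ := Complex.sin_arg q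
  have hq0 : 0 < ‖q‖ := norm_pos_iff.2 (div_ne_zero p2.ne p1.ne)
  rcases lt_trichotomy q.arg 0 with hlt | heq | hgt
  · left
    have him : q.im < 0 := by
      have h6 : Real.sin q.arg < 0 := Real.sin_neg_of_neg_of_neg_pi_lt hlt (by rw [hqa]; linarith)
      rw [hsin] at h6
      by_contra hcon
      exact absurd (div_nonneg (not_lt.1 hcon) hq0.le) (not_le.2 h6)
    rw [hq, Complex.arg_neg_eq_arg_add_pi_of_im_neg him, hqa]
    ring
  · exfalso
    rw [Complex.arg_eq_zero_iff] at heq
    apply hc0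
    have hqr : q = (q.re : ℂ) := Complex.ext rfl (by rw [heq.2]; simp)
    have hr : 0 < q.re := by
      rcases eq_or_lt_of_le heq.1 with h | h
      · exfalso
        have : q = 0 := by rw [hqr, ← h]; simp
        rw [this] at hq0
        simp at hq0
      · exact h
    have hw1 : w 1 - w 0 = (q.re : ℂ) * (w (m + 2) - w 0) := by
      rw [← hqr, hqd, div_mul_cancel₀ _ p1.ne]
    refine ⟨q.re / (q.re + 1), 1 / (q.re + 1), by positivity, by positivity, by field_simp, ?_⟩
    rw [Complex.real_smul, Complex.real_smul, e3, hw1]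
    push_cast
    have : (q.re : ℂ) + 1 ≠ 0 := by exact_mod_cast (by linarith : q.re + 1 ≠ 0)
    field_simp
    ring
  · right
    have him : 0 < q.im := by
      have h6 : 0 < Real.sin q.arg := Real.sin_pos_of_pos_of_lt_pi hgt (by rw [hqa]; linarith)
      rw [hsin] at h6
      by_contra hcon
      exact absurd (div_nonpos_of_nonpos_of_nonneg (not_lt.1 hcon) hq0.le) (not_le.2 h6)
    rw [hq, Complex.arg_neg_eq_arg_sub_pi_of_im_pos him, hqa]
    ring

end Pool.Agent.MP33

end

section

/-!
# Exact arithmetic with angles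
-/

set_option autoImplicit false

namespace Pool.Agent.MP33

open Real

/-- Numbers `m * π + ρ`, `0 ≤ ρ < π`, represented by `m` and a vector with direction `ρ`. -/
abbrev AN := ℕ × ℝ × ℝ

/-- `x` represents the angle `θ`. -/
def Rep (x : AN) (θ : ℝ) : Prop :=
  ∃ ρ t : ℝ, 0 ≤ ρ ∧ ρ < π ∧ 0 < t ∧ θ = x.1 * π + ρ ∧ x.2.1 = t * cos ρ ∧ x.2.2 = t * sin ρ

open Classical in
/-- Normalise `(m, c, s)` where `(c, s)` has direction in `[0, 2 π)`. -/
noncomputable def normAN (m : ℕ) (c s : ℝ) : AN :=
  if s < 0 ∨ (¬ 0 < s ∧ c < 0) then (m + 1, -c, -s) else (m, c, s)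

/-- Addition of angles. -/
noncomputable def addAN (x y : AN) : AN :=
  normAN (x.1 + y.1) (x.2.1 * y.2.1 - x.2.2 * y.2.2) (x.2.1 * y.2.2 + x.2.2 * y.2.1)

open Classical in
/-- Comparison of angles. -/
noncomputable def leAN (x y : AN) : Bool :=
  decide (x.1 < y.1) || (decide (x.1 = y.1) && ! decide (x.2.1 * y.2.2 - x.2.2 * y.2.1 < 0))

/-- Representation of the counterclockwise angle from `a` to `b`. -/
noncomputable def vecAN (a b : ℂ) : AN :=
  normAN 0 (a.re * b.re + a.im * b.im) (a.re * b.im - a.im * b.re)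

end Pool.Agent.MP33

end

section

/-!
# Exact arithmetic with angles: the lemmas
-/

set_option autoImplicit false

namespace Pool.Agent.MP33

open Real

theorem normAN_rep (m : ℕ) {φ t c s : ℝ} (h0 : 0 ≤ φ) (h1 : φ < 2 * π) (ht : 0 < t)
    (hc : c = t * cos φ) (hs : s = t * sin φ) : Rep (normAN m c s) (m * π + φ) := by
  by_cases hφ : φ < π
  · have hsin : 0 ≤ sin φ := sin_nonneg_of_nonneg_of_le_pi h0 hφ.le
    have hcond : ¬ (s < 0 ∨ (¬ 0 < s ∧ c < 0)) := by
      rintro (h | ⟨h, h'⟩)
      · rw [hs] at h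
        have := mul_nonneg ht.le hsin
        linarith
      · rcases h0.eq_or_lt with h00 | h00
        · rw [hc, ← h00, cos_zero] at h'
          linarith
        · apply h
          rw [hs]
          exact mul_pos ht (sin_pos_of_pos_of_lt_pi h00 hφ)
    refine ⟨φ, t, h0, hφ, ht, ?_, ?_, ?_⟩
    · rw [normAN, if_neg hcond]
    · rw [normAN, if_neg hcond]
      exact hc
    · rw [normAN, if_neg hcond]
      exact hs
  · push Not at hφ
    have hφ0 : 0 ≤ φ - π := by linarith
    have hφ1 : φ - π < π := by linarith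
    have e1 : sin φ = - sin (φ - π) := by rw [sin_sub_pi]; ring
    have e2 : cos φ = - cos (φ - π) := by rw [cos_sub_pi]; ring
    have hcond : s < 0 ∨ (¬ 0 < s ∧ c < 0) := by
      rcases hφ0.eq_or_lt with h00 | h00
      · right
        rw [hs, hc, e1, e2, ← h00, sin_zero, cos_zero]
        constructor
        · simp
        · linarith
      · left
        rw [hs, e1]
        have := mul_pos ht (sin_pos_of_pos_of_lt_pi h00 hφ1)
        linarith
    refine ⟨φ - π, t, hφ0, hφ1, ht, ?_, ?_, ?_⟩
    · rw [normAN, if_pos hcond]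
      push_cast
      ring
    · rw [normAN, if_pos hcond]
      show -c = _
      rw [hc, e2]
      ring
    · rw [normAN, if_pos hcond]
      show -s = _
      rw [hs, e1]
      ring

theorem Rep.add {x y : AN} {θ η : ℝ} (hx : Rep x θ) (hy : Rep y η) :
    Rep (addAN x y) (θ + η) := by
  obtain ⟨ρ, t, h0, h1, ht, e, hc, hs⟩ := hx
  obtain ⟨ρ', t', h0', h1', ht', e', hc', hs'⟩ := hy
  have h := normAN_rep (x.1 + y.1) (φ := ρ + ρ') (t := t * t')
    (c := x.2.1 * y.2.1 - x.2.2 * y.2.2) (s := x.2.1 * y.2.2 + x.2.2 * y.2.1)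
    (by linarith) (by linarith) (mul_pos ht ht')
    (by rw [hc, hs, hc', hs', cos_add]; ring) (by rw [hc, hs, hc', hs', sin_add]; ring)
  have e2 : ((x.1 + y.1 : ℕ) : ℝ) * π + (ρ + ρ') = θ + η := by
    rw [e, e']
    push_cast
    ring
  rw [e2] at h
  exact h

theorem Rep.le_iff {x y : AN} {θ η : ℝ} (hx : Rep x θ) (hy : Rep y η) :
    leAN x y = true ↔ θ ≤ η := by
  obtain ⟨ρ, t, h0, h1, ht, e, hc, hs⟩ := hx
  obtain ⟨ρ', t', h0', h1', ht', e', hc', hs'⟩ := hy
  have hpi := pi_pos
  have key : x.2.1 * y.2.2 - x.2.2 * y.2.1 = (t * t') * sin (ρ' - ρ) := by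
    rw [hc, hs, hc', hs', sin_sub]
    ring
  have htt : 0 < t * t' := mul_pos ht ht'
  have key2 : x.2.1 * y.2.2 - x.2.2 * y.2.1 < 0 ↔ ρ' < ρ := by
    rw [key]
    constructor
    · intro h
      by_contra hlt
      push Not at hlt
      have := sin_nonneg_of_nonneg_of_le_pi (x := ρ' - ρ) (by linarith) (by linarith)
      have := mul_nonneg htt.le this
      linarith
    · intro h
      have := sin_pos_of_pos_of_lt_pi (x := ρ - ρ') (by linarith) (by linarith)
      have h2 : sin (ρ' - ρ) = - sin (ρ - ρ') := by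
        rw [← sin_neg]
        congr 1
        ring
      rw [h2]
      have := mul_pos htt this
      linarith
  simp only [leAN, Bool.or_eq_true, Bool.and_eq_true, decide_eq_true_eq, Bool.not_eq_true',
    decide_eq_false_iff_not]
  rw [key2, e, e']
  constructor
  · rintro (h | ⟨h, h'⟩)
    · have : (x.1 : ℝ) + 1 ≤ y.1 := by exact_mod_cast h
      nlinarith
    · rw [h]
      push Not at h'
      linarith
  · intro h
    rcases lt_trichotomy x.1 y.1 with h2 | h2 | h2
    · exact Or.inl h2
    · refine Or.inr ⟨h2, ?_⟩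
      rw [h2] at h
      push Not
      linarith
    · exfalso
      have : (y.1 : ℝ) + 1 ≤ x.1 := by exact_mod_cast h2
      nlinarith

theorem ccwAngle_nonneg (a b : ℂ) : 0 ≤ ccwAngle a b := by
  rw [ccwAngle]
  split_ifs with h
  · exact h
  · have := Complex.neg_pi_lt_arg (b / a)
    have := pi_pos
    linarith

theorem ccwAngle_lt (a b : ℂ) : ccwAngle a b < 2 * π := by
  rw [ccwAngle]
  split_ifs with h
  · have := Complex.arg_le_pi (b / a)
    have := pi_pos
    linarith
  · linarith

theorem Rep.vec {a b : ℂ} (ha : a ≠ 0) (hb : b ≠ 0) : Rep (vecAN a b) (ccwAngle a b) := by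
  have hab : b / a ≠ 0 := div_ne_zero hb ha
  have hn : 0 < Complex.normSq a := Complex.normSq_pos.mpr ha
  have ht : 0 < Complex.normSq a * ‖b / a‖ := mul_pos hn (norm_pos_iff.mpr hab)
  have hcos : cos (ccwAngle a b) = cos (b / a).arg := by
    rw [ccwAngle]
    split_ifs
    · rfl
    · rw [cos_add_two_pi]
  have hsin : sin (ccwAngle a b) = sin (b / a).arg := by
    rw [ccwAngle]
    split_ifs
    · rfl
    · rw [sin_add_two_pi]
  have h := normAN_rep 0 (φ := ccwAngle a b) (t := Complex.normSq a * ‖b / a‖)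
    (c := a.re * b.re + a.im * b.im) (s := a.re * b.im - a.im * b.re)
    (ccwAngle_nonneg a b) (ccwAngle_lt a b) ht
    (by
      rw [hcos, mul_assoc, Complex.norm_mul_cos_arg, Complex.div_re]
      field_simp)
    (by
      rw [hsin, mul_assoc, Complex.norm_mul_sin_arg, Complex.div_im]
      field_simp)
  simpa [vecAN] using h

theorem Rep.pi (m : ℕ) : Rep (m, 1, 0) (m * π) :=
  ⟨0, 1, le_rfl, pi_pos, one_pos, by simp, by simp, by simp⟩

theorem Rep.fst_le {x : AN} {θ : ℝ} (hx : Rep x θ) : (x.1 : ℝ) * π ≤ θ := by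
  obtain ⟨ρ, t, h0, h1, ht, e, hc, hs⟩ := hx
  linarith

theorem ccwAngle_pos {a b : ℂ} (ha : a ≠ 0) (hb : b ≠ 0) (h : ∀ t : ℝ, 0 < t → b ≠ t * a) :
    0 < ccwAngle a b := by
  rcases (ccwAngle_nonneg a b).eq_or_lt with h0 | h0
  · exfalso
    have harg : (b / a).arg = 0 := by
      rw [ccwAngle] at h0
      split_ifs at h0 with h1
      · exact h0.symm
      · have := Complex.neg_pi_lt_arg (b / a)
        have := pi_pos
        linarith
    have hab : b / a ≠ 0 := div_ne_zero hb ha
    apply h ‖b / a‖ (norm_pos_iff.mpr hab)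
    have h2 := Complex.norm_mul_exp_arg_mul_I (b / a)
    rw [harg] at h2
    simp only [Complex.ofReal_zero, zero_mul, Complex.exp_zero, mul_one] at h2
    rw [h2]
    field_simp
  · exact h0

end Pool.Agent.MP33

end

section

/-!
# Alexandrov gluings and recursively glued arcs
-/

set_option autoImplicit false

namespace Pool.Agent.MP33

open Real Finset

variable {D : PD ℝ}

theorem ang_vertex (hm : D.Mono) {i : ℕ} (hi : i ≤ D.n) : D.ang (D.v i) = D.al i := by
  have h : ∃ j, j ≤ D.n ∧ D.v j = D.v i := ⟨i, hi, rfl⟩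
  rw [PD.ang, dif_pos h]
  have h1 := h.choose_spec
  congr 1
  by_contra hne
  rcases lt_or_gt_of_ne hne with hlt | hgt
  · exact absurd h1.2 (hm _ _ hlt hi).ne
  · exact absurd h1.2 (hm _ _ hgt h1.1).ne'

theorem ang_nonneg_of (h0 : ∀ i < D.n, 0 < D.al i) (hlast : D.al D.n = 0) (x : ℝ) :
    0 ≤ D.ang x := by
  rw [PD.ang]
  split_ifs with h
  · have h1 := h.choose_spec
    rcases h1.1.lt_or_eq with h2 | h2
    · exact (h0 _ h2).le
    · rw [h2, hlast]
  · exact pi_pos.le

section forward

variable (g : PlanarGluing D)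

theorem PlanarGluing.b_mono {i j : ℕ} (hij : i < j) (hj : j ≤ g.m) : g.b i < g.b j := by
  induction j, hij using Nat.le_induction with
  | base => exact g.b_lt i (by omega)
  | succ k hk ih => exact (ih (by omega)).trans (g.b_lt k (by omega))

theorem PlanarGluing.flat {k : ℕ} (hk : k < g.m) : D.flat (g.b k) (g.b (k + 1)) := by
  intro i hi
  obtain ⟨l, hl, hbl⟩ := g.vert i hi
  rw [← hbl]
  rcases Nat.lt_or_ge k l with h | h
  · right
    rcases (Nat.succ_le_of_lt h).lt_or_eq with h' | h'
    · exact (g.b_mono h' hl).le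
    · rw [← h']
  · left
    rcases h.lt_or_eq with h' | h'
    · exact (g.b_mono h' hk.le).le
    · rw [h']

theorem PlanarGluing.nd (h0 : ∀ i < D.n, 0 < D.al i) (hlast : D.al D.n = 0) (hg : g.IsAlexandrov)
    (N : ℕ) : ∀ i j : ℕ, i ≤ j → j ≤ g.m → j - i ≤ N →
      (∀ x, i ≤ x → x < j → i ≤ g.mu x ∧ g.mu x < j) →
      ∃ T : Finset ℕ, (∀ x ∈ T, i ≤ x ∧ x ≤ j) ∧ j ∈ T ∧
        (∀ x ∈ T, Relation.EqvGen g.Rel (i % g.m) (x % g.m)) ∧
        Nd D (g.b i) (g.b j) (∑ x ∈ T, D.ang (g.b x)) := by
  classical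
  induction N using Nat.strong_induction_on with
  | _ N ih =>
    intro i j hij hjm hN hcl
    rcases hij.eq_or_lt with rfl | hlt
    · refine ⟨{i}, ?_, by simp, ?_, ?_⟩
      · intro x hx; rw [mem_singleton] at hx; omega
      · intro x hx; rw [mem_singleton] at hx; rw [hx]; exact Relation.EqvGen.refl _
      · rw [sum_singleton]; exact Nd.single _
    · obtain ⟨k, hk⟩ : ∃ k, k = g.mu (j - 1) := ⟨_, rfl⟩
      have hj1 : j - 1 < g.m := by omega
      have hkr := hcl (j - 1) (by omega) (by omega)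
      rw [← hk] at hkr
      have hmk : g.mu k = j - 1 := by rw [hk]; exact g.mu_mu _ hj1
      have hkne : k ≠ j - 1 := by rw [hk]; exact g.mu_ne _ hj1
      have hkm : k < g.m := by omega
      have hpl : ∀ x, k < x → x < j - 1 → k < g.mu x ∧ g.mu x < j - 1 := by
        intro x hx1 hx2
        have := g.planar k x hx1 (by rw [hmk]; exact hx2) (by rw [hmk]; exact hj1)
        rw [hmk] at this
        exact this
      -- the part before `k`
      obtain ⟨T1, hT1, hkT1, hE1, hN1⟩ := ih (k - i) (by omega) i k hkr.1 hkm.le le_rfl (by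
        intro x hx1 hx2
        have h1 := hcl x hx1 (by omega)
        refine ⟨h1.1, ?_⟩
        by_contra hcon
        rcases Nat.lt_or_ge (g.mu x) (j - 1) with h2 | h2
        · rcases (Nat.le_of_not_lt hcon).eq_or_lt with h3 | h3
          · have h4 := g.mu_mu x (by omega)
            rw [← h3, hmk] at h4
            omega
          · have h4 := hpl _ h3 h2
            rw [g.mu_mu x (by omega)] at h4
            omega
        · have h3 : g.mu x = j - 1 := by omega
          have h4 := g.mu_mu x (by omega)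
          rw [h3, ← hk] at h4
          omega)
      -- the inner part
      obtain ⟨T2, hT2, hkT2, hE2, hN2⟩ := ih (j - 1 - (k + 1)) (by omega) (k + 1) (j - 1)
        (by omega) hj1.le le_rfl (by
          intro x hx1 hx2
          have := hpl x (by omega) hx2
          omega)
      have hsum2 : ∑ x ∈ T2, D.ang (g.b x) ≤ 2 * π := by
        have h1 := hg (k + 1) (by omega)
        refine le_trans ?_ h1
        rw [PlanarGluing.angleSum]
        apply sum_le_sum_of_subset_of_nonneg
        · intro x hx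
          have h2 := hT2 x hx
          have h3 := hE2 x hx
          rw [Nat.mod_eq_of_lt (by omega : k + 1 < g.m), Nat.mod_eq_of_lt (by omega : x < g.m)]
            at h3
          rw [mem_filter, mem_range]
          exact ⟨by omega, h3⟩
        · intro x _ _
          exact ang_nonneg_of h0 hlast _
      have hs : 0 < g.b (k + 1) - g.b k := sub_pos.mpr (g.b_lt k hkm)
      have hlen := g.len k hkm
      rw [hmk] at hlen
      have hj' : j - 1 + 1 = j := by omega
      rw [hj'] at hlen
      have e1 : g.b k + (g.b (k + 1) - g.b k) = g.b (k + 1) := by ring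
      have e2 : g.b (j - 1) + (g.b (k + 1) - g.b k) = g.b j := by rw [hlen]; ring
      have hfl1 := g.flat hkm
      have hfl2 := g.flat hj1
      rw [hj'] at hfl2
      have hnd := Nd.snoc (D := D) (s := g.b (k + 1) - g.b k) hN1 hs (by rw [e1]; exact hfl1)
        (by rw [e1]; exact hN2) hsum2 (by rw [e2]; exact hfl2)
      rw [e2] at hnd
      refine ⟨insert j T1, ?_, mem_insert_self _ _, ?_, ?_⟩
      · intro x hx
        rw [mem_insert] at hx
        rcases hx with rfl | hx
        · omega
        · have := hT1 x hx; omega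
      · intro x hx
        rw [mem_insert] at hx
        rcases hx with rfl | hx
        · have h1 : g.Rel (x % g.m) k := ⟨x - 1, hj1, by rw [hj'], hk⟩
          have h2 := hE1 k hkT1
          rw [Nat.mod_eq_of_lt hkm] at h2
          exact h2.trans _ _ _ (Relation.EqvGen.symm _ _ (Relation.EqvGen.rel _ _ h1))
        · exact hE1 x hx
      · rw [sum_insert, add_comm]
        · exact hnd
        · intro hjT
          have := hT1 j hjT
          omega

end forward

/-- a glued arc, written out -/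
structure PG (D : PD ℝ) (p q θ : ℝ) where
  m : ℕ
  b : ℕ → ℝ
  mu : ℕ → ℕ
  lab : ℕ → ℕ
  b0 : b 0 = p
  bm : b m = q
  blt : ∀ i < m, b i < b (i + 1)
  fl : ∀ i < m, D.flat (b i) (b (i + 1))
  mu_lt : ∀ i < m, mu i < m
  mu_mu : ∀ i < m, mu (mu i) = i
  mu_ne : ∀ i < m, mu i ≠ i
  len : ∀ i < m, b (i + 1) - b i = b (mu i + 1) - b (mu i)
  planar : ∀ i j, i < j → j < mu i → mu i < m → i < mu j ∧ mu j < mu i
  lab0 : lab 0 = 0
  labm : lab m = 0
  labg : ∀ i < m, lab (i + 1) = lab (mu i)
  sum0 : (∑ x ∈ range (m + 1), if lab x = 0 then D.ang (b x) else 0) = θ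
  sumc : ∀ c, c ≠ 0 → (∑ x ∈ range (m + 1), if lab x = c then D.ang (b x) else 0) ≤ 2 * π

def PG.single (D : PD ℝ) (p : ℝ) : PG D p p (D.ang p) where
  m := 0
  b := fun _ => p
  mu := fun _ => 0
  lab := fun _ => 0
  b0 := rfl
  bm := rfl
  blt := fun i hi => absurd hi (Nat.not_lt_zero i)
  fl := fun i hi => absurd hi (Nat.not_lt_zero i)
  mu_lt := fun i hi => absurd hi (Nat.not_lt_zero i)
  mu_mu := fun i hi => absurd hi (Nat.not_lt_zero i)
  mu_ne := fun i hi => absurd hi (Nat.not_lt_zero i)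
  len := fun i hi => absurd hi (Nat.not_lt_zero i)
  planar := fun i j _ _ h => absurd h (Nat.not_lt_zero _)
  lab0 := rfl
  labm := rfl
  labg := fun i hi => absurd hi (Nat.not_lt_zero i)
  sum0 := by simp
  sumc := fun c hc => by
    simp only [zero_add, range_one, sum_singleton, if_neg hc.symm]
    positivity

theorem PG.snoc {p q s r θ θ' : ℝ} (P : PG D p q θ) (hs : 0 < s) (hf1 : D.flat q (q + s))
    (R : PG D (q + s) r θ') (hθ' : θ' ≤ 2 * π) (hf2 : D.flat r (r + s)) :
    Nonempty (PG D p (r + s) (θ + D.ang (r + s))) := by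
  obtain ⟨m1, b1, mu1, lab1, b10, b1m, b1lt, fl1, mu1_lt, mu1_mu, mu1_ne, len1, planar1, lab10,
    lab1m, labg1, sum10, sum1c⟩ := P
  obtain ⟨m2, b2, mu2, lab2, b20, b2m, b2lt, fl2, mu2_lt, mu2_mu, mu2_ne, len2, planar2, lab20,
    lab2m, labg2, sum20, sum2c⟩ := R
  set b : ℕ → ℝ := fun i => if i ≤ m1 then b1 i else if i ≤ m1 + 1 + m2 then b2 (i - (m1 + 1))
    else r + s with hb
  set mu : ℕ → ℕ := fun i => if i < m1 then mu1 i else if i = m1 then m1 + 1 + m2
    else if i < m1 + 1 + m2 then mu2 (i - (m1 + 1)) + (m1 + 1) else m1 with hmu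
  set lab : ℕ → ℕ := fun i => if i ≤ m1 then 2 * lab1 i else if i ≤ m1 + 1 + m2 then
    2 * lab2 (i - (m1 + 1)) + 1 else 0 with hlab
  have hbA : ∀ i, i ≤ m1 → b i = b1 i := fun i hi => by simp only [hb, if_pos hi]
  have hbB : ∀ i, i ≤ m2 → b (m1 + 1 + i) = b2 i := fun i hi => by
    simp only [hb]
    rw [if_neg (by omega), if_pos (by omega)]
    congr 1; omega
  have hbC : b (m1 + 1 + m2 + 1) = r + s := by
    simp only [hb]
    rw [if_neg (by omega), if_neg (by omega)]
  have hmA : ∀ i, i < m1 → mu i = mu1 i := fun i hi => by simp only [hmu, if_pos hi]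
  have hmB : mu m1 = m1 + 1 + m2 := by simp only [hmu, lt_irrefl, if_false, if_true]
  have hmC : ∀ i, i < m2 → mu (m1 + 1 + i) = m1 + 1 + mu2 i := fun i hi => by
    simp only [hmu]
    rw [if_neg (by omega), if_neg (by omega), if_pos (by omega)]
    have : m1 + 1 + i - (m1 + 1) = i := by omega
    rw [this]; omega
  have hmD : mu (m1 + 1 + m2) = m1 := by
    simp only [hmu]
    rw [if_neg (by omega), if_neg (by omega), if_neg (by omega)]
  have hlA : ∀ i, i ≤ m1 → lab i = 2 * lab1 i := fun i hi => by simp only [hlab, if_pos hi]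
  have hlB : ∀ i, i ≤ m2 → lab (m1 + 1 + i) = 2 * lab2 i + 1 := fun i hi => by
    simp only [hlab]
    rw [if_neg (by omega), if_pos (by omega)]
    have : m1 + 1 + i - (m1 + 1) = i := by omega
    rw [this]
  have hlC : lab (m1 + 1 + m2 + 1) = 0 := by
    simp only [hlab]
    rw [if_neg (by omega), if_neg (by omega)]
  have hcases : ∀ i, i < m1 + 1 + m2 + 1 → (i < m1) ∨ (i = m1) ∨ (∃ k, k < m2 ∧ i = m1 + 1 + k) ∨
      (i = m1 + 1 + m2) := by
    intro i hi
    rcases lt_trichotomy i m1 with h | h | h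
    · exact Or.inl h
    · exact Or.inr (Or.inl h)
    · by_cases h2 : i = m1 + 1 + m2
      · exact Or.inr (Or.inr (Or.inr h2))
      · exact Or.inr (Or.inr (Or.inl ⟨i - (m1 + 1), by omega, by omega⟩))
  have hsplit : ∀ f : ℕ → ℝ, ∑ x ∈ range (m1 + 1 + m2 + 1 + 1), f x =
      ∑ x ∈ range (m1 + 1), f x + ∑ x ∈ range (m2 + 1), f (m1 + 1 + x) + f (m1 + 1 + m2 + 1) := by
    intro f
    rw [sum_range_succ]
    congr 1
    rw [show m1 + 1 + m2 + 1 = (m1 + 1) + (m2 + 1) by ring, Finset.sum_range_add]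
  refine ⟨⟨m1 + 1 + m2 + 1, b, mu, lab, ?_, ?_, ?_, ?_, ?_, ?_, ?_, ?_, ?_, ?_, ?_, ?_, ?_, ?_⟩⟩
  · rw [hbA 0 (Nat.zero_le _), b10]
  · exact hbC
  · intro i hi
    rcases hcases i hi with h | h | ⟨k, hk, h⟩ | h
    · rw [hbA i h.le, hbA (i + 1) h]; exact b1lt i h
    · rw [h, hbA m1 le_rfl, b1m, show m1 + 1 = m1 + 1 + 0 from rfl, hbB 0 (Nat.zero_le _), b20]
      linarith
    · rw [h, hbB k hk.le, add_assoc (m1 + 1) k 1, hbB (k + 1) hk]; exact b2lt k hk
    · rw [h, hbC, hbB m2 le_rfl, b2m]; linarith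
  · intro i hi
    rcases hcases i hi with h | h | ⟨k, hk, h⟩ | h
    · rw [hbA i h.le, hbA (i + 1) h]; exact fl1 i h
    · rw [h, hbA m1 le_rfl, b1m, show m1 + 1 = m1 + 1 + 0 from rfl, hbB 0 (Nat.zero_le _), b20]
      exact hf1
    · rw [h, hbB k hk.le, add_assoc (m1 + 1) k 1, hbB (k + 1) hk]; exact fl2 k hk
    · rw [h, hbC, hbB m2 le_rfl, b2m]; exact hf2
  · intro i hi
    rcases hcases i hi with h | h | ⟨k, hk, h⟩ | h
    · rw [hmA i h]; have := mu1_lt i h; omega
    · rw [h, hmB]; omega
    · rw [h, hmC k hk]; have := mu2_lt k hk; omega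
    · rw [h, hmD]; omega
  · intro i hi
    rcases hcases i hi with h | h | ⟨k, hk, h⟩ | h
    · rw [hmA i h, hmA _ (mu1_lt i h)]; exact mu1_mu i h
    · rw [h, hmB, hmD]
    · rw [h, hmC k hk, hmC _ (mu2_lt k hk), mu2_mu k hk]
    · rw [h, hmD, hmB]
  · intro i hi
    rcases hcases i hi with h | h | ⟨k, hk, h⟩ | h
    · rw [hmA i h]; exact mu1_ne i h
    · rw [h, hmB]; omega
    · rw [h, hmC k hk]; have := mu2_ne k hk; omega
    · rw [h, hmD]; omega
  · intro i hi
    rcases hcases i hi with h | h | ⟨k, hk, h⟩ | h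
    · have h1 := mu1_lt i h
      rw [hmA i h, hbA i h.le, hbA (i + 1) h, hbA _ h1, hbA _ h1.le]
      exact len1 i h
    · rw [h, hmB, hbC, hbB m2 le_rfl, hbA m1 le_rfl, show m1 + 1 = m1 + 1 + 0 from rfl,
        hbB 0 (Nat.zero_le _), b20, b1m, b2m]
      ring
    · have h1 := mu2_lt k hk
      rw [h, hmC k hk, hbB k hk.le, add_assoc (m1 + 1) k 1, hbB (k + 1) hk,
        add_assoc (m1 + 1) (mu2 k) 1, hbB _ h1, hbB _ h1.le]
      exact len2 k hk
    · rw [h, hmD, hbC, hbB m2 le_rfl, hbA m1 le_rfl, show m1 + 1 = m1 + 1 + 0 from rfl,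
        hbB 0 (Nat.zero_le _), b20, b1m, b2m]
      ring
  · intro i j hij hj him
    rcases hcases i (by omega) with h | h | ⟨k, hk, h⟩ | h
    · have h1 := mu1_lt i h
      rw [hmA i h] at hj ⊢
      rw [hmA j (by omega)]
      exact planar1 i j hij hj h1
    · rw [h, hmB] at hj
      rw [h, hmB]
      rw [h] at hij
      obtain ⟨l, rfl⟩ : ∃ l, j = m1 + 1 + l := ⟨j - (m1 + 1), by omega⟩
      rw [hmC l (by omega)]
      have := mu2_lt l (by omega)
      omega
    · have h1 := mu2_lt k hk
      rw [h, hmC k hk] at hj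
      rw [h] at hij
      obtain ⟨l, rfl⟩ : ∃ l, j = m1 + 1 + l := ⟨j - (m1 + 1), by omega⟩
      rw [h, hmC k hk, hmC l (by omega)]
      have := planar2 k l (by omega) (by omega) h1
      omega
    · rw [h, hmD] at hj
      omega
  · rw [hlA 0 (Nat.zero_le _), lab10]
  · exact hlC
  · intro i hi
    rcases hcases i hi with h | h | ⟨k, hk, h⟩ | h
    · have h1 := mu1_lt i h
      rw [hmA i h, hlA _ h1.le, hlA (i + 1) h, labg1 i h]
    · rw [h, hmB, hlB m2 le_rfl, show m1 + 1 = m1 + 1 + 0 from rfl, hlB 0 (Nat.zero_le _), lab20,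
        lab2m]
    · have h1 := mu2_lt k hk
      rw [h, hmC k hk, hlB _ h1.le, add_assoc (m1 + 1) k 1, hlB (k + 1) hk, labg2 k hk]
    · rw [h, hmD, hlC, hlA m1 le_rfl, lab1m]
  · rw [hsplit, hlC, if_pos rfl, hbC]
    congr 1
    rw [← sum10]
    have h2 : ∑ x ∈ range (m2 + 1), (if lab (m1 + 1 + x) = 0 then D.ang (b (m1 + 1 + x)) else 0) =
        0 := by
      apply sum_eq_zero
      intro x hx
      rw [mem_range] at hx
      rw [hlB x (by omega), if_neg (by omega)]
    rw [h2, add_zero]
    apply sum_congr rfl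
    intro x hx
    rw [mem_range] at hx
    rw [hlA x (by omega), hbA x (by omega)]
    by_cases h3 : lab1 x = 0
    · rw [if_pos h3, if_pos (by omega)]
    · rw [if_neg h3, if_neg (by omega)]
  · intro c hc
    rw [hsplit, hlC, if_neg hc.symm, add_zero]
    rcases Nat.even_or_odd' c with ⟨c', hc' | hc'⟩
    · have h2 : ∑ x ∈ range (m2 + 1),
          (if lab (m1 + 1 + x) = c then D.ang (b (m1 + 1 + x)) else 0) = 0 := by
        apply sum_eq_zero
        intro x hx
        rw [mem_range] at hx
        rw [hlB x (by omega), if_neg (by omega)]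
      rw [h2, add_zero]
      refine le_trans (le_of_eq ?_) (sum1c c' (by omega))
      apply sum_congr rfl
      intro x hx
      rw [mem_range] at hx
      rw [hlA x (by omega), hbA x (by omega)]
      by_cases h3 : lab1 x = c'
      · rw [if_pos h3, if_pos (by omega)]
      · rw [if_neg h3, if_neg (by omega)]
    · have h2 : ∑ x ∈ range (m1 + 1), (if lab x = c then D.ang (b x) else 0) = 0 := by
        apply sum_eq_zero
        intro x hx
        rw [mem_range] at hx
        rw [hlA x (by omega), if_neg (by omega)]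
      rw [h2, zero_add]
      have h4 : (∑ x ∈ range (m2 + 1), if lab2 x = c' then D.ang (b2 x) else 0) ≤ 2 * π := by
        by_cases hc0 : c' = 0
        · rw [hc0, sum20]; exact hθ'
        · exact sum2c c' hc0
      refine le_trans (le_of_eq ?_) h4
      apply sum_congr rfl
      intro x hx
      rw [mem_range] at hx
      rw [hlB x (by omega), hbB x (by omega)]
      by_cases h3 : lab2 x = c'
      · rw [if_pos h3, if_pos (by omega)]
      · rw [if_neg h3, if_neg (by omega)]

theorem Nd.pg {p q θ : ℝ} (h : Nd D p q θ) : Nonempty (PG D p q θ) := by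
  induction h with
  | single p => exact ⟨PG.single D p⟩
  | snoc _ hs hf1 _ hθ' hf2 ih1 ih2 =>
    obtain ⟨P⟩ := ih1
    obtain ⟨R⟩ := ih2
    exact P.snoc hs hf1 R hθ' hf2

theorem gluing_iff (D : PD ℝ) (hn : 0 < D.n) (hm : D.Mono) (h0 : ∀ i < D.n, 0 < D.al i)
    (hlast : D.al D.n = 0) :
    (∃ g : PlanarGluing D, g.IsAlexandrov) ↔ ∃ θ ≤ 2 * π, Nd D (D.v 0) (D.v D.n) θ := by
  classical
  constructor
  · rintro ⟨g, hg⟩
    have hv : D.v 0 < D.v D.n := hm 0 D.n hn le_rfl
    have hm0 : 0 < g.m := by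
      rcases Nat.eq_zero_or_pos g.m with h | h
      · exfalso
        have h1 := g.b_zero
        have h2 := g.b_last
        rw [h] at h2
        rw [h1] at h2
        exact hv.ne h2
      · exact h
    obtain ⟨T, hT, hmT, hE, hnd⟩ := g.nd h0 hlast hg g.m 0 g.m (Nat.zero_le _) le_rfl (by omega)
      (fun x _ hx => ⟨Nat.zero_le _, g.mu_lt x hx⟩)
    refine ⟨_, ?_, by rw [← g.b_zero, ← g.b_last]; exact hnd⟩
    have h1 : ∑ x ∈ T, D.ang (g.b x) = ∑ x ∈ T.erase g.m, D.ang (g.b x) := by
      rw [← add_sum_erase T _ hmT, g.b_last, ang_vertex hm le_rfl, hlast, zero_add]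
    rw [h1]
    refine le_trans ?_ (hg 0 hm0)
    rw [PlanarGluing.angleSum]
    apply sum_le_sum_of_subset_of_nonneg
    · intro x hx
      rw [mem_erase] at hx
      have h2 := hT x hx.2
      have h3 := hE x hx.2
      have h4 : x < g.m := lt_of_le_of_ne h2.2 hx.1
      rw [Nat.zero_mod, Nat.mod_eq_of_lt h4] at h3
      rw [mem_filter, mem_range]
      exact ⟨h4, h3⟩
    · intro x _ _
      exact ang_nonneg_of h0 hlast _
  · rintro ⟨θ, hθ, hnd⟩
    obtain ⟨P⟩ := hnd.pg
    have hv : D.v 0 < D.v D.n := hm 0 D.n hn le_rfl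
    have hmono : ∀ i j, i < j → j ≤ P.m → P.b i < P.b j := by
      intro i j hij hj
      induction j, hij using Nat.le_induction with
      | base => exact P.blt i (by omega)
      | succ k hk ih => exact (ih (by omega)).trans (P.blt k (by omega))
    have hvert : ∀ k ≤ D.n, ∃ i ≤ P.m, P.b i = D.v k := by
      intro k hk
      have h1 : P.b 0 ≤ D.v k := by
        rw [P.b0]
        rcases Nat.eq_zero_or_pos k with h | h
        · rw [h]
        · exact (hm 0 k h hk).le
      have h2 : D.v k ≤ P.b P.m := by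
        rw [P.bm]
        rcases hk.eq_or_lt with h | h
        · rw [h]
        · exact (hm k D.n h le_rfl).le
      by_contra hcon
      push Not at hcon
      have h3 : ∀ i, i ≤ P.m → P.b i < D.v k := by
        intro i
        induction i with
        | zero => intro _; exact lt_of_le_of_ne h1 (hcon 0 (Nat.zero_le _))
        | succ i ih =>
          intro hi
          have h4 := ih (by omega)
          rcases P.fl i hi k hk with h5 | h5
          · linarith
          · exact lt_of_le_of_ne h5 (hcon (i + 1) hi)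
      have := h3 P.m le_rfl
      linarith
    refine ⟨⟨P.m, P.b, P.mu, P.b0, P.bm, P.blt, hvert, P.mu_lt, P.mu_mu, P.mu_ne, P.len,
      P.planar⟩, ?_⟩
    set g : PlanarGluing D := ⟨P.m, P.b, P.mu, P.b0, P.bm, P.blt, hvert, P.mu_lt, P.mu_mu, P.mu_ne,
      P.len, P.planar⟩ with hg
    have hlabrel : ∀ x y, Relation.EqvGen g.Rel x y → P.lab x = P.lab y := by
      intro x y hxy
      induction hxy with
      | rel x y h =>
        obtain ⟨i, hi, hx, hy⟩ := h
        change i < P.m at hi
        change x = (i + 1) % P.m at hx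
        change y = P.mu i at hy
        rw [hx, hy, ← P.labg i hi]
        rcases (Nat.succ_le_of_lt hi).eq_or_lt with h | h
        · have h' : i + 1 = P.m := h
          rw [h', Nat.mod_self, P.lab0, P.labm]
        · rw [Nat.mod_eq_of_lt h]
      | refl x => rfl
      | symm x y _ ih => exact ih.symm
      | trans x y z _ _ ih1 ih2 => exact ih1.trans ih2
    intro i hi
    rw [PlanarGluing.angleSum]
    have h1 : ∑ j ∈ range g.m with Relation.EqvGen g.Rel i j, D.ang (g.b j) ≤
        ∑ x ∈ range (P.m + 1), if P.lab x = P.lab i then D.ang (P.b x) else 0 := by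
      rw [← sum_filter]
      apply sum_le_sum_of_subset_of_nonneg
      · intro x hx
        rw [mem_filter, mem_range] at hx ⊢
        refine ⟨?_, (hlabrel i x hx.2).symm⟩
        have : x < P.m := hx.1
        omega
      · intro x _ _
        exact ang_nonneg_of h0 hlast _
    refine h1.trans ?_
    by_cases h2 : P.lab i = 0
    · rw [h2, P.sum0]; exact hθ
    · exact P.sumc _ h2

end Pool.Agent.MP33

end

section

/-!
# Strips: gluings between two chords
-/

set_option autoImplicit false

namespace Pool.Agent.MP33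

open Real Finset

/-- `Strip D x0 y0 p q`: the part of the boundary between `[x0, y0]` and `[p, q]` can be glued to
itself such that `p` and `q` are identified and `x0` and `y0` are identified. -/
inductive Strip {G : Type} [AddCommGroup G] [LinearOrder G] (D : PD G) (x0 y0 : G) : G → G → Prop
  | base : Strip D x0 y0 x0 y0
  | step {p q l r s : G} {θ1 θ2 : ℝ} : Strip D x0 y0 (p : G) (q : G) → Nd D l p θ1 → Nd D q r θ2 →
      θ1 + θ2 ≤ 2 * π → 0 < s → D.flat (l - s) l → D.flat r (r + s) →
      Strip D x0 y0 (l - s) (r + s)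

/-- The cells of a strip. -/
noncomputable def cells (x0 y0 p q : ℤ) : Finset ℤ := Ico p x0 ∪ Ico y0 q

/-- The points of a strip. -/
noncomputable def pts (x0 y0 p q : ℤ) : Finset ℤ := Ioc p x0 ∪ Ico y0 q

structure StripCells (D : PD ℤ) (x0 y0 p q : ℤ) (A : ℤ → ℤ) : Prop where
  le1 : p ≤ x0
  le2 : y0 ≤ q
  even : Even (q - p)
  pr : Pr (cells x0 y0 p q) A
  fn : ∀ f : ℤ → ℤ, (∀ j, f j = 0 ∨ f j = 1) → (∀ i ∈ cells x0 y0 p q, f i = f (A i + 1)) →
    ∃ m : ℤ, 0 ≤ 2 * π * m - (∑ j ∈ pts x0 y0 p q, (f j : ℝ) * D.ang j) ∧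
      2 * π * m - (∑ j ∈ pts x0 y0 p q, (f j : ℝ) * D.ang j) ≤ tau D (pts x0 y0 p q)

theorem sum_pts_split {F : ℤ → ℝ} {x0 y0 p q l r s : ℤ} (h1 : p ≤ x0) (h2 : y0 ≤ q)
    (h0 : x0 < y0) (hl : l ≤ p) (hr : q ≤ r) (hs : 0 < s) :
    ∑ j ∈ pts x0 y0 (l - s) (r + s), F j = (∑ j ∈ Ioo (l - s) ((l - s) + s), F j) +
      (∑ j ∈ Icc l p, F j) + (∑ j ∈ pts x0 y0 p q, F j) + (∑ j ∈ Icc q r, F j) +
      (∑ j ∈ Ioo r (r + s), F j) := by
  have e : pts x0 y0 (l - s) (r + s) = Ioo (l - s) ((l - s) + s) ∪ (Icc l p ∪ (pts x0 y0 p q ∪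
      (Icc q r ∪ Ioo r (r + s)))) := by
    ext j
    simp only [pts, Finset.mem_union, Finset.mem_Icc, Finset.mem_Ioo, Finset.mem_Ioc,
      Finset.mem_Ico]
    omega
  rw [e, Finset.sum_union, Finset.sum_union, Finset.sum_union, Finset.sum_union]
  · ring
  all_goals
    rw [Finset.disjoint_left]
    intro j hj
    simp only [pts, Finset.mem_union, Finset.mem_Icc, Finset.mem_Ioo, Finset.mem_Ioc,
      Finset.mem_Ico] at hj ⊢
    omega

/-- The involution of a strip enlarged by one step. -/
def stripA (p q l r : ℤ) (A A1 A2 : ℤ → ℤ) (i : ℤ) : ℤ :=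
  if i < l then l + r - 1 - i else if i < p then A1 i else if i < q then A i
    else if i < r then A2 i else l + r - 1 - i

theorem Strip.cells {D : PD ℤ} {x0 y0 p q : ℤ} (h0 : x0 < y0) (he : Even (y0 - x0))
    (h : Strip D x0 y0 p q) : ∃ A, StripCells D x0 y0 p q A := by
  induction h with
  | base =>
    refine ⟨fun i => i, le_refl _, le_refl _, he, ⟨?_, ?_, ?_, ?_⟩, ?_⟩
    · simp [MP33.cells]
    · simp [MP33.cells]
    · simp [MP33.cells]
    · simp [MP33.cells]
    · intro f _ _
      exact ⟨0, by simp [pts, tau]⟩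
  | @step p q l r s θ1 θ2 _ hn1 hn2 hθ hs f1 f2 ih =>
    obtain ⟨A, hA⟩ := ih
    obtain ⟨A1, hA1⟩ := hn1.cells
    obtain ⟨A2, hA2⟩ := hn2.cells
    have l1 := hA1.le
    have l2 := hA2.le
    have l3 := hA.le1
    have l4 := hA.le2
    obtain ⟨e1, he1⟩ := hA1.even
    obtain ⟨e2, he2⟩ := hA2.even
    obtain ⟨e3, he3⟩ := hA.even
    have mc : ∀ i, i ∈ MP33.cells x0 y0 (l - s) (r + s) ↔
        ((l - s ≤ i ∧ i < x0) ∨ (y0 ≤ i ∧ i < r + s)) := by
      intro i; simp [MP33.cells]
    have mc' : ∀ i, i ∈ MP33.cells x0 y0 p q ↔ ((p ≤ i ∧ i < x0) ∨ (y0 ≤ i ∧ i < q)) := by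
      intro i; simp [MP33.cells]
    have m0 : ∀ i, p ≤ i → i < q → i ∈ MP33.cells x0 y0 (l - s) (r + s) →
        i ∈ MP33.cells x0 y0 p q ∧ p ≤ A i ∧ A i < q ∧ (A i < x0 ∨ y0 ≤ A i) := by
      intro i h1 h2 h3
      rw [mc] at h3
      have h4 : i ∈ MP33.cells x0 y0 p q := by rw [mc']; omega
      have h5 := hA.pr.mem i h4
      rw [mc'] at h5
      exact ⟨h4, by omega, by omega, by omega⟩
    have m1 : ∀ i, l ≤ i → i < p → l ≤ A1 i ∧ A1 i < p := by
      intro i h1 h2
      exact Finset.mem_Ico.1 (hA1.pr.mem i (Finset.mem_Ico.2 ⟨h1, h2⟩))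
    have m2 : ∀ i, q ≤ i → i < r → q ≤ A2 i ∧ A2 i < r := by
      intro i h1 h2
      exact Finset.mem_Ico.1 (hA2.pr.mem i (Finset.mem_Ico.2 ⟨h1, h2⟩))
    refine ⟨stripA p q l r A A1 A2, by omega, by omega, ⟨e1 + e2 + e3 + s, by omega⟩,
      ⟨?_, ?_, ?_, ?_⟩, ?_⟩
    · intro i hi
      have hi' := hi
      rw [mc] at hi ⊢
      unfold stripA
      split_ifs with c1 c2 c3 c4
      · omega
      · have := m1 i (by omega) c2; omega
      · have := m0 i (by omega) c3 hi'; omega
      · have := m2 i (by omega) c4; omega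
      · omega
    · intro i hi
      have hi' := hi
      rw [mc] at hi
      unfold stripA
      by_cases c1 : i < l
      · rw [if_pos c1, if_neg (by omega), if_neg (by omega), if_neg (by omega), if_neg (by omega)]
        omega
      · by_cases c2 : i < p
        · have h1 := m1 i (by omega) c2
          rw [if_neg c1, if_pos c2, if_neg (by omega), if_pos h1.2]
          exact hA1.pr.invol i (Finset.mem_Ico.2 ⟨by omega, c2⟩)
        · by_cases c3 : i < q
          · have h1 := m0 i (by omega) c3 hi'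
            rw [if_neg c1, if_neg c2, if_pos c3, if_neg (by omega), if_neg (by omega),
              if_pos h1.2.2.1]
            exact hA.pr.invol i h1.1
          · by_cases c4 : i < r
            · have h1 := m2 i (by omega) c4
              rw [if_neg c1, if_neg c2, if_neg c3, if_pos c4, if_neg (by omega),
                if_neg (by omega), if_neg (by omega), if_pos h1.2]
              exact hA2.pr.invol i (Finset.mem_Ico.2 ⟨by omega, c4⟩)
            · rw [if_neg c1, if_neg c2, if_neg c3, if_neg c4, if_pos (by omega)]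
              omega
    · intro i hi
      have hi' := hi
      rw [mc] at hi
      unfold stripA
      split_ifs with c1 c2 c3 c4
      · exact ⟨e1 + e2 + e3 + l - 1 - i, by omega⟩
      · exact hA1.pr.odd i (Finset.mem_Ico.2 ⟨by omega, c2⟩)
      · exact hA.pr.odd i (m0 i (by omega) c3 hi').1
      · exact hA2.pr.odd i (Finset.mem_Ico.2 ⟨by omega, c4⟩)
      · exact ⟨e1 + e2 + e3 + l - 1 - i, by omega⟩
    · intro i hi j hj hij hjA
      have hi' := hi
      have hj' := hj
      rw [mc] at hi hj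
      unfold stripA at hjA ⊢
      by_cases c1 : i < l
      · rw [if_pos c1] at hjA ⊢
        by_cases d1 : j < l
        · rw [if_pos d1]; omega
        · rw [if_neg d1]
          by_cases d2 : j < p
          · have := m1 j (by omega) d2
            rw [if_pos d2]; omega
          · rw [if_neg d2]
            by_cases d3 : j < q
            · have := m0 j (by omega) d3 hj'
              rw [if_pos d3]; omega
            · rw [if_neg d3]
              by_cases d4 : j < r
              · have := m2 j (by omega) d4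
                rw [if_pos d4]; omega
              · rw [if_neg d4]; omega
      · by_cases c2 : i < p
        · have h1 := m1 i (by omega) c2
          rw [if_neg c1, if_pos c2] at hjA ⊢
          rw [if_neg (by omega), if_pos (by omega)]
          exact hA1.pr.nc i (Finset.mem_Ico.2 ⟨by omega, c2⟩) j
            (Finset.mem_Ico.2 ⟨by omega, by omega⟩) hij hjA
        · by_cases c3 : i < q
          · have h1 := m0 i (by omega) c3 hi'
            rw [if_neg c1, if_neg c2, if_pos c3] at hjA ⊢
            rw [if_neg (by omega), if_neg (by omega), if_pos (by omega)]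
            exact hA.pr.nc i h1.1 j (by rw [mc']; omega) hij hjA
          · by_cases c4 : i < r
            · have h1 := m2 i (by omega) c4
              rw [if_neg c1, if_neg c2, if_neg c3, if_pos c4] at hjA ⊢
              rw [if_neg (by omega), if_neg (by omega), if_neg (by omega), if_pos (by omega)]
              exact hA2.pr.nc i (Finset.mem_Ico.2 ⟨by omega, c4⟩) j
                (Finset.mem_Ico.2 ⟨by omega, by omega⟩) hij hjA
            · rw [if_neg c1, if_neg c2, if_neg c3, if_neg c4] at hjA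
              omega
    · intro f hf hi
      have hi1 : ∀ i ∈ Ico l p, f i = f (A1 i + 1) := by
        intro i hm
        have h1 := Finset.mem_Ico.1 hm
        have := hi i (by rw [mc]; omega)
        rwa [stripA, if_neg (by omega), if_pos h1.2] at this
      have hi2 : ∀ i ∈ Ico q r, f i = f (A2 i + 1) := by
        intro i hm
        have h1 := Finset.mem_Ico.1 hm
        have := hi i (by rw [mc]; omega)
        rwa [stripA, if_neg (by omega), if_neg (by omega), if_neg (by omega), if_pos h1.2] at this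
      have hi0 : ∀ i ∈ MP33.cells x0 y0 p q, f i = f (A i + 1) := by
        intro i hm
        have h1 := (mc' i).1 hm
        have := hi i (by rw [mc]; omega)
        rwa [stripA, if_neg (by omega), if_neg (by omega), if_pos (by omega)] at this
      have hi3 : ∀ i, l - s ≤ i → i < l → f i = f (l + r - i) := by
        intro i h1 h2
        have := hi i (by rw [mc]; omega)
        rw [stripA, if_pos h2] at this
        rw [this]; congr 1; omega
      have hi4 : f r = f l := by
        have := hi r (by rw [mc]; omega)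
        rw [stripA, if_neg (by omega), if_neg (by omega), if_neg (by omega),
          if_neg (by omega)] at this
        rw [this]; congr 1; omega
      obtain ⟨g1, m1, a1, b1⟩ := hA1.fn f hf hi1
      obtain ⟨g2, m2, a2, b2⟩ := hA2.fn f hf hi2
      obtain ⟨m, a, b⟩ := hA.fn f hf hi0
      have f1' : D.flat (l - s) (l - s + s) := by rwa [sub_add_cancel]
      obtain ⟨N, hN⟩ := edge_sum f1' f2 (f := f) (fun i h1 h2 => by
        rw [hi3 i h1.le (by omega)]; congr 1; omega)
      have g3 : f q = f l := by rw [← hi4, g2]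
      refine ⟨m1 + N + m2 + m + f l, ?_⟩
      have e1 := sum_pts_split (F := fun j => (f j : ℝ) * D.ang j) l3 l4 h0 l1 l2 hs
      have e2 := sum_pts_split (F := fun j => π - D.ang j) l3 l4 h0 l1 l2 hs
      have e3 : tau D (Ioo (l - s) (l - s + s)) = 0 :=
        tau_flat f1' (fun j hj => Finset.mem_Ioo.1 hj)
      have e4 : tau D (Ioo r (r + s)) = 0 := tau_flat f2 (fun j hj => Finset.mem_Ioo.1 hj)
      unfold tau at e3 e4 b1 b2 b ⊢
      rw [e1, e2, e3, e4]
      rw [g3] at a2 b2
      push_cast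
      have hπ := Real.pi_pos
      rcases hf l with h0 | h0
      · rw [h0] at a1 b1 a2 b2 ⊢
        push_cast at a1 b1 a2 b2 ⊢
        constructor <;> nlinarith
      · rw [h0] at a1 b1 a2 b2 ⊢
        push_cast at a1 b1 a2 b2 ⊢
        constructor <;> nlinarith

end Pool.Agent.MP33

end

section

/-!
# Alexandrov gluings are the planar ones with small angle sums
-/

set_option autoImplicit false

namespace Pool.Agent.MP33

open Real

theorem eqvGen_fin {m : ℕ} {R : ℕ → ℕ → Prop} (hR : ∀ x y, R x y → x < m ∧ y < m) (i j : Fin m) :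
    Relation.EqvGen R i j ↔ Relation.EqvGen (fun x y : Fin m => R x y) i j := by
  constructor
  · have key : ∀ x y, Relation.EqvGen R x y → x = y ∨ ∃ (hx : x < m) (hy : y < m),
        Relation.EqvGen (fun x y : Fin m => R x y) ⟨x, hx⟩ ⟨y, hy⟩ := by
      intro x y h
      induction h with
      | rel x y h => exact Or.inr ⟨(hR x y h).1, (hR x y h).2, Relation.EqvGen.rel _ _ h⟩
      | refl x => exact Or.inl rfl
      | symm x y _ ih =>
        rcases ih with rfl | ⟨hx, hy, h⟩
        · exact Or.inl rfl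
        · exact Or.inr ⟨hy, hx, h.symm⟩
      | trans x y z _ _ ih1 ih2 =>
        rcases ih1 with rfl | ⟨hx, hy, h⟩
        · exact ih2
        · rcases ih2 with rfl | ⟨hy', hz, h'⟩
          · exact Or.inr ⟨hx, hy, h⟩
          · exact Or.inr ⟨hx, hz, h.trans _ _ _ h'⟩
    intro h
    rcases key _ _ h with h | ⟨_, _, h⟩
    · rw [Fin.ext h]; exact Relation.EqvGen.refl _
    · exact h
  · intro h
    induction h with
    | rel x y h => exact Relation.EqvGen.rel _ _ h
    | refl x => exact Relation.EqvGen.refl _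
    | symm x y _ ih => exact ih.symm
    | trans x y z _ _ ih1 ih2 => exact ih1.trans _ _ _ ih2

theorem alexandrov_iff_planar (D : PD ℝ) (hn : 0 < D.n) (hm : D.Mono) :
    (∃ g : Gluing D, g.IsAlexandrov) ↔ ∃ g : PlanarGluing D, g.IsAlexandrov := by
  classical
  have hpos : ∀ (m : ℕ) (b : ℕ → ℝ), b 0 = D.v 0 → b m = D.v D.n → 0 < m := by
    intro m b h1 h2
    rcases Nat.eq_zero_or_pos m with rfl | h
    · exfalso
      rw [h1] at h2
      have := hm 0 D.n hn (le_refl _)
      linarith
    · exact h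
  -- comparison of the angle sums
  have hsum : ∀ (m : ℕ) (mu : ℕ → ℕ) (b : ℕ → ℝ) (hmu : ∀ i < m, mu i < m) (hm0 : 0 < m)
      (i : Fin m),
      (∑ j ∈ Finset.range m with Relation.EqvGen
        (fun x y => ∃ i < m, x = (i + 1) % m ∧ y = mu i) i j, D.ang (b j)) =
      ∑ j : Fin m with Quot.mk (fun x y : Fin m => ∃ i < m, x.val = (i + 1) % m ∧ y.val = mu i) j =
        Quot.mk _ i, D.ang (b j) := by
    intro m mu b hmu hm0 i
    have hR : ∀ x y, (∃ i < m, x = (i + 1) % m ∧ y = mu i) → x < m ∧ y < m := by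
      rintro x y ⟨i, hi, rfl, rfl⟩
      exact ⟨Nat.mod_lt _ hm0, hmu i hi⟩
    symm
    refine Finset.sum_nbij (fun j : Fin m => j.val) ?_ ?_ ?_ ?_
    · intro j hj
      rw [Finset.mem_filter] at hj
      rw [Finset.mem_coe.symm, Finset.mem_coe, Finset.mem_filter, Finset.mem_range]
      refine ⟨j.2, ?_⟩
      rw [eqvGen_fin hR i j]
      exact (Quot.eqvGen_exact hj.2).symm
    · intro j _ k _ h
      exact Fin.ext h
    · intro j hj
      rw [Finset.mem_coe, Finset.mem_filter, Finset.mem_range] at hj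
      refine ⟨⟨j, hj.1⟩, ?_, rfl⟩
      rw [Finset.mem_coe, Finset.mem_filter]
      refine ⟨Finset.mem_univ _, ?_⟩
      have := (eqvGen_fin hR i ⟨j, hj.1⟩).1 hj.2
      exact (Quot.eqvGen_sound this).symm
    · intro j _; rfl
  have hE : ∀ (V m : ℕ), ((V : ℚ) - m / 2 + 1 = 2 ↔ 2 * V = m + 2) := by
    intro V m
    constructor
    · intro h
      have h1 : (2 * V : ℚ) = m + 2 := by linarith
      exact_mod_cast h1
    · intro h
      have h1 : (2 * V : ℚ) = m + 2 := by exact_mod_cast h
      linarith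
  constructor
  · rintro ⟨g, hg⟩
    have hm0 := hpos g.m g.b g.b_zero g.b_last
    have hp := (planar_iff_card g.m hm0 g.mu g.mu_lt g.mu_mu g.mu_ne).2
      ((hE _ _).1 hg.sphere)
    refine ⟨⟨g.m, g.b, g.mu, g.b_zero, g.b_last, g.b_lt, g.vert, g.mu_lt, g.mu_mu, g.mu_ne, g.len,
      hp⟩, fun i hi => ?_⟩
    have h1 := hsum g.m g.mu g.b g.mu_lt hm0 ⟨i, hi⟩
    have h2 := hg.angle_le (Quot.mk _ ⟨i, hi⟩)
    refine le_trans (le_of_eq ?_) h2
    unfold PlanarGluing.angleSum Gluing.angleSum
    convert h1 <;> rfl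
  · rintro ⟨g, hg⟩
    have hm0 := hpos g.m g.b g.b_zero g.b_last
    have hp := (planar_iff_card g.m hm0 g.mu g.mu_lt g.mu_mu g.mu_ne).1 g.planar
    refine ⟨⟨g.m, g.b, g.mu, g.b_zero, g.b_last, g.b_lt, g.vert, g.mu_lt, g.mu_mu, g.mu_ne, g.len⟩,
      (hE _ _).2 hp, fun q => ?_⟩
    obtain ⟨i, rfl⟩ := Quot.exists_rep q
    have h1 := hsum g.m g.mu g.b g.mu_lt hm0 i
    have h2 := hg i.val i.2
    refine le_trans (le_of_eq ?_) h2
    unfold PlanarGluing.angleSum Gluing.angleSum
    symm
    convert h1 <;> rfl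

end Pool.Agent.MP33

end

section

/-!
# The total turning of a simple polygon
-/

set_option autoImplicit false

namespace Pool.Agent.MP33

open Real

section

variable {n : ℕ} {z : ZMod n → ℂ}

theorem IsSimplePolygon.two_ne (h : IsSimplePolygon z) : (2 : ZMod n) ≠ 0 := by
  intro h2
  have h3 : ((2 : ℕ) : ZMod n) = 0 := by exact_mod_cast h2
  rw [ZMod.natCast_eq_zero_iff] at h3
  have := Nat.le_of_dvd (by norm_num) h3
  have := h.three
  omega

theorem IsSimplePolygon.one_ne (h : IsSimplePolygon z) : (1 : ZMod n) ≠ 0 := by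
  intro h2
  exact h.two_ne (by
    have : (2 : ZMod n) = 1 + 1 := by norm_num
    rw [this, h2, add_zero])

theorem IsSimplePolygon.next_ne (h : IsSimplePolygon z) (i : ZMod n) : z (i + 1) - z i ≠ 0 := by
  intro h1
  have h2 := h.inj (sub_eq_zero.1 h1)
  exact h.one_ne (by simpa using h2)

theorem IsSimplePolygon.prev_ne (h : IsSimplePolygon z) (i : ZMod n) : z (i - 1) - z i ≠ 0 := by
  intro h1
  have h2 := h.inj (sub_eq_zero.1 h1)
  exact h.one_ne (by simpa using h2)

/-- Consecutive edges do not overlap. -/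
theorem IsSimplePolygon.corner (h : IsSimplePolygon z) (i : ZMod n) (t : ℝ) (ht : 0 < t) :
    z (i - 1) - z i ≠ t * (z (i + 1) - z i) := by
  intro he
  -- a common point of the edges `i` and `i - 1` is `z i`
  have hmeet : ∀ x ∈ segment ℝ (z i) (z (i + 1)), x ∈ segment ℝ (z (i - 1)) (z i) → x = z i := by
    intro x h1 h2
    have e : i - 1 + 1 = i := by ring
    have h3 := h.simple i (i - 1) (by
      intro h4
      exact h.one_ne (by simpa using h4.symm)) x h1 (by rw [e]; exact h2)
    rcases h3 with ⟨h4, _⟩ | ⟨_, h4⟩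
    · exfalso
      apply h.two_ne
      have h5 : i - 1 - (i + 1) = 0 := by rw [h4]; ring
      have h6 : i - 1 - (i + 1) = -2 := by ring
      rw [h6] at h5
      exact neg_eq_zero.1 h5
    · exact h4
  rcases le_total t 1 with h1 | h1
  · have h2 : z (i - 1) ∈ segment ℝ (z i) (z (i + 1)) := by
      refine ⟨1 - t, t, by linarith, ht.le, by ring, ?_⟩
      rw [Complex.real_smul, Complex.real_smul]
      push_cast
      linear_combination -he
    have h3 := hmeet _ h2 (left_mem_segment ℝ _ _)
    exact h.prev_ne i (sub_eq_zero.2 h3)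
  · have h2 : z (i + 1) ∈ segment ℝ (z (i - 1)) (z i) := by
      refine ⟨1 / t, 1 - 1 / t, by positivity, ?_, by ring, ?_⟩
      · rw [sub_nonneg, div_le_one ht]; exact h1
      · rw [Complex.real_smul, Complex.real_smul]
        push_cast
        have ht' : (t : ℂ) ≠ 0 := by exact_mod_cast ht.ne'
        field_simp
        linear_combination he
    have h3 := hmeet _ (right_mem_segment ℝ _ _) h2
    exact h.next_ne i (sub_eq_zero.2 h3)

theorem IsSimplePolygon.corner_seg (h : IsSimplePolygon z) (i : ZMod n) :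
    (0 : ℂ) ∉ segment ℝ (z i - z (i - 1)) (z (i + 1) - z i) := by
  rintro ⟨a, b, ha, hb, hab, he⟩
  rw [Complex.real_smul, Complex.real_smul] at he
  rcases eq_or_lt_of_le ha with ha0 | ha0
  · rw [← ha0, show b = 1 by linarith] at he
    apply h.next_ne i
    simpa using he
  · rcases eq_or_lt_of_le hb with hb0 | hb0
    · rw [← hb0, show a = 1 by linarith] at he
      apply h.prev_ne i
      have : z i - z (i - 1) = 0 := by simpa using he
      rw [← neg_eq_zero, neg_sub]; exact this
    · refine h.corner i (b / a) (by positivity) ?_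
      have ha' : (a : ℂ) ≠ 0 := by exact_mod_cast ha0.ne'
      push_cast
      field_simp
      linear_combination -he

theorem IsSimplePolygon.leftAngle_pos (h : IsSimplePolygon z) (i : ZMod n) :
    0 < leftAngle z i :=
  ccwAngle_pos (h.next_ne i) (h.prev_ne i) (h.corner i)

/-- The angle on the other side. -/
theorem ccwAngle_comm {a b : ℂ} (ha : a ≠ 0) (hb : b ≠ 0) (h : 0 < ccwAngle a b) :
    ccwAngle b a = 2 * π - ccwAngle a b := by
  have hq : b / a ≠ 0 := div_ne_zero hb ha
  have hinv : (a / b).arg = if (b / a).arg = π then π else -(b / a).arg := by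
    rw [← inv_div, Complex.arg_inv]
  have hπ := Real.pi_pos
  have h1 := Complex.neg_pi_lt_arg (b / a)
  have h2 := Complex.arg_le_pi (b / a)
  unfold ccwAngle at h ⊢
  rw [hinv]
  by_cases h3 : (b / a).arg = π
  · rw [if_pos h3, if_pos hπ.le, h3, if_pos hπ.le]; ring
  · rw [if_neg h3]
    by_cases h4 : 0 ≤ (b / a).arg
    · rw [if_pos h4] at h
      rw [if_pos h4, if_neg (by linarith)]
      ring
    · rw [if_neg h4, if_pos (by linarith)]
      ring

theorem leftAngle_eq (h : IsSimplePolygon z) (i : ZMod n) :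
    leftAngle z i = π - tn (z i - z (i - 1)) (z (i + 1) - z i) := by
  have hπ := Real.pi_pos
  have hp := h.leftAngle_pos i
  have e1 : z (i - 1) - z i = -(z i - z (i - 1)) := by ring
  have hx : z i - z (i - 1) ≠ 0 := by
    intro h1; apply h.prev_ne i; rw [e1, h1, neg_zero]
  have hy := h.next_ne i
  unfold leftAngle at hp ⊢
  rw [e1] at hp ⊢
  unfold tn
  set x := z i - z (i - 1)
  set y := z (i + 1) - z i
  have hq : y / x ≠ 0 := div_ne_zero hy hx
  have e2 : -x / y = -((y / x)⁻¹) := by rw [inv_div, neg_div]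
  have hne : (y / x).arg ≠ π := by
    intro h1
    have h2 : ccwAngle y (-x) = 0 := by
      unfold ccwAngle
      rw [e2]
      rw [Complex.arg_eq_pi_iff] at h1
      have h3 : (-((y / x)⁻¹)).arg = 0 := by
        rw [Complex.arg_eq_zero_iff]
        have hr : y / x = ((y / x).re : ℂ) := Complex.ext rfl (by rw [h1.2]; simp)
        rw [hr, ← Complex.ofReal_inv, ← Complex.ofReal_neg]
        rw [Complex.ofReal_re, Complex.ofReal_im]
        refine ⟨?_, rfl⟩
        have := inv_lt_zero.2 h1.1
        linarith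
      rw [h3, if_pos (le_refl _)]
    rw [h2] at hp
    exact lt_irrefl _ hp
  have hinv : ((y / x)⁻¹).arg = -(y / x).arg := by rw [Complex.arg_inv, if_neg hne]
  have b1 := Complex.neg_pi_lt_arg (y / x)
  have b2 := Complex.arg_le_pi (y / x)
  have b3 : (y / x).arg < π := lt_of_le_of_ne b2 hne
  have hsin : Real.sin (y / x).arg = (y / x).im / ‖y / x‖ := Complex.sin_arg _
  have hn0 : 0 < ‖y / x‖ := norm_pos_iff.2 hq
  have him : ((y / x)⁻¹).im = -(y / x).im / Complex.normSq (y / x) := Complex.inv_im _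
  have hns : 0 < Complex.normSq (y / x) := Complex.normSq_pos.2 hq
  unfold ccwAngle
  rw [e2]
  rcases lt_trichotomy (y / x).im 0 with h1 | h1 | h1
  · have h2 : 0 < ((y / x)⁻¹).im := by
      rw [him]; exact div_pos (by linarith) hns
    rw [Complex.arg_neg_eq_arg_sub_pi_of_im_pos h2, hinv, if_neg (by linarith)]
    ring
  · have hr : y / x = ((y / x).re : ℂ) := Complex.ext rfl (by rw [h1]; simp)
    have hre : 0 < (y / x).re := by
      rcases lt_trichotomy (y / x).re 0 with h2 | h2 | h2
      · exact absurd (Complex.arg_eq_pi_iff.2 ⟨h2, h1⟩) hne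
      · exfalso; apply hq; rw [hr, h2]; simp
      · exact h2
    have h3 : (y / x).arg = 0 := Complex.arg_eq_zero_iff.2 ⟨hre.le, h1⟩
    have h4 : (-((y / x)⁻¹)).arg = π := by
      rw [Complex.arg_eq_pi_iff, hr, ← Complex.ofReal_inv, ← Complex.ofReal_neg]
      rw [Complex.ofReal_re, Complex.ofReal_im]
      refine ⟨?_, rfl⟩
      have := inv_pos.2 hre
      linarith
    rw [h4, if_pos hπ.le, h3, sub_zero]
  · have h2 : ((y / x)⁻¹).im < 0 := by
      rw [him]; exact div_neg_of_neg_of_pos (by linarith) hns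
    have h3 : 0 ≤ (y / x).arg := Complex.arg_nonneg_iff.2 h1.le
    rw [Complex.arg_neg_eq_arg_add_pi_of_im_neg h2, hinv, if_pos (by linarith)]
    ring

theorem sum_zmod [NeZero n] (g : ZMod n → ℝ) : ∑ i ∈ Finset.range n, g i = ∑ v, g v := by
  obtain ⟨k, rfl⟩ : ∃ k, n = k + 1 := ⟨n - 1, by have := NeZero.pos n; omega⟩
  rw [Finset.sum_range]
  refine Finset.sum_congr rfl (fun i _ => ?_)
  congr 1
  exact ZMod.natCast_zmod_val (n := k + 1) i

theorem cast_ne {i j : ℕ} (h1 : i < j) (h2 : j < i + n) : ((i : ℕ) : ZMod n) ≠ (j : ZMod n) := by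
  intro h
  rw [ZMod.natCast_eq_natCast_iff, Nat.modEq_iff_dvd' h1.le] at h
  have := Nat.le_of_dvd (by omega) h
  omega

/-- **The total turning of a simple polygon is `2 π` or `-2 π`.** -/
theorem IsSimplePolygon.turning_eq (h : IsSimplePolygon z) :
    turning z = 2 * π ∨ turning z = -(2 * π) := by
  have h3 := h.three
  have : NeZero n := ⟨by omega⟩
  -- an extreme vertex
  obtain ⟨m, hm⟩ := Finite.exists_min (fun i : ZMod n => toLex ((z i).im, (z i).re))
  have hupp : ∀ j, j ≠ m → upp (z j - z m) := by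
    intro j hj
    have h1 := hm j
    rw [Prod.Lex.le_iff] at h1
    have h2 : z j ≠ z m := fun h4 => hj (h.inj h4)
    simp only [ofLex_toLex] at h1
    unfold upp
    rw [Complex.sub_im, Complex.sub_re]
    rcases h1 with h1 | ⟨h1, h4⟩
    · left; linarith
    · right
      refine ⟨by linarith, ?_⟩
      rcases eq_or_lt_of_le h4 with h5 | h5
      · exact absurd (Complex.ext h5.symm h1.symm) h2
      · linarith
  set w : ℕ → ℂ := fun k => z (m + k) with hwd
  have hn0 : ((n : ℕ) : ZMod n) = 0 := ZMod.natCast_self n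
  have hw : w n = w 0 := by simp only [hwd]; rw [hn0]; simp
  have hsucc : ∀ k : ℕ, w (k + 1) = z (m + k + 1) := by
    intro k; simp only [hwd]; push_cast; rw [add_assoc]
  have hsucc2 : ∀ k : ℕ, w (k + 2) = z (m + k + 1 + 1) := by
    intro k; simp only [hwd]; push_cast; congr 1; ring
  have key := turning_aux (n := n) h3 (w := w) hw ?_ ?_ ?_ ?_
  · -- the sum
    have hsum : turning z = (∑ i ∈ Finset.range (n - 1), tn (w (i + 1) - w i)
        (w (i + 2) - w (i + 1))) + tn (w n - w (n - 1)) (w 1 - w 0) := by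
      unfold turning
      have e1 : ∑ i ∈ Finset.range n, (π - leftAngle z i) =
          ∑ v : ZMod n, tn (z v - z (v - 1)) (z (v + 1) - z v) := by
        rw [sum_zmod (fun v => π - leftAngle z v)]
        refine Finset.sum_congr rfl (fun v _ => ?_)
        rw [leftAngle_eq h]; ring
      have e2 : ∑ v : ZMod n, tn (z v - z (v - 1)) (z (v + 1) - z v) =
          ∑ v : ZMod n, tn (z (m + 1 + v) - z (m + 1 + v - 1)) (z (m + 1 + v + 1) - z (m + 1 + v)) :=
        (Equiv.sum_comp (Equiv.addLeft (m + 1))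
          (fun v => tn (z v - z (v - 1)) (z (v + 1) - z v))).symm
      rw [e1, e2, ← sum_zmod (fun v => tn (z (m + 1 + v) - z (m + 1 + v - 1))
        (z (m + 1 + v + 1) - z (m + 1 + v)))]
      obtain ⟨k, rfl⟩ : ∃ k, n = k + 1 := ⟨n - 1, by omega⟩
      rw [Finset.sum_range_succ]
      have e3 : k + 1 - 1 = k := rfl
      rw [e3]
      refine congrArg₂ (· + ·) (Finset.sum_congr rfl (fun i _ => ?_)) ?_
      · rw [hsucc, hsucc2]
        have a1 : m + 1 + (i : ZMod (k + 1)) = m + i + 1 := by ring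
        have a2 : m + (i : ZMod (k + 1)) + 1 - 1 = m + i := by ring
        rw [a1, a2]
      · have b1 : m + 1 + (k : ZMod (k + 1)) = m := by
          have : ((k + 1 : ℕ) : ZMod (k + 1)) = 0 := hn0
          push_cast at this
          linear_combination this
        have b2 : m - 1 = m + (k : ZMod (k + 1)) := by
          have : ((k + 1 : ℕ) : ZMod (k + 1)) = 0 := hn0
          push_cast at this
          linear_combination -this
        rw [b1, hw, show w 0 = z m by simp [hwd], show w 1 = z (m + 1) by simp [hwd],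
          show w k = z (m - 1) by simp only [hwd]; rw [b2]]
    rw [hsum]
    exact key
  · intro i j hij hj hnot
    rw [Set.disjoint_left]
    intro x hx1 hx2
    rw [hsucc] at hx1 hx2
    have hne : m + (i : ZMod n) ≠ m + j := by
      intro he
      exact cast_ne (n := n) (i := i) (j := j) (by omega) (by omega) (add_left_cancel he)
    rcases h.simple _ _ hne x hx1 hx2 with ⟨h4, _⟩ | ⟨h4, _⟩
    · refine cast_ne (n := n) (i := i + 1) (j := j) (by omega) (by omega) ?_
      push_cast
      rw [add_assoc] at h4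
      exact (add_left_cancel h4).symm
    · refine cast_ne (n := n) (i := i) (j := j + 1) (by omega) (by omega) ?_
      push_cast
      rw [add_assoc] at h4
      exact add_left_cancel h4
  · intro i hi
    rw [hsucc, hsucc2]
    have := h.corner_seg (m + i + 1)
    rwa [add_sub_cancel_right] at this
  · have := h.corner_seg m
    have b2 : m - 1 = m + ((n - 1 : ℕ) : ZMod n) := by
      rw [Nat.cast_sub (by omega), hn0]; push_cast; ring
    rw [hw, show w 0 = z m by simp [hwd], show w 1 = z (m + 1) by simp [hwd],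
      show w (n - 1) = z (m - 1) by simp only [hwd]; rw [b2]]
    exact this
  · intro j hj0 hjn
    rw [show w 0 = z m by simp [hwd]]
    refine hupp _ ?_
    intro he
    have h4 : (j : ZMod n) = ((0 : ℕ) : ZMod n) := by
      push_cast
      have : m + (j : ZMod n) = m + 0 := by rw [add_zero]; exact he
      exact add_left_cancel this
    exact cast_ne (n := n) (i := 0) (j := j) hj0 (by omega) h4.symm

end

end Pool.Agent.MP33

end

section

/-!
# The uniqueness lemma
-/

set_option autoImplicit false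

namespace Pool.Agent.MP33

open Real Finset

theorem even_card_of_invol {T : Finset ℤ} {A : ℤ → ℤ} (h1 : ∀ i ∈ T, A i ∈ T)
    (h2 : ∀ i ∈ T, A (A i) = i) (h3 : ∀ i ∈ T, A i ≠ i) : Even T.card := by
  have h : ∑ _x ∈ T, (1 : ZMod 2) = 0 := by
    refine Finset.sum_involution (fun a _ => A a) ?_ ?_ ?_ ?_
    · intro a _; decide
    · intro a ha _; exact h3 a ha
    · intro a ha; exact h1 a ha
    · intro a ha; exact h2 a ha
  rw [Finset.sum_const, nsmul_eq_mul, mul_one] at h
  rw [← ZMod.natCast_eq_zero_iff_even]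
  exact h

/-- Alternating paths. -/
theorem exists_path : ∀ (n : ℕ) (CA CB : Finset ℤ) (A B : ℤ → ℤ) (a : ℤ), CB.card = n →
    CB ⊆ CA → (∀ i ∈ CA, A i ∈ CA ∧ A (A i) = i ∧ Odd (A i - i)) →
    (∀ i ∈ CB, B i ∈ CB ∧ B (B i) = i ∧ Odd (B i - i)) → a ∈ CA → a ∉ CB →
    ∃ (χ : Finset ℤ) (a' : ℤ), χ ⊆ CA ∧ a ∈ χ ∧ a' ∈ χ ∧ a' ∉ CB ∧ Odd (a' - a) ∧
      (∀ i ∈ χ, A i ∈ χ) ∧ (∀ i ∈ χ, i ≠ a → i ≠ a' → i ∈ CB ∧ B i ∈ χ) := by
  intro n
  induction n using Nat.strong_induction_on with
  | _ n ih =>
  intro CA CB A B a hn hsub hA hB ha ha'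
  obtain ⟨x1m, x1i, x1o⟩ := hA a ha
  by_cases hx1 : A a ∈ CB
  · obtain ⟨x2m, x2i, x2o⟩ := hB _ hx1
    set x1 := A a with hx1def
    set x2 := B x1 with hx2def
    have n12 : x2 ≠ x1 := by intro h; rw [h] at x2o; simp at x2o
    have na1 : a ≠ x1 := by rintro h; exact ha' (h ▸ hx1)
    have na2 : a ≠ x2 := by rintro h; exact ha' (h ▸ x2m)
    obtain ⟨x3m, x3i, x3o⟩ := hA x2 (hsub x2m)
    have h31 : A x2 ≠ x1 := by
      intro h; apply na2; rw [← x1i, ← h, x3i]
    have h32 : A x2 ≠ x2 := by intro h; rw [h] at x3o; simp at x3o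
    have h3a : A x2 ≠ a := by
      intro h
      apply n12
      rw [hx1def, ← h, x3i]
    let A' : ℤ → ℤ := fun i => if i = a then A x2 else if i = A x2 then a else A i
    have hCA' : ∀ i, i ∈ (CA.erase x1).erase x2 ↔ i ≠ x2 ∧ i ≠ x1 ∧ i ∈ CA := by
      intro i; simp only [Finset.mem_erase]
    have hCB' : ∀ i, i ∈ (CB.erase x1).erase x2 ↔ i ≠ x2 ∧ i ≠ x1 ∧ i ∈ CB := by
      intro i; simp only [Finset.mem_erase]
    have hcard : ((CB.erase x1).erase x2).card < n := by
      rw [← hn]
      exact lt_of_le_of_lt (Finset.card_le_card (Finset.erase_subset _ _))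
        (Finset.card_erase_lt_of_mem hx1)
    obtain ⟨χ, a', k1, k2, k3, k4, k5, k6, k7⟩ := ih _ hcard ((CA.erase x1).erase x2)
      ((CB.erase x1).erase x2) A' B a rfl (by
        intro i hi; rw [hCB'] at hi; rw [hCA']; exact ⟨hi.1, hi.2.1, hsub hi.2.2⟩) (by
        intro i hi
        rw [hCA'] at hi
        obtain ⟨i2, i1, iC⟩ := hi
        obtain ⟨j1, j2, j3⟩ := hA i iC
        show (if i = a then A x2 else if i = A x2 then a else A i) ∈ _ ∧
          (if (if i = a then A x2 else if i = A x2 then a else A i) = a then A x2 else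
            if (if i = a then A x2 else if i = A x2 then a else A i) = A x2 then a else
              A (if i = a then A x2 else if i = A x2 then a else A i)) = i ∧
          Odd ((if i = a then A x2 else if i = A x2 then a else A i) - i)
        by_cases c1 : i = a
        · subst c1
          rw [if_pos rfl, if_neg h3a, if_pos rfl, hCA']
          refine ⟨⟨h32, h31, x3m⟩, rfl, ?_⟩
          obtain ⟨u, hu⟩ := x1o
          obtain ⟨v, hv⟩ := x2o
          obtain ⟨w, hw⟩ := x3o
          exact ⟨u + v + w + 1, by omega⟩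
        · by_cases c2 : i = A x2
          · rw [if_neg c1, if_pos c2, if_pos rfl, hCA']
            refine ⟨⟨na2, na1, ha⟩, c2.symm, ?_⟩
            obtain ⟨u, hu⟩ := x1o
            obtain ⟨v, hv⟩ := x2o
            obtain ⟨w, hw⟩ := x3o
            exact ⟨-(u + v + w + 2), by omega⟩
          · have e1 : A i ≠ a := by
              intro h; apply i1; rw [hx1def, ← h, j2]
            have e2 : A i ≠ A x2 := by
              intro h; apply i2; rw [← j2, h, x3i]
            have e3 : A i ≠ x1 := by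
              intro h; apply c1; rw [← j2, h, x1i]
            have e4 : A i ≠ x2 := by
              intro h; apply c2; rw [← h, j2]
            rw [if_neg c1, if_neg c2, if_neg e1, if_neg e2, hCA']
            exact ⟨⟨e4, e3, j1⟩, j2, j3⟩) (by
        intro i hi
        rw [hCB'] at hi
        obtain ⟨i2, i1, iC⟩ := hi
        obtain ⟨j1, j2, j3⟩ := hB i iC
        rw [hCB']
        refine ⟨⟨?_, ?_, j1⟩, j2, j3⟩
        · intro h; apply i1; rw [← j2, h, x2i]
        · intro h; apply i2; rw [← j2, h]) (by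
        rw [hCA']; exact ⟨na2, na1, ha⟩) (by
        rw [hCB']; exact fun h => ha' h.2.2)
    have ha'CA := (hCA' a').1 (k1 k3)
    refine ⟨insert x1 (insert x2 χ), a', ?_, by simp [k2], by simp [k3], ?_, k5, ?_, ?_⟩
    · intro i hi
      rw [Finset.mem_insert, Finset.mem_insert] at hi
      rcases hi with rfl | rfl | hi
      · exact x1m
      · exact hsub x2m
      · exact ((hCA' i).1 (k1 hi)).2.2
    · intro h; exact k4 ((hCB' a').2 ⟨ha'CA.1, ha'CA.2.1, h⟩)
    · intro i hi
      rw [Finset.mem_insert, Finset.mem_insert] at hi ⊢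
      rcases hi with rfl | rfl | hi
      · rw [x1i]; simp [k2]
      · have := k6 a k2
        simp only [A', if_pos] at this
        simp [this]
      · have h1 := k6 i hi
        have h2 := (hCA' i).1 (k1 hi)
        simp only [A'] at h1
        by_cases c1 : i = a
        · left; rw [c1]
        · by_cases c2 : i = A x2
          · right; left; rw [c2, x3i]
          · rw [if_neg c1, if_neg c2] at h1
            right; right; exact h1
    · intro i hi hia hia'
      rw [Finset.mem_insert, Finset.mem_insert] at hi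
      rcases hi with rfl | rfl | hi
      · exact ⟨hx1, by simp [hx2def]⟩
      · exact ⟨x2m, by rw [x2i]; simp⟩
      · obtain ⟨h1, h2⟩ := k7 i hi hia hia'
        exact ⟨((hCB' i).1 h1).2.2, by simp [h2]⟩
  · refine ⟨{a, A a}, A a, ?_, by simp, by simp, hx1, x1o, ?_, ?_⟩
    · intro i hi
      rw [Finset.mem_insert, Finset.mem_singleton] at hi
      rcases hi with rfl | rfl
      · exact ha
      · exact x1m
    · intro i hi
      rw [Finset.mem_insert, Finset.mem_singleton] at hi
      rcases hi with rfl | rfl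
      · simp
      · rw [x1i]; simp
    · intro i hi h1 h2
      rw [Finset.mem_insert, Finset.mem_singleton] at hi
      rcases hi with rfl | rfl
      · exact absurd rfl h1
      · exact absurd rfl h2

/-- Parity of the number of elements of `χ` to the left of `j`. -/
def par (χ : Finset ℤ) (j : ℤ) : ℤ := (((χ.filter (fun c => c < j)).card % 2 : ℕ) : ℤ)

theorem par_zero_or_one (χ : Finset ℤ) (j : ℤ) : par χ j = 0 ∨ par χ j = 1 := by
  unfold par
  rcases Nat.mod_two_eq_zero_or_one (χ.filter (fun c => c < j)).card with h | h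
  · left; rw [h]; rfl
  · right; rw [h]; rfl

theorem par_eq_of {χ : Finset ℤ} {i j : ℤ} (hij : i ≤ j)
    (h : Even (χ.filter (fun c => i ≤ c ∧ c < j)).card) : par χ i = par χ j := by
  unfold par
  have e : χ.filter (fun c => c < j) =
      χ.filter (fun c => c < i) ∪ χ.filter (fun c => i ≤ c ∧ c < j) := by
    ext c; simp only [Finset.mem_filter, Finset.mem_union]
    constructor
    · rintro ⟨h1, h2⟩
      by_cases h : c < i
      · exact Or.inl ⟨h1, h⟩
      · exact Or.inr ⟨h1, by omega, h2⟩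
    · rintro (⟨h1, h2⟩ | ⟨h1, h2, h3⟩)
      · exact ⟨h1, by omega⟩
      · exact ⟨h1, h3⟩
  rw [e, Finset.card_union_of_disjoint]
  · obtain ⟨k, hk⟩ := h
    rw [hk]
    congr 1
    omega
  · rw [Finset.disjoint_left]
    intro c h1 h2
    simp only [Finset.mem_filter] at h1 h2
    omega

theorem par_inv {C χ : Finset ℤ} {A : ℤ → ℤ} (hA : Pr C A) (hsub : χ ⊆ C)
    (hcl : ∀ i ∈ χ, A i ∈ χ) (i : ℤ) (hi : i ∈ C) : par χ i = par χ (A i + 1) := by
  have hne : ∀ c ∈ χ, A c ≠ c := by
    intro c hc h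
    have := hA.odd c (hsub hc)
    rw [h] at this
    simp at this
  rcases lt_or_ge i (A i) with hlt | hge
  · refine par_eq_of (by omega) ?_
    refine even_card_of_invol (A := A) ?_ ?_ ?_
    · intro c hc
      simp only [Finset.mem_filter] at hc ⊢
      refine ⟨hcl c hc.1, ?_⟩
      rcases eq_or_ne c i with rfl | h1
      · omega
      · rcases eq_or_ne c (A i) with rfl | h2
        · rw [hA.invol i hi]; omega
        · have := hA.nc i hi c (hsub hc.1) (by omega) (by omega)
          omega
    · intro c hc; simp only [Finset.mem_filter] at hc; exact hA.invol c (hsub hc.1)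
    · intro c hc; simp only [Finset.mem_filter] at hc; exact hne c hc.1
  · have hne' : A i ≠ i := by
      intro h
      have := hA.odd i hi
      rw [h] at this
      simp at this
    have hlt : A i < i := lt_of_le_of_ne hge hne'
    symm
    refine par_eq_of (by omega) ?_
    refine even_card_of_invol (A := A) ?_ ?_ ?_
    · intro c hc
      simp only [Finset.mem_filter] at hc ⊢
      refine ⟨hcl c hc.1, ?_⟩
      have := hA.nc (A i) (hA.mem i hi) c (hsub hc.1) (by omega) (by rw [hA.invol i hi]; omega)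
      rw [hA.invol i hi] at this
      omega
    · intro c hc; simp only [Finset.mem_filter] at hc; exact hA.invol c (hsub hc.1)
    · intro c hc; simp only [Finset.mem_filter] at hc; exact hne c hc.1

/-- Removing two elements changes the parity between them. -/
theorem par_erase {χ : Finset ℤ} {a a' : ℤ} (h : a ∈ χ) (h' : a' ∈ χ) (hlt : a < a') (j : ℤ) :
    par χ j = if a < j ∧ j ≤ a' then 1 - par ((χ.erase a).erase a') j
      else par ((χ.erase a).erase a') j := by
  have h0 : a' ∈ χ.erase a := Finset.mem_erase.2 ⟨by omega, h'⟩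
  have e1 : (χ.filter (fun c => c < j)).card = ((χ.erase a).filter (fun c => c < j)).card +
      (if a < j then 1 else 0) := by
    rw [Finset.filter_erase (fun c => c < j) a χ]
    split_ifs with hc
    · have : a ∈ χ.filter (fun c => c < j) := Finset.mem_filter.2 ⟨h, hc⟩
      have h2 := Finset.card_erase_add_one this
      omega
    · have : a ∉ χ.filter (fun c => c < j) := by
        rw [Finset.mem_filter]; exact fun h => hc h.2
      rw [Finset.erase_eq_of_notMem this, Nat.add_zero]
  have e2 : ((χ.erase a).filter (fun c => c < j)).card =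
      (((χ.erase a).erase a').filter (fun c => c < j)).card + (if a' < j then 1 else 0) := by
    rw [Finset.filter_erase (fun c => c < j) a' (χ.erase a)]
    split_ifs with hc
    · have : a' ∈ (χ.erase a).filter (fun c => c < j) := Finset.mem_filter.2 ⟨h0, hc⟩
      have h2 := Finset.card_erase_add_one this
      omega
    · have : a' ∉ (χ.erase a).filter (fun c => c < j) := by
        rw [Finset.mem_filter]; exact fun h => hc h.2
      rw [Finset.erase_eq_of_notMem this, Nat.add_zero]
  unfold par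
  rw [e1, e2]
  split_ifs with c1 c2 c3 c4 c5 c6 <;> omega

theorem par_of_all_lt {χ : Finset ℤ} {j : ℤ} (h : ∀ c ∈ χ, c < j) (he : Even χ.card) :
    par χ j = 0 := by
  unfold par
  rw [Finset.filter_true_of_mem h, Nat.even_iff.1 he]
  rfl

theorem par_of_none_lt {χ : Finset ℤ} {j : ℤ} (h : ∀ c ∈ χ, j ≤ c) : par χ j = 0 := by
  unfold par
  rw [Finset.filter_false_of_mem (fun c hc => not_lt.2 (h c hc))]
  rfl

theorem sum_between {a a' : ℤ} {s : Finset ℤ} {F : ℤ → ℝ} (hlt : a < a')
    (hs : ∀ j, a < j → j ≤ a' → j ∈ s)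
    (hF : ∀ j ∈ s, F j = if a < j ∧ j ≤ a' then π else 0) :
    ∑ j ∈ s, F j = π * ((a' - a : ℤ) : ℝ) := by
  rw [Finset.sum_congr rfl hF, ← Finset.sum_filter]
  have e : s.filter (fun j => a < j ∧ j ≤ a') = Ioc a a' := by
    ext j; rw [Finset.mem_filter, Finset.mem_Ioc]
    exact ⟨fun h => h.2, fun h => ⟨hs j h.1 h.2, h⟩⟩
  rw [e, Finset.sum_const, Int.card_Ioc, nsmul_eq_mul, mul_comm]
  congr 1
  have h1 : (((a' - a).toNat : ℤ) : ℝ) = ((a' - a : ℤ) : ℝ) := by
    rw [Int.toNat_of_nonneg (by omega)]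
  rw [← h1]
  norm_cast

/-- The final arithmetic. -/
theorem parity_contra {SA SB X KA KB : ℝ} {mA mB d : ℤ} (hX : SA = SB + X) (hd : X = π * (d : ℝ))
    (hodd : Odd d) (a1 : 0 ≤ 2 * π * mA - SA) (a2 : 2 * π * mA - SA ≤ KA)
    (b1 : 0 ≤ 2 * π * mB - SB) (b2 : 2 * π * mB - SB ≤ KB) (hKA : KA < π) (hKB : KB < π) :
    False := by
  have hπ := Real.pi_pos
  obtain ⟨e, he⟩ := hodd
  have h1 : (-1 : ℝ) < ((2 * (mA - mB) - d : ℤ) : ℝ) := by
    push_cast
    have : π * (-1) < π * (2 * ((mA : ℝ) - mB) - d) := by nlinarith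
    exact lt_of_mul_lt_mul_left this hπ.le
  have h2 : ((2 * (mA - mB) - d : ℤ) : ℝ) < 1 := by
    push_cast
    have : π * (2 * ((mA : ℝ) - mB) - d) < π * 1 := by nlinarith
    exact lt_of_mul_lt_mul_left this hπ.le
  have h3 : -1 < 2 * (mA - mB) - d := by exact_mod_cast h1
  have h4 : 2 * (mA - mB) - d < 1 := by exact_mod_cast h2
  omega

theorem int_contra_right {D : PD ℤ} {x0 y0 u y1 y2 : ℤ} (h0 : x0 < y0) (he : Even (y0 - x0))
    (h1 : Strip D x0 y0 u y1) (h2 : Strip D x0 y0 u y2) (hlt : y1 < y2)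
    (hf : ∀ j, y1 ≤ j → j < y2 → D.ang j = π) (K1 : tau D (pts x0 y0 u y1) < π)
    (K2 : tau D (pts x0 y0 u y2) < π) : False := by
  obtain ⟨A, hA⟩ := h2.cells h0 he
  obtain ⟨B, hB⟩ := h1.cells h0 he
  have l1 := hA.le1
  have l2 := hB.le2
  have mA : ∀ i, i ∈ cells x0 y0 u y2 ↔ ((u ≤ i ∧ i < x0) ∨ (y0 ≤ i ∧ i < y2)) := by
    intro i; simp [cells]
  have mB : ∀ i, i ∈ cells x0 y0 u y1 ↔ ((u ≤ i ∧ i < x0) ∨ (y0 ≤ i ∧ i < y1)) := by
    intro i; simp [cells]
  obtain ⟨χ, a', k1, k2, k3, k4, k5, k6, k7⟩ := exists_path _ (cells x0 y0 u y2)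
    (cells x0 y0 u y1) A B y1 rfl (by intro i hi; rw [mB] at hi; rw [mA]; omega)
    (fun i hi => ⟨hA.pr.mem i hi, hA.pr.invol i hi, hA.pr.odd i hi⟩)
    (fun i hi => ⟨hB.pr.mem i hi, hB.pr.invol i hi, hB.pr.odd i hi⟩)
    (by rw [mA]; omega) (by rw [mB]; omega)
  have ha' : y1 ≤ a' ∧ a' < y2 := by
    have h3 := (mA a').1 (k1 k3)
    rw [mB] at k4
    omega
  have hne : y1 < a' := by
    rcases eq_or_lt_of_le ha'.1 with h | h
    · rw [← h] at k5; simp at k5
    · exact h
  set χB := (χ.erase y1).erase a' with hχB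
  have hBmem : ∀ i ∈ χB, i ∈ cells x0 y0 u y1 ∧ B i ∈ χB := by
    intro i hi
    rw [hχB, Finset.mem_erase, Finset.mem_erase] at hi
    obtain ⟨h3, h4⟩ := k7 i hi.2.2 hi.2.1 hi.1
    refine ⟨h3, ?_⟩
    have h5 := hB.pr.mem i h3
    rw [hχB, Finset.mem_erase, Finset.mem_erase]
    refine ⟨?_, ?_, h4⟩
    · rintro rfl; exact k4 h5
    · intro h6; rw [h6, mB] at h5; omega
  have heven : Even χB.card := by
    refine even_card_of_invol (A := B) (fun i hi => (hBmem i hi).2)
      (fun i hi => hB.pr.invol i (hBmem i hi).1) (fun i hi h => ?_)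
    have := hB.pr.odd i (hBmem i hi).1
    rw [h] at this
    simp at this
  obtain ⟨nA, a1, a2⟩ := hA.fn (par χ) (par_zero_or_one χ) (fun i hi => par_inv hA.pr k1 k6 i hi)
  obtain ⟨nB, b1, b2⟩ := hB.fn (par χB) (par_zero_or_one χB) (fun i hi =>
    par_inv hB.pr (fun c hc => (hBmem c hc).1) (fun c hc => (hBmem c hc).2) i hi)
  have hsplit : pts x0 y0 u y2 = pts x0 y0 u y1 ∪ Ico y1 y2 := by
    ext j
    simp only [pts, Finset.mem_union, Finset.mem_Ioc, Finset.mem_Ico]
    omega
  have hdisj : Disjoint (pts x0 y0 u y1) (Ico y1 y2) := by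
    rw [Finset.disjoint_left]
    intro j hj
    simp only [pts, Finset.mem_union, Finset.mem_Ioc, Finset.mem_Ico] at hj ⊢
    omega
  have e1 : ∑ j ∈ pts x0 y0 u y2, (par χ j : ℝ) * D.ang j =
      ∑ j ∈ pts x0 y0 u y1, (par χB j : ℝ) * D.ang j +
        ∑ j ∈ Ico y1 y2, (par χ j : ℝ) * D.ang j := by
    rw [hsplit, Finset.sum_union hdisj]
    congr 1
    refine Finset.sum_congr rfl (fun j hj => ?_)
    simp only [pts, Finset.mem_union, Finset.mem_Ioc, Finset.mem_Ico] at hj
    rw [par_erase k2 k3 hne, if_neg (by omega)]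
  have e2 : ∑ j ∈ Ico y1 y2, (par χ j : ℝ) * D.ang j = π * ((a' - y1 : ℤ) : ℝ) := by
    refine sum_between hne (fun j h3 h4 => Finset.mem_Ico.2 (by omega)) (fun j hj => ?_)
    rw [Finset.mem_Ico] at hj
    have h6 : par χB j = 0 := by
      refine par_of_all_lt (fun c hc => ?_) heven
      have := (mB c).1 (hBmem c hc).1
      omega
    rw [par_erase k2 k3 hne, h6, hf j hj.1 hj.2]
    split_ifs <;> simp
  exact parity_contra e1 e2 k5 a1 a2 b1 b2 K2 K1

theorem int_contra_left {D : PD ℤ} {x0 y0 u1 u2 y : ℤ} (h0 : x0 < y0) (he : Even (y0 - x0))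
    (h1 : Strip D x0 y0 u1 y) (h2 : Strip D x0 y0 u2 y) (hlt : u1 < u2)
    (hf : ∀ j, u1 < j → j ≤ u2 → D.ang j = π) (K1 : tau D (pts x0 y0 u1 y) < π)
    (K2 : tau D (pts x0 y0 u2 y) < π) : False := by
  obtain ⟨A, hA⟩ := h1.cells h0 he
  obtain ⟨B, hB⟩ := h2.cells h0 he
  have l1 := hB.le1
  have l2 := hA.le2
  have mA : ∀ i, i ∈ cells x0 y0 u1 y ↔ ((u1 ≤ i ∧ i < x0) ∨ (y0 ≤ i ∧ i < y)) := by
    intro i; simp [cells]
  have mB : ∀ i, i ∈ cells x0 y0 u2 y ↔ ((u2 ≤ i ∧ i < x0) ∨ (y0 ≤ i ∧ i < y)) := by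
    intro i; simp [cells]
  obtain ⟨χ, a', k1, k2, k3, k4, k5, k6, k7⟩ := exists_path _ (cells x0 y0 u1 y)
    (cells x0 y0 u2 y) A B u1 rfl (by intro i hi; rw [mB] at hi; rw [mA]; omega)
    (fun i hi => ⟨hA.pr.mem i hi, hA.pr.invol i hi, hA.pr.odd i hi⟩)
    (fun i hi => ⟨hB.pr.mem i hi, hB.pr.invol i hi, hB.pr.odd i hi⟩)
    (by rw [mA]; omega) (by rw [mB]; omega)
  have ha' : u1 ≤ a' ∧ a' < u2 := by
    have h3 := (mA a').1 (k1 k3)
    rw [mB] at k4
    omega
  have hne : u1 < a' := by
    rcases eq_or_lt_of_le ha'.1 with h | h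
    · rw [← h] at k5; simp at k5
    · exact h
  set χB := (χ.erase u1).erase a' with hχB
  have hBmem : ∀ i ∈ χB, i ∈ cells x0 y0 u2 y ∧ B i ∈ χB := by
    intro i hi
    rw [hχB, Finset.mem_erase, Finset.mem_erase] at hi
    obtain ⟨h3, h4⟩ := k7 i hi.2.2 hi.2.1 hi.1
    refine ⟨h3, ?_⟩
    have h5 := hB.pr.mem i h3
    rw [hχB, Finset.mem_erase, Finset.mem_erase]
    refine ⟨?_, ?_, h4⟩
    · rintro rfl; exact k4 h5
    · intro h6; rw [h6, mB] at h5; omega
  obtain ⟨nA, a1, a2⟩ := hA.fn (par χ) (par_zero_or_one χ) (fun i hi => par_inv hA.pr k1 k6 i hi)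
  obtain ⟨nB, b1, b2⟩ := hB.fn (par χB) (par_zero_or_one χB) (fun i hi =>
    par_inv hB.pr (fun c hc => (hBmem c hc).1) (fun c hc => (hBmem c hc).2) i hi)
  have hsplit : pts x0 y0 u1 y = pts x0 y0 u2 y ∪ Ioc u1 u2 := by
    ext j
    simp only [pts, Finset.mem_union, Finset.mem_Ioc, Finset.mem_Ico]
    omega
  have hdisj : Disjoint (pts x0 y0 u2 y) (Ioc u1 u2) := by
    rw [Finset.disjoint_left]
    intro j hj
    simp only [pts, Finset.mem_union, Finset.mem_Ioc, Finset.mem_Ico] at hj ⊢
    omega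
  have e1 : ∑ j ∈ pts x0 y0 u1 y, (par χ j : ℝ) * D.ang j =
      ∑ j ∈ pts x0 y0 u2 y, (par χB j : ℝ) * D.ang j +
        ∑ j ∈ Ioc u1 u2, (par χ j : ℝ) * D.ang j := by
    rw [hsplit, Finset.sum_union hdisj]
    congr 1
    refine Finset.sum_congr rfl (fun j hj => ?_)
    simp only [pts, Finset.mem_union, Finset.mem_Ioc, Finset.mem_Ico] at hj
    rw [par_erase k2 k3 hne, if_neg (by omega)]
  have e2 : ∑ j ∈ Ioc u1 u2, (par χ j : ℝ) * D.ang j = π * ((a' - u1 : ℤ) : ℝ) := by
    refine sum_between hne (fun j h3 h4 => Finset.mem_Ioc.2 (by omega)) (fun j hj => ?_)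
    rw [Finset.mem_Ioc] at hj
    have h6 : par χB j = 0 := by
      refine par_of_none_lt (fun c hc => ?_)
      have := (mB c).1 (hBmem c hc).1
      omega
    rw [par_erase k2 k3 hne, h6, hf j hj.1 hj.2]
    split_ifs <;> simp
  exact parity_contra e1 e2 k5 a1 a2 b1 b2 K1 K2

end Pool.Agent.MP33

end
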