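import Pool.Agent.Work.MP_33efdc_lc.Transfer

/-! Bundle of small proof modules (one section per former module). -/

section

/-!
# Tracks
-/

set_option autoImplicit false

namespace Pool.Agent.MP33

open Real Finset

/-- The assumptions on the boundary data. -/
structure PD.OK (D : PD ℝ) : Prop where
  mono : D.Mono
  pos : ∀ i < D.n, 0 < D.al i
  last : 0 ≤ D.al D.n
  le : ∀ i ≤ D.n, D.al i ≤ 2 * π

section

variable {D : PD ℝ}

theorem PD.Mono.le_iff (h : D.Mono) {i j : ℕ} (hi : i ≤ D.n) (hj : j ≤ D.n) :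
    D.v i ≤ D.v j ↔ i ≤ j := by
  constructor
  · intro h1
    by_contra hc
    exact absurd (h j i (by omega) hi) (not_lt.2 h1)
  · intro h1
    rcases eq_or_lt_of_le h1 with rfl | h2
    · exact le_refl _
    · exact (h i j h2 hj).le

theorem PD.Mono.lt_iff (h : D.Mono) {i j : ℕ} (hi : i ≤ D.n) (hj : j ≤ D.n) :
    D.v i < D.v j ↔ i < j := by
  rw [← not_le, ← not_le, h.le_iff hj hi]

theorem ang_v (h : D.Mono) {i : ℕ} (hi : i ≤ D.n) : D.ang (D.v i) = D.al i := by
  unfold PD.ang
  have h0 : ∃ j, j ≤ D.n ∧ D.v j = D.v i := ⟨i, hi, rfl⟩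
  rw [dif_pos h0]
  obtain ⟨h1, h2⟩ := h0.choose_spec
  congr 1
  have h3 := (h.le_iff h1 hi).1 h2.le
  have h4 := (h.le_iff hi h1).1 h2.ge
  omega

/-- `x` is not a vertex. -/
def PD.free (D : PD ℝ) (x : ℝ) : Prop := ∀ i ≤ D.n, D.v i ≠ x

theorem ang_free {x : ℝ} (h : D.free x) : D.ang x = π := by
  unfold PD.ang
  rw [dif_neg]
  rintro ⟨i, hi, hx⟩
  exact h i hi hx

theorem free_or (x : ℝ) : D.free x ∨ ∃ i ≤ D.n, D.v i = x := by
  by_cases h : ∃ i ≤ D.n, D.v i = x
  · exact Or.inr h
  · left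
    intro i hi hx
    exact h ⟨i, hi, hx⟩

theorem free_of (h : D.Mono) {a : ℕ} {x : ℝ} (ha : a < D.n) (h1 : D.v a < x) (h2 : x < D.v (a + 1)) :
    D.free x := by
  rintro i hi rfl
  rw [h.lt_iff (by omega) hi] at h1
  rw [h.lt_iff hi (by omega)] at h2
  omega

theorem flat_of (h : D.Mono) {a : ℕ} {x y : ℝ} (ha : a < D.n) (h1 : D.v a ≤ x)
    (h2 : y ≤ D.v (a + 1)) : D.flat x y := by
  intro i hi
  rcases Nat.lt_or_ge a i with h3 | h3
  · right
    exact h2.trans ((h.le_iff (by omega) hi).2 h3)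
  · left
    exact ((h.le_iff hi (by omega)).2 h3).trans h1

theorem ang_pos (h : D.OK) {x : ℝ} (hx : x < D.v D.n) : 0 < D.ang x := by
  rcases free_or (D := D) x with h1 | ⟨i, hi, rfl⟩
  · rw [ang_free h1]; exact Real.pi_pos
  · rw [ang_v h.mono hi]
    rw [h.mono.lt_iff hi (le_refl _)] at hx
    exact h.pos i hx

theorem ang_nonneg (h : D.OK) (x : ℝ) : 0 ≤ D.ang x := by
  rcases free_or (D := D) x with h1 | ⟨i, hi, rfl⟩
  · rw [ang_free h1]; exact Real.pi_pos.le
  · rw [ang_v h.mono hi]
    rcases Nat.lt_or_ge i D.n with h2 | h2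
    · exact (h.pos i h2).le
    · rw [le_antisymm hi h2]; exact h.last

theorem ang_le (h : D.OK) (x : ℝ) : D.ang x ≤ 2 * π := by
  rcases free_or (D := D) x with h1 | ⟨i, hi, rfl⟩
  · rw [ang_free h1]; linarith [Real.pi_pos]
  · rw [ang_v h.mono hi]; exact h.le i hi

theorem Nd.le {p q θ : ℝ} (h : Nd D p q θ) : p ≤ q := by
  induction h with
  | single p => exact le_refl _
  | snoc _ hs _ _ _ _ ih1 ih2 => linarith

theorem Ch.lt {p q : ℝ} (h : Ch D p q) : p < q := by
  obtain ⟨s, r, θ, rfl, hs, _, hn, _, _⟩ := h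
  have := hn.le
  linarith

/-- The last step of a chain. -/
theorem Nd.cases_last {p q θ : ℝ} (h : Nd D p q θ) :
    (p = q ∧ θ = D.ang p) ∨ ∃ q0 θ0, Nd D p q0 θ0 ∧ Ch D q0 q ∧ θ = θ0 + D.ang q := by
  cases h with
  | single => exact Or.inl ⟨rfl, rfl⟩
  | snoc h1 hs f1 h2 hθ f2 =>
    exact Or.inr ⟨_, _, h1, ⟨_, _, _, rfl, hs, f1, h2, hθ, f2⟩, rfl⟩

theorem Nd.append {p q r θ θ' : ℝ} (h : Nd D p q θ) (h' : Nd D q r θ') :
    Nd D p r (θ + θ' - D.ang q) := by
  induction h' with
  | single q => rwa [add_sub_cancel_right]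
  | @snoc q q1 s r' θ1 θ2 h1 hs f1 h2 hθ f2 ih1 _ =>
    have := (ih1 h).snoc hs f1 h2 hθ f2
    convert this using 1
    ring

theorem Ch.nd {p q : ℝ} (h : Ch D p q) : Nd D p q (D.ang p + D.ang q) :=
  (Nd.single p).snoc' h

/-- The first step of a chain. -/
theorem Nd.cases_first {p q θ : ℝ} (h : Nd D p q θ) :
    (p = q ∧ θ = D.ang p) ∨ ∃ q1 θ1, Ch D p q1 ∧ Nd D q1 q θ1 ∧ θ = D.ang p + θ1 := by
  induction h with
  | single p => exact Or.inl ⟨rfl, rfl⟩
  | @snoc p q s r θ θ' h1 hs f1 h2 hθ f2 ih1 _ =>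
    have hc : Ch D q (r + s) := ⟨_, _, _, rfl, hs, f1, h2, hθ, f2⟩
    right
    rcases ih1 with ⟨rfl, rfl⟩ | ⟨q1, θ1, h3, h4, rfl⟩
    · exact ⟨r + s, D.ang (r + s), hc, Nd.single _, rfl⟩
    · exact ⟨q1, θ1 + D.ang (r + s), h3, h4.snoc' hc, by ring⟩

theorem Nd.cons {p q r θ : ℝ} (h : Ch D p q) (h' : Nd D q r θ) : Nd D p r (D.ang p + θ) := by
  have := h.nd.append h'
  convert this using 1
  ring

/-- Lower bounds for the angle of a chain. -/
theorem Nd.ge (hD : D.OK) {p q θ : ℝ} (h : Nd D p q θ) :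
    D.ang p ≤ θ ∧ (p < q → D.ang p + D.ang q ≤ θ) := by
  induction h with
  | single p => exact ⟨le_refl _, fun h => absurd h (lt_irrefl _)⟩
  | @snoc p q s r θ θ' h1 hs f1 h2 hθ f2 ih1 _ =>
    have := ang_nonneg hD (r + s)
    exact ⟨by linarith [ih1.1], fun _ => by linarith [ih1.1]⟩

theorem Nd.gt (hD : D.OK) {p q θ : ℝ} (h : Nd D p q θ) (hpq : p < q) (hq : q < D.v D.n) :
    D.ang p < θ := by
  have := (h.ge hD).2 hpq
  have := ang_pos hD hq
  linarith

/-- Outward extension of a node. -/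
theorem Nd.ch {p q θ s : ℝ} (h : Nd D p q θ) (hθ : θ ≤ 2 * π) (hs : 0 < s)
    (f1 : D.flat (p - s) p) (f2 : D.flat q (q + s)) : Ch D (p - s) (q + s) := by
  refine ⟨s, q, θ, rfl, hs, ?_, ?_, hθ, f2⟩
  · rwa [sub_add_cancel]
  · rwa [sub_add_cancel]

/-- The inner end of a track. -/
noncomputable def xin (D : PD ℝ) (a b : ℕ) (c : ℝ) : ℝ :=
  if a = b then c / 2 else min (D.v (a + 1)) (c - D.v b)

/-- The track `(a, b, c)` is closable. -/
def Trk (D : PD ℝ) (a b : ℕ) (c : ℝ) : Prop :=
  D.v a + D.v b < c ∧ c < D.v (a + 1) + D.v (b + 1) ∧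
    ∃ θ ≤ 2 * π, Nd D (xin D a b c) (c - xin D a b c) θ

theorem trk_self (hD : D.OK) {a : ℕ} (ha : a < D.n) {c : ℝ} :
    Trk D a a c ↔ 2 * D.v a < c ∧ c < 2 * D.v (a + 1) := by
  unfold Trk xin
  rw [if_pos rfl]
  constructor
  · rintro ⟨h1, h2, _⟩; constructor <;> linarith
  · rintro ⟨h1, h2⟩
    refine ⟨by linarith, by linarith, π, by linarith [Real.pi_pos], ?_⟩
    have : c - c / 2 = c / 2 := by ring
    rw [this]
    have h3 := Nd.single (D := D) (c / 2)
    rwa [ang_free (free_of hD.mono ha (by linarith) (by linarith))] at h3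

/-- A node between two edge-interior points is trivial. -/
theorem Nd.ch_of_free (hD : D.OK) {p q θ : ℝ} (h : Nd D p q θ) (hθ : θ ≤ 2 * π) (hpq : p < q)
    (hqn : q ≤ D.v D.n) (hp : D.free p) (hq : D.free q) : Ch D p q := by
  rcases h.cases_last with ⟨rfl, _⟩ | ⟨q0, θ0, h1, h2, rfl⟩
  · exact absurd hpq (lt_irrefl _)
  · have h3 := h1.le
    have h4 := h2.lt
    rw [ang_free hq] at hθ
    rcases eq_or_lt_of_le h3 with rfl | h5
    · exact h2
    · have h6 := h1.gt hD h5 (by linarith)
      rw [ang_free hp] at h6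
      linarith

theorem node_of_nd (hD : D.OK) {a b : ℕ} (hab : a < b) (hb : b < D.n) {p q θ : ℝ}
    (h : Nd D p q θ) : θ ≤ 2 * π → D.v a < p → p ≤ D.v (a + 1) → D.v b ≤ q → q < D.v (b + 1) →
    ∃ θ' ≤ 2 * π, Nd D (xin D a b (p + q)) (p + q - xin D a b (p + q)) θ' := by
  have hab' : D.v (a + 1) ≤ D.v b := (hD.mono.le_iff (by omega) (by omega)).2 hab
  have hbn : D.v (b + 1) ≤ D.v D.n := (hD.mono.le_iff (by omega) (by omega)).2 (by omega)
  induction h with
  | single p =>
    intro hθ h1 h2 h3 h4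
    have h5 : p = D.v (a + 1) := le_antisymm h2 (by linarith)
    refine ⟨_, hθ, ?_⟩
    have : xin D a b (p + p) = p := by
      unfold xin
      rw [if_neg (by omega)]
      rw [min_eq_left (by linarith), h5]
    rw [this, add_sub_cancel_right]
    exact Nd.single p
  | @snoc p q0 s r θ θ' hn1 hs f1 hn2 hθ' f2 _ ih2 =>
    intro hθ h1 h2 h3 h4
    rcases eq_or_lt_of_le h2 with h5 | h5
    · refine ⟨_, hθ, ?_⟩
      have : xin D a b (p + (r + s)) = p := by
        unfold xin
        rw [if_neg (by omega), min_eq_left (by linarith), h5]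
      rw [this, add_sub_cancel_left]
      exact hn1.snoc hs f1 hn2 hθ' f2
    · rcases eq_or_lt_of_le h3 with h6 | h6
      · refine ⟨_, hθ, ?_⟩
        have : xin D a b (p + (r + s)) = p := by
          unfold xin
          rw [if_neg (by omega), min_eq_right (by linarith), ← h6]; ring
        rw [this, add_sub_cancel_left]
        exact hn1.snoc hs f1 hn2 hθ' f2
      · have fp := free_of hD.mono (by omega) h1 h5
        have fq := free_of hD.mono hb h6 h4
        have l1 := hn1.le
        have l2 := hn2.le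
        have e0 : q0 = p := by
          rcases eq_or_lt_of_le l1 with h | h
          · exact h.symm
          · exfalso
            have h7 := hn1.gt hD h (by linarith)
            rw [ang_free fp] at h7
            rw [ang_free fq] at hθ
            linarith
        subst e0
        have h8 : q0 + s ≤ D.v (a + 1) := by
          rcases f1 (a + 1) (by omega) with h | h
          · linarith
          · exact h
        have h9 : D.v b ≤ r := by
          rcases f2 b (by omega) with h | h
          · exact h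
          · linarith
        obtain ⟨θ1, h10, h11⟩ := ih2 hθ' (by linarith) h8 h9 (by linarith)
        have e1 : q0 + s + r = q0 + (r + s) := by ring
        rw [e1] at h11
        exact ⟨θ1, h10, h11⟩

theorem ch_iff_trk (hD : D.OK) {a b : ℕ} (hab : a ≤ b) (hb : b < D.n) {x y : ℝ}
    (h1 : D.v a ≤ x) (h2 : x < D.v (a + 1)) (h3 : D.v b < y) (h4 : y ≤ D.v (b + 1))
    (hxy : x < y) : Ch D x y ↔ Trk D a b (x + y) := by
  rcases eq_or_lt_of_le hab with rfl | hab'
  · rw [trk_self hD hb]
    refine ⟨fun _ => ⟨by linarith, by linarith⟩, fun _ => ?_⟩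
    have hf : D.free ((x + y) / 2) := free_of hD.mono hb (by linarith) (by linarith)
    have h5 := Nd.single (D := D) ((x + y) / 2)
    have h6 := h5.ch (s := (y - x) / 2) (by rw [ang_free hf]; linarith [Real.pi_pos]) (by linarith)
      (flat_of hD.mono hb (by linarith) (by linarith)) (flat_of hD.mono hb (by linarith) (by linarith))
    convert h6 using 1 <;> ring
  · have e1 : D.v (a + 1) ≤ D.v b := (hD.mono.le_iff (by omega) (by omega)).2 hab'
    have hx : xin D a b (x + y) = min (D.v (a + 1)) (x + y - D.v b) := by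
      unfold xin; rw [if_neg (by omega)]
    have hx1 : xin D a b (x + y) ≤ D.v (a + 1) := by rw [hx]; exact min_le_left _ _
    have hx2 : xin D a b (x + y) ≤ x + y - D.v b := by rw [hx]; exact min_le_right _ _
    have hx3 : x < xin D a b (x + y) := by rw [hx]; exact lt_min h2 (by linarith)
    constructor
    · rintro ⟨s, r, θ, rfl, hs, f1, hn, hθ, f2⟩
      refine ⟨by linarith, by linarith, ?_⟩
      have h8 : x + s ≤ D.v (a + 1) := by
        rcases f1 (a + 1) (by omega) with h | h
        · linarith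
        · exact h
      have h9 : D.v b ≤ r := by
        rcases f2 b (by omega) with h | h
        · exact h
        · linarith
      obtain ⟨θ', h5, h6⟩ := node_of_nd hD hab' hb hn hθ (by linarith) h8 h9 (by linarith)
      have e2 : x + s + r = x + (r + s) := by ring
      rw [e2] at h6
      exact ⟨θ', h5, h6⟩
    · rintro ⟨_, _, θ, h5, h6⟩
      have h7 := h6.ch (s := xin D a b (x + y) - x) h5 (by linarith)
        (flat_of hD.mono (a := a) (by omega) (by linarith) (by linarith))
        (flat_of hD.mono (a := b) hb (by linarith) (by linarith))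
      convert h7 using 1 <;> ring

end

end Pool.Agent.MP33

end

section

/-!
# The recursion for tracks
-/

set_option autoImplicit false

namespace Pool.Agent.MP33

open Real Finset

section

variable {D : PD ℝ}

/-- Chains consisting of vertices. -/
inductive VC (D : PD ℝ) : ℕ → ℕ → ℝ → Prop
  | single (i : ℕ) : VC D i i (D.al i)
  | snoc {i p j : ℕ} {θ : ℝ} : VC D i p θ → p ≤ j → Trk D p j (D.v p + D.v (j + 1)) →
      VC D i (j + 1) (θ + D.al (j + 1))

theorem VC.le {i j : ℕ} {θ : ℝ} (h : VC D i j θ) : i ≤ j := by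
  induction h with
  | single => exact le_refl _
  | snoc _ _ _ _ => omega

theorem VC.nd (hD : D.OK) {i j : ℕ} {θ : ℝ} (h : VC D i j θ) (hj : j ≤ D.n) :
    Nd D (D.v i) (D.v j) θ := by
  induction h with
  | single =>
    have := Nd.single (D := D) (D.v i)
    rwa [ang_v hD.mono hj] at this
  | @snoc p j θ h1 hp ht ih =>
    have h2 := ih (by omega)
    have h3 : Ch D (D.v p) (D.v (j + 1)) := by
      rw [ch_iff_trk hD hp (by omega) (le_refl _) ((hD.mono.lt_iff (by omega) (by omega)).2
        (by omega)) ((hD.mono.lt_iff (by omega) (by omega)).2 (by omega)) (le_refl _)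
        ((hD.mono.lt_iff (by omega) (by omega)).2 (by omega))]
      exact ht
    have h4 := h2.snoc' h3
    rwa [ang_v hD.mono hj] at h4

/-- Chains of vertices with one edge-interior point at the end. -/
def VX (D : PD ℝ) (i : ℕ) (x θ : ℝ) : Prop :=
  ∃ s θ1, VC D i s θ1 ∧ Ch D (D.v s) x ∧ θ = θ1 + π ∧ s ≤ D.n

/-- Chains of vertices with one edge-interior point inside. -/
def VXV (D : PD ℝ) (i j : ℕ) (θ : ℝ) : Prop :=
  ∃ s t x θ1 θ2, VC D i s θ1 ∧ Ch D (D.v s) x ∧ D.free x ∧ Ch D x (D.v t) ∧ VC D t j θ2 ∧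
    θ = θ1 + π + θ2 ∧ s ≤ D.n ∧ t ≤ D.n

theorem VC.ge (hD : D.OK) {i j : ℕ} {θ : ℝ} (h : VC D i j θ) (hj : j ≤ D.n) : D.al i ≤ θ := by
  have h1 := (h.nd hD hj).ge hD
  rw [ang_v hD.mono (h.le.trans hj)] at h1
  exact h1.1

theorem Ch.vertices (hD : D.OK) {p j : ℕ} (hp : p ≤ D.n) (hj : j ≤ D.n)
    (h : Ch D (D.v p) (D.v j)) : ∃ j', j = j' + 1 ∧ p ≤ j' ∧ Trk D p j' (D.v p + D.v (j' + 1)) := by
  have h1 := (hD.mono.lt_iff hp hj).1 h.lt
  obtain ⟨j', rfl⟩ : ∃ j', j = j' + 1 := ⟨j - 1, by omega⟩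
  refine ⟨j', rfl, by omega, ?_⟩
  rwa [ch_iff_trk hD (a := p) (b := j') (by omega) (by omega) (le_refl _)
    ((hD.mono.lt_iff (by omega) (by omega)).2 (by omega))
    ((hD.mono.lt_iff (by omega) (by omega)).2 (by omega)) (le_refl _) h.lt] at h

/-- Classification of the nodes starting at a vertex. -/
theorem nd_classify (hD : D.OK) {p q θ : ℝ} (h : Nd D p q θ) :
    ∀ i, i < D.n → p = D.v i → q ≤ D.v D.n → θ ≤ 2 * π →
    (∃ j ≤ D.n, q = D.v j ∧ VC D i j θ) ∨ (D.free q ∧ VX D i q θ) ∨
    (∃ j ≤ D.n, q = D.v j ∧ VXV D i j θ) := by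
  induction h with
  | single p =>
    rintro i hi rfl _ _
    left
    refine ⟨i, hi.le, rfl, ?_⟩
    rw [ang_v hD.mono hi.le]
    exact VC.single i
  | @snoc p q0 s r θ θ' hn1 hs f1 hn2 hθ' f2 ih1 _ =>
    rintro i hi rfl hq hθ
    have hc : Ch D q0 (r + s) := ⟨_, _, _, rfl, hs, f1, hn2, hθ', f2⟩
    have hlt := hc.lt
    have hq0 : q0 < D.v D.n := by linarith
    have hπ := Real.pi_pos
    have hi0 := hD.pos i hi
    have ha := ang_nonneg hD (r + s)
    have hstep : ∀ s' θ1, VC D i s' θ1 → s' ≤ D.n → Ch D (D.v s') (r + s) →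
        (∃ j ≤ D.n, r + s = D.v j ∧ VC D i j (θ1 + D.ang (r + s))) ∨
        (D.free (r + s) ∧ VX D i (r + s) (θ1 + D.ang (r + s))) := by
      intro s' θ1 h1 h2 h3
      rcases free_or (D := D) (r + s) with h4 | ⟨j, hj, h4⟩
      · right
        exact ⟨h4, s', θ1, h1, h3, by rw [ang_free h4], h2⟩
      · left
        rw [← h4] at h3
        obtain ⟨j', rfl, h5, h6⟩ := h3.vertices hD h2 hj
        refine ⟨j' + 1, hj, h4.symm, ?_⟩
        rw [← h4, ang_v hD.mono hj]
        exact h1.snoc h5 h6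
    rcases ih1 i hi rfl hq0.le (by linarith) with ⟨j, hj, rfl, h1⟩ | ⟨h1, s', θ1, h2, h3, rfl, h4⟩ |
      ⟨j, hj, rfl, s', t, x, θ1, θ2, h1, h2, h3, h4, h5, rfl, hsn, h6⟩
    · rcases hstep j θ h1 hj hc with h2 | h2
      · exact Or.inl h2
      · exact Or.inr (Or.inl h2)
    · rcases free_or (D := D) (r + s) with h5 | ⟨j, hj, h5⟩
      · exfalso
        rw [ang_free h5] at hθ
        have := h2.ge hD h4
        linarith
      · right; right
        refine ⟨j, hj, h5.symm, s', j, q0, θ1, D.al j, h2, h3, h1, ?_, VC.single j, ?_, h4, hj⟩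
        · rw [h5]; exact hc
        · rw [← h5, ang_v hD.mono hj]
    · have hjt := h5.le
      have hs' := h1.le
      rcases free_or (D := D) (r + s) with h7 | ⟨j', hj', h7⟩
      · exfalso
        rw [ang_free h7] at hθ
        have := h1.ge hD hsn
        have h8 : 0 ≤ θ2 := (ang_nonneg hD _).trans ((h5.nd hD hj).ge hD).1
        linarith
      · right; right
        rw [← h7] at hc
        obtain ⟨j'', rfl, h8, h9⟩ := hc.vertices hD hj hj'
        refine ⟨j'' + 1, hj', h7.symm, s', t, x, θ1, θ2 + D.al (j'' + 1), h1, h2, h3, h4,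
          h5.snoc h8 h9, ?_, hsn, h6⟩
        rw [← h7, ang_v hD.mono hj']
        ring

/-- The edge containing a free point. -/
theorem exists_edge (hD : D.OK) {x : ℝ} (hx : D.free x) {s t : ℕ} (hs : D.v s < x)
    (ht : x < D.v t) (htn : t ≤ D.n) (hsn : s ≤ D.n) :
    ∃ f, s ≤ f ∧ f < t ∧ D.v f < x ∧ x < D.v (f + 1) := by
  have hst : s < t := (hD.mono.lt_iff hsn htn).1 (hs.trans ht)
  induction t with
  | zero => omega
  | succ t ih =>
    rcases lt_trichotomy (D.v t) x with h | h | h
    · exact ⟨t, by omega, by omega, h, ht⟩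
    · exact absurd h (hx t (by omega))
    · obtain ⟨f, h1, h2, h3, h4⟩ := ih h (by omega) ((hD.mono.lt_iff hsn (by omega)).1 (hs.trans h))
      exact ⟨f, h1, by omega, h3, h4⟩

/-- Nodes between two vertices. -/
theorem nv_iff (hD : D.OK) {i j : ℕ} (hi : i < D.n) (hj : j ≤ D.n) :
    (∃ θ ≤ 2 * π, Nd D (D.v i) (D.v j) θ) ↔ (∃ θ ≤ 2 * π, VC D i j θ) ∨
    ∃ s f t θ1 θ2, VC D i s θ1 ∧ VC D (t + 1) j θ2 ∧ s ≤ f ∧ f ≤ t ∧ θ1 + θ2 ≤ π ∧
      ∃ x, Trk D s f (D.v s + x) ∧ Trk D f t (x + D.v (t + 1)) := by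
  constructor
  · rintro ⟨θ, hθ, h⟩
    rcases nd_classify hD h i hi rfl ((hD.mono.le_iff hj (le_refl _)).2 hj) hθ with
      ⟨j', h1, h2, h3⟩ | ⟨h1, _⟩ | ⟨j', h1, h2, s, t, x, θ1, θ2, h3, h4, h5, h6, h7, rfl, h8, h9⟩
    · have : j = j' := le_antisymm ((hD.mono.le_iff hj h1).1 h2.le) ((hD.mono.le_iff h1 hj).1 h2.ge)
      subst this
      exact Or.inl ⟨θ, hθ, h3⟩
    · exact absurd rfl (h1 j hj)
    · have : j = j' := le_antisymm ((hD.mono.le_iff hj h1).1 h2.le) ((hD.mono.le_iff h1 hj).1 h2.ge)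
      subst this
      right
      obtain ⟨f, e1, e2, e3, e4⟩ := exists_edge hD h5 h4.lt h6.lt h9 h8
      obtain ⟨t, rfl⟩ : ∃ t', t = t' + 1 := ⟨t - 1, by omega⟩
      refine ⟨s, f, t, θ1, θ2, h3, h7, e1, by omega, by linarith, x, ?_, ?_⟩
      · rwa [ch_iff_trk hD e1 (by omega) (le_refl _) ((hD.mono.lt_iff (by omega) (by omega)).2
          (by omega)) e3 e4.le h4.lt] at h4
      · rwa [ch_iff_trk hD (a := f) (b := t) (by omega) (by omega) e3.le e4
          ((hD.mono.lt_iff (by omega) (by omega)).2 (by omega)) (le_refl _) h6.lt] at h6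
  · rintro (⟨θ, hθ, h⟩ | ⟨s, f, t, θ1, θ2, h1, h2, h3, h4, h5, x, h6, h7⟩)
    · exact ⟨θ, hθ, h.nd hD hj⟩
    · have l1 := h1.le
      have l2 := h2.le
      have h6' := h6
      have h7' := h7
      obtain ⟨r1, r2, _⟩ := h6
      obtain ⟨r3, r4, _⟩ := h7
      have x1 : D.v f < x := by linarith
      have x2 : x < D.v (f + 1) := by linarith
      have x3 : D.v s < D.v (s + 1) := (hD.mono.lt_iff (by omega) (by omega)).2 (by omega)
      have x4 : D.v s ≤ D.v f := (hD.mono.le_iff (by omega) (by omega)).2 h3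
      have x5 : D.v t < D.v (t + 1) := (hD.mono.lt_iff (by omega) (by omega)).2 (by omega)
      have x6 : D.v (f + 1) ≤ D.v (t + 1) := (hD.mono.le_iff (by omega) (by omega)).2 (by omega)
      rw [← ch_iff_trk hD h3 (by omega) (le_refl _) x3 x1 x2.le (by linarith)] at h6'
      rw [← ch_iff_trk hD (a := f) (b := t) (by omega) (by omega) x1.le x2 x5 (le_refl _)
        (by linarith)] at h7'
      have k1 := (h1.nd hD (by omega)).snoc' h6'
      have k2 := Nd.cons h7' (h2.nd hD hj)
      have k3 := k1.append k2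
      rw [ang_free (free_of hD.mono (by omega) x1 x2)] at k3
      refine ⟨_, ?_, k3⟩
      linarith

/-- The recursion for closable tracks. -/
theorem trk_rec (hD : D.OK) {a b : ℕ} (hab : a < b) (hb : b < D.n) (c : ℝ) :
    Trk D a b c ↔
      (c = D.v (a + 1) + D.v b ∧ ∃ θ ≤ 2 * π, Nd D (D.v (a + 1)) (D.v b) θ) ∨
      (∃ p, a < p ∧ p ≤ b ∧ (∃ θ ≤ π, VC D (a + 1) p θ) ∧ Trk D p b (c - D.v (a + 1) + D.v p) ∧
        c < D.v (a + 1) + D.v (b + 1)) ∨
      (∃ p, a ≤ p ∧ p < b ∧ (∃ θ ≤ π, VC D (p + 1) b θ) ∧ Trk D a p (c - D.v b + D.v (p + 1)) ∧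
        D.v a + D.v b < c) := by
  have va : D.v a < D.v (a + 1) := (hD.mono.lt_iff (by omega) (by omega)).2 (by omega)
  have vb : D.v b < D.v (b + 1) := (hD.mono.lt_iff (by omega) (by omega)).2 (by omega)
  have vab : D.v (a + 1) ≤ D.v b := (hD.mono.le_iff (by omega) (by omega)).2 hab
  have vbn : D.v (b + 1) ≤ D.v D.n := (hD.mono.le_iff (by omega) (by omega)).2 (by omega)
  have hπ := Real.pi_pos
  have hx : xin D a b c = min (D.v (a + 1)) (c - D.v b) := by
    unfold xin; rw [if_neg (by omega)]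
  constructor
  · rintro ⟨h1, h2, θ, hθ, hn⟩
    rcases lt_trichotomy c (D.v (a + 1) + D.v b) with h3 | h3 | h3
    · right; right
      rw [hx, min_eq_right (by linarith)] at hn
      have e0 : c - (c - D.v b) = D.v b := by ring
      rw [e0] at hn
      have hf : D.free (c - D.v b) := free_of hD.mono (a := a) (by omega) (by linarith) (by linarith)
      rcases hn.cases_first with ⟨h4, _⟩ | ⟨q1, θ1, h4, h5, rfl⟩
      · exact absurd h4.symm (hf b (by omega))
      · rw [ang_free hf] at hθ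
        have hq1 := h5.le
        rcases free_or (D := D) q1 with h6 | ⟨j, hj, rfl⟩
        · exfalso
          have h7 : q1 < D.v b := lt_of_le_of_ne hq1 (fun h => h6 b (by omega) h.symm)
          have h8 := h5.gt hD h7 (by linarith)
          rw [ang_free h6] at h8
          linarith
        · have hjb : j ≤ b := (hD.mono.le_iff hj (by omega)).1 hq1
          have hja : a < j := by
            have := h4.lt
            rw [← hD.mono.lt_iff (by omega) hj]
            linarith
          obtain ⟨p, rfl⟩ : ∃ p, j = p + 1 := ⟨j - 1, by omega⟩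
          refine ⟨p, by omega, by omega, ?_, ?_, h1⟩
          · rcases (nv_iff hD (i := p + 1) (j := b) (by omega) (by omega)).1
              ⟨θ1, by linarith, h5⟩ with _ | _
            · rcases nd_classify hD h5 (p + 1) (by omega) rfl (by linarith) (by linarith) with
                ⟨j', h8, h9, h10⟩ | ⟨h8, _⟩ | ⟨j', h8, h9, s, t, x, θ3, θ4, h10, _, _, _, h11, rfl,
                  h12, h13⟩
              · have : b = j' := le_antisymm ((hD.mono.le_iff (by omega) h8).1 h9.le)
                  ((hD.mono.le_iff h8 (by omega)).1 h9.ge)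
                subst this
                exact ⟨θ1, by linarith, h10⟩
              · exact absurd rfl (h8 b (by omega))
              · exfalso
                have h14 := h10.ge hD h12
                have h15 : 0 ≤ θ4 := (ang_nonneg hD _).trans ((h11.nd hD h8).ge hD).1
                have h16 := hD.pos (p + 1) (by omega)
                linarith
            · rcases nd_classify hD h5 (p + 1) (by omega) rfl (by linarith) (by linarith) with
                ⟨j', h8, h9, h10⟩ | ⟨h8, _⟩ | ⟨j', h8, h9, s, t, x, θ3, θ4, h10, _, _, _, h11, rfl,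
                  h12, h13⟩
              · have : b = j' := le_antisymm ((hD.mono.le_iff (by omega) h8).1 h9.le)
                  ((hD.mono.le_iff h8 (by omega)).1 h9.ge)
                subst this
                exact ⟨θ1, by linarith, h10⟩
              · exact absurd rfl (h8 b (by omega))
              · exfalso
                have h14 := h10.ge hD h12
                have h15 : 0 ≤ θ4 := (ang_nonneg hD _).trans ((h11.nd hD h8).ge hD).1
                have h16 := hD.pos (p + 1) (by omega)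
                linarith
          · rwa [ch_iff_trk hD (a := a) (b := p) (by omega) (by omega) (by linarith) (by linarith)
              ((hD.mono.lt_iff (by omega) (by omega)).2 (by omega)) (le_refl _) h4.lt] at h4
    · left
      refine ⟨h3, θ, hθ, ?_⟩
      rw [hx, min_eq_left (by linarith)] at hn
      have : c - D.v (a + 1) = D.v b := by linarith
      rwa [this] at hn
    · right; left
      rw [hx, min_eq_left (by linarith)] at hn
      have hf : D.free (c - D.v (a + 1)) := free_of hD.mono hb (by linarith) (by linarith)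
      rcases nd_classify hD hn (a + 1) (by omega) rfl (by linarith) hθ with
        ⟨j', h8, h9, _⟩ | ⟨_, s, θ1, h4, h5, rfl, h6⟩ | ⟨j', h8, h9, _⟩
      · exact absurd h9.symm (hf j' h8)
      · have hsb : s ≤ b := by
          have h7 := h5.lt
          have : D.v s < D.v (b + 1) := by linarith
          rw [hD.mono.lt_iff h6 (by omega)] at this
          omega
        have hs := h4.le
        refine ⟨s, by omega, hsb, ⟨θ1, by linarith, h4⟩, ?_, h2⟩
        rw [ch_iff_trk hD hsb hb (le_refl _) ((hD.mono.lt_iff (by omega) (by omega)).2 (by omega))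
          (by linarith) (by linarith) h5.lt] at h5
        have e0 : c - D.v (a + 1) + D.v s = D.v s + (c - D.v (a + 1)) := by ring
        rwa [e0]
      · exact absurd h9.symm (hf j' h8)
  · rintro (⟨rfl, h⟩ | ⟨p, h1, h2, ⟨θ, hθ, h3⟩, h4, h5⟩ | ⟨p, h1, h2, ⟨θ, hθ, h3⟩, h4, h5⟩)
    · refine ⟨by linarith, by linarith, ?_⟩
      rw [hx, min_eq_left (by linarith), add_sub_cancel_left]
      exact h
    · have h4' := h4
      obtain ⟨r1, r2, _⟩ := h4
      have vp : D.v p < D.v (p + 1) := (hD.mono.lt_iff (by omega) (by omega)).2 (by omega)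
      have vpb : D.v p ≤ D.v b := (hD.mono.le_iff (by omega) (by omega)).2 h2
      refine ⟨by linarith, h5, ?_⟩
      rw [hx, min_eq_left (by linarith)]
      have e0 : c - D.v (a + 1) + D.v p = D.v p + (c - D.v (a + 1)) := by ring
      rw [e0, ← ch_iff_trk hD h2 hb (le_refl _) vp (by linarith) (by linarith) (by linarith)] at h4'
      have h6 := (h3.nd hD (by omega)).snoc' h4'
      rw [ang_free (free_of hD.mono hb (by linarith) (by linarith))] at h6
      exact ⟨_, by linarith, h6⟩
    · have h4' := h4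
      obtain ⟨r1, r2, _⟩ := h4
      have vp : D.v p < D.v (p + 1) := (hD.mono.lt_iff (by omega) (by omega)).2 (by omega)
      have vap : D.v (a + 1) ≤ D.v (p + 1) := (hD.mono.le_iff (by omega) (by omega)).2 (by omega)
      refine ⟨h5, by linarith, ?_⟩
      rw [hx, min_eq_right (by linarith)]
      have e1 : c - (c - D.v b) = D.v b := by ring
      rw [e1]
      rw [← ch_iff_trk hD h1 (by omega) (by linarith) (by linarith) vp (le_refl _)
        (by linarith)] at h4'
      have h6 := Nd.cons h4' (h3.nd hD (by omega))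
      rw [ang_free (free_of hD.mono (a := a) (by omega) (by linarith) (by linarith))] at h6
      exact ⟨_, by linarith, h6⟩

end

end Pool.Agent.MP33

end

section

/-!
# Curvature of tracks
-/

set_option autoImplicit false

namespace Pool.Agent.MP33

open Real Finset

section

variable {D : PD ℝ}

open Classical in
theorem Nd.curv (hD : D.Mono) {p q θ : ℝ} (h : Nd D p q θ) :
    0 ≤ (∑ i ∈ (range (D.n + 1)).filter (fun i => p ≤ D.v i ∧ D.v i ≤ q), (π - D.al i)) +
      θ - π := by
  obtain ⟨S, t⟩ := h.transfer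
  obtain ⟨ψ, _, hg⟩ := exists_good (S ∪ verts D ∪ {p, q})
  have hv : verts D ⊆ S ∪ verts D ∪ {p, q} := by intro x hx; simp [hx]
  have g := t ψ (hg.mono (by intro x hx; simp [hx]))
  obtain ⟨A, hA⟩ := g.cells
  obtain ⟨_, m, h1, h2⟩ := hA.fn (fun _ => 0) (fun _ => Or.inl rfl) (fun _ _ => rfl)
  have h3 : 0 ≤ tau (D.map ψ) (Icc (ψ p) (ψ q)) + θ - π := by
    refine le_trans h1 h2
  rw [tau_eq (hg.map_mono hv hD)] at h3
  convert h3 using 3
  refine Finset.sum_congr ?_ (fun _ _ => rfl)
  ext i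
  rw [Finset.mem_filter, Finset.mem_filter]
  refine and_congr_right (fun hi => ?_)
  have hi' : i ≤ D.n := Nat.lt_succ_iff.1 (Finset.mem_range.1 hi)
  have hm := hv (mem_verts D hi')
  show _ ↔ ψ (D.v i) ∈ Icc _ _
  rw [Finset.mem_Icc, hg.le_iff (by simp) hm, hg.le_iff hm (by simp)]

/-- The curvature inside a track. -/
noncomputable def KK (D : PD ℝ) (a b : ℕ) : ℝ := π + ∑ i ∈ Ioc a b, (π - D.al i)

/-- The curvature inside a chain of vertices. -/
noncomputable def KV (D : PD ℝ) (i j : ℕ) (θ : ℝ) : ℝ := (∑ t ∈ Icc i j, (π - D.al t)) + θ - π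

theorem KK_self (a : ℕ) : KK D a a = π := by simp [KK]

theorem VC.curv (hD : D.OK) {i j : ℕ} {θ : ℝ} (h : VC D i j θ) (hj : j ≤ D.n) :
    0 ≤ KV D i j θ := by
  classical
  have h1 := (h.nd hD hj).curv hD.mono
  unfold KV
  have e : (range (D.n + 1)).filter (fun t => D.v i ≤ D.v t ∧ D.v t ≤ D.v j) = Icc i j := by
    ext t
    rw [Finset.mem_filter, Finset.mem_Icc, Finset.mem_range]
    have hij := h.le
    constructor
    · rintro ⟨h2, h3, h4⟩
      exact ⟨(hD.mono.le_iff (by omega) (by omega)).1 h3, (hD.mono.le_iff (by omega) hj).1 h4⟩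
    · rintro ⟨h2, h3⟩
      exact ⟨by omega, (hD.mono.le_iff (by omega) (by omega)).2 h2,
        (hD.mono.le_iff (by omega) hj).2 h3⟩
  rwa [e] at h1

theorem Trk.curv (hD : D.OK) {a b : ℕ} (hab : a ≤ b) (hb : b < D.n) {c : ℝ} (h : Trk D a b c) :
    0 ≤ KK D a b := by
  classical
  rcases eq_or_lt_of_le hab with rfl | hab'
  · rw [KK_self]; exact Real.pi_pos.le
  · obtain ⟨h1, h2, θ, hθ, hn⟩ := h
    have h3 := hn.curv hD.mono
    have hx : xin D a b c = min (D.v (a + 1)) (c - D.v b) := by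
      unfold xin; rw [if_neg (by omega)]
    have va : D.v a < D.v (a + 1) := (hD.mono.lt_iff (by omega) (by omega)).2 (by omega)
    have hx1 : xin D a b c ≤ D.v (a + 1) := by rw [hx]; exact min_le_left _ _
    have hx2 : xin D a b c ≤ c - D.v b := by rw [hx]; exact min_le_right _ _
    have hx3 : D.v a < xin D a b c := by rw [hx]; exact lt_min va (by linarith)
    have hx4 : c - xin D a b c < D.v (b + 1) := by
      rw [hx]
      rcases min_cases (D.v (a + 1)) (c - D.v b) with ⟨h, _⟩ | ⟨h, _⟩ <;> rw [h]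
      · linarith
      · have := (hD.mono.lt_iff (i := b) (j := b + 1) (by omega) (by omega)).2 (by omega)
        linarith
    have e : (range (D.n + 1)).filter (fun t => xin D a b c ≤ D.v t ∧ D.v t ≤ c - xin D a b c) =
        Ioc a b := by
      ext t
      rw [Finset.mem_filter, Finset.mem_Ioc, Finset.mem_range]
      constructor
      · rintro ⟨h2, h3, h4⟩
        constructor
        · rw [← hD.mono.lt_iff (by omega) (by omega)]; linarith
        · have : D.v t < D.v (b + 1) := by linarith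
          rw [hD.mono.lt_iff (by omega) (by omega)] at this
          omega
      · rintro ⟨h2, h3⟩
        refine ⟨by omega, ?_, ?_⟩
        · exact hx1.trans ((hD.mono.le_iff (by omega) (by omega)).2 (by omega))
        · refine le_trans ((hD.mono.le_iff (by omega) (by omega)).2 h3) (by linarith)
    rw [e] at h3
    unfold KK
    linarith

theorem KV_single (i : ℕ) : KV D i i (D.al i) = 0 := by simp [KV]

theorem KV_snoc {i p j : ℕ} {θ : ℝ} (hip : i ≤ p) (hpj : p ≤ j) :
    KV D i (j + 1) (θ + D.al (j + 1)) = KV D i p θ + KK D p j := by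
  unfold KV KK
  have e : Icc i (j + 1) = Icc i p ∪ (Ioc p j ∪ {j + 1}) := by
    ext t
    simp only [Finset.mem_Icc, Finset.mem_union, Finset.mem_Ioc, Finset.mem_singleton]
    omega
  rw [e, Finset.sum_union, Finset.sum_union, Finset.sum_singleton]
  · ring
  · rw [Finset.disjoint_left]
    intro t ht
    simp only [Finset.mem_Ioc, Finset.mem_singleton] at ht ⊢
    omega
  · rw [Finset.disjoint_left]
    intro t ht
    simp only [Finset.mem_Icc, Finset.mem_union, Finset.mem_Ioc, Finset.mem_singleton] at ht ⊢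
    omega

theorem KK_left {a p b : ℕ} (h1 : a ≤ p) (h2 : p ≤ b) :
    KK D a b = (∑ i ∈ Ioc a p, (π - D.al i)) + KK D p b := by
  unfold KK
  have e : Ioc a b = Ioc a p ∪ Ioc p b := by
    ext t
    simp only [Finset.mem_union, Finset.mem_Ioc]
    omega
  rw [e, Finset.sum_union]
  · ring
  · rw [Finset.disjoint_left]
    intro t ht
    simp only [Finset.mem_Ioc] at ht ⊢
    omega

theorem KK_right {a p b : ℕ} (h1 : a ≤ p) (h2 : p ≤ b) :
    KK D a b = KK D a p + ∑ i ∈ Ioc p b, (π - D.al i) := by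
  unfold KK
  have e : Ioc a b = Ioc a p ∪ Ioc p b := by
    ext t
    simp only [Finset.mem_union, Finset.mem_Ioc]
    omega
  rw [e, Finset.sum_union]
  · ring
  · rw [Finset.disjoint_left]
    intro t ht
    simp only [Finset.mem_Ioc] at ht ⊢
    omega

theorem Ioc_eq_Icc (a p : ℕ) : Ioc a p = Icc (a + 1) p := by
  ext t; simp only [Finset.mem_Ioc, Finset.mem_Icc]; omega

/-- A group has nonnegative curvature. -/
theorem VC.grp (hD : D.OK) {a p : ℕ} {θ : ℝ} (h : VC D (a + 1) p θ) (hθ : θ ≤ π) (hp : p ≤ D.n) :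
    KV D (a + 1) p θ ≤ ∑ i ∈ Ioc a p, (π - D.al i) ∧ 0 ≤ ∑ i ∈ Ioc a p, (π - D.al i) := by
  have h1 := h.curv hD hp
  unfold KV at h1 ⊢
  rw [Ioc_eq_Icc]
  constructor <;> linarith

end

end Pool.Agent.MP33

end
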