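import Pool.Agent.Work.MP_33efdc_lc.Bd.B03
import Pool.Agent.Work.MP_33efdc_lc.Bd.B02
import Pool.Agent.Work.RRAM.Final

/-! Bundle of small proof modules (one section per former module). -/

section

/-!
# Moves of tracks and the number of values reached
-/

set_option autoImplicit false

namespace Pool.Agent.MP33

open Real Finset

/-- A chain of vertices which can be glued to an edge-interior point. -/
def grp (D : PD ℝ) (i j : ℕ) : Prop := ∃ θ ≤ π, VC D i j θ

/-- Moves outward from a track `(a, b, c)`. -/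
inductive Mv (D : PD ℝ) : ℕ × ℕ × ℝ → ℕ × ℕ × ℝ → Prop
  | left {a p b : ℕ} {c : ℝ} : a < p → D.v p + D.v b < c → c < D.v p + D.v (b + 1) →
      grp D (a + 1) p → Mv D (p, b, c) (a, b, c + D.v (a + 1) - D.v p)
  | right {a p b : ℕ} {c : ℝ} : p < b → b < D.n → D.v a + D.v (p + 1) < c →
      c < D.v (a + 1) + D.v (p + 1) → grp D (p + 1) b →
      Mv D (a, p, c) (a, b, c + D.v b - D.v (p + 1))

/-- A track. -/
def IsT (D : PD ℝ) (z : ℕ × ℕ × ℝ) : Prop :=
  z.1 < z.2.1 ∧ z.2.1 < D.n ∧ D.v z.1 + D.v z.2.1 < z.2.2 ∧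
    z.2.2 < D.v (z.1 + 1) + D.v (z.2.1 + 1)

section

variable {D : PD ℝ}

theorem Mv.isT (hD : D.OK) {z w : ℕ × ℕ × ℝ} (h : Mv D z w) (hz : IsT D z) : IsT D w := by
  cases h with
  | @left a p b c h1 h2 h3 h4 =>
    obtain ⟨e1, e2, e3, e4⟩ := hz
    dsimp only at e1 e2 e3 e4
    have va : D.v a < D.v (a + 1) := (hD.mono.lt_iff (by omega) (by omega)).2 (by omega)
    exact ⟨by dsimp only; omega, e2, by dsimp only; linarith, by dsimp only; linarith⟩
  | @right a p b c h1 h2 h3 h4 h5 =>
    obtain ⟨e1, e2, e3, e4⟩ := hz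
    dsimp only at e1 e2 e3 e4
    have vb : D.v b < D.v (b + 1) := (hD.mono.lt_iff (by omega) (by omega)).2 (by omega)
    exact ⟨by dsimp only; omega, h2, by dsimp only; linarith, by dsimp only; linarith⟩

theorem Mv.kk (hD : D.OK) {z w : ℕ × ℕ × ℝ} (h : Mv D z w) (hz : IsT D z) :
    KK D z.1 z.2.1 ≤ KK D w.1 w.2.1 := by
  cases h with
  | @left a p b c h1 h2 h3 h4 =>
    obtain ⟨e1, e2, e3, e4⟩ := hz
    obtain ⟨θ, hθ, h5⟩ := h4
    dsimp only at e1 e2 e3 e4 ⊢
    have := (h5.grp hD hθ (by omega)).2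
    rw [KK_left (D := D) (a := a) (p := p) (b := b) (by omega) (by omega)]
    linarith
  | @right a p b c h1 h2 h3 h4 h5 =>
    obtain ⟨e1, e2, e3, e4⟩ := hz
    obtain ⟨θ, hθ, h5⟩ := h5
    dsimp only at e1 e2 e3 e4 ⊢
    have := (h5.grp hD hθ (by omega)).2
    rw [KK_right (D := D) (a := a) (p := p) (b := b) (by omega) (by omega)]
    linarith

/-- Reachability. -/
def Rch (D : PD ℝ) : ℕ × ℕ × ℝ → ℕ × ℕ × ℝ → Prop := Relation.ReflTransGen (Mv D)

theorem Rch.isT (hD : D.OK) {z w : ℕ × ℕ × ℝ} (h : Rch D z w) (hz : IsT D z) : IsT D w := by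
  induction h with
  | refl => exact hz
  | tail _ h ih => exact h.isT hD ih

theorem Rch.kk (hD : D.OK) {z w : ℕ × ℕ × ℝ} (h : Rch D z w) (hz : IsT D z) :
    KK D z.1 z.2.1 ≤ KK D w.1 w.2.1 := by
  induction h with
  | refl => exact le_refl _
  | tail h' h ih => exact ih.trans (h.kk hD (Rch.isT hD h' hz))

theorem Mv.outer {z w : ℕ × ℕ × ℝ} (h : Mv D z w) :
    w.1 ≤ z.1 ∧ z.2.1 ≤ w.2.1 ∧ ¬ (w.1 = z.1 ∧ w.2.1 = z.2.1) := by
  cases h with
  | left h1 h2 h3 h4 => dsimp only; omega
  | right h1 h2 h3 h4 h5 => dsimp only; omega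

theorem Rch.outer {z w : ℕ × ℕ × ℝ} (h : Rch D z w) :
    w = z ∨ (w.1 ≤ z.1 ∧ z.2.1 ≤ w.2.1 ∧ ¬ (w.1 = z.1 ∧ w.2.1 = z.2.1)) := by
  induction h with
  | refl => exact Or.inl rfl
  | tail _ h ih =>
    right
    have := h.outer
    rcases ih with rfl | h2
    · exact this
    · omega

/-- Strips along moves. -/
theorem Rch.strip (hD : D.OK) {z w : ℕ × ℕ × ℝ} (hz : IsT D z) {x0 y0 : ℝ}
    (h1 : D.v z.1 < x0) (h2 : x0 < D.v (z.1 + 1)) (h3 : D.v z.2.1 < y0)
    (h4 : y0 < D.v (z.2.1 + 1)) (h5 : x0 + y0 = z.2.2) (h : Rch D z w) :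
    (∀ x, D.v w.1 < x → x < D.v (w.1 + 1) → D.v w.2.1 < w.2.2 - x →
      w.2.2 - x < D.v (w.2.1 + 1) → x < x0 → Strip D x0 y0 x (w.2.2 - x)) ∧
    (w ≠ z → ∀ x, x < D.v (w.1 + 1) → D.v w.2.1 < w.2.2 - x → x < x0) := by
  obtain ⟨a0, b0, c0⟩ := z
  obtain ⟨z1, z2, z3, z4⟩ := hz
  dsimp only at h1 h2 h3 h4 h5 z1 z2 z3 z4
  have hz : IsT D (a0, b0, c0) := ⟨z1, z2, z3, z4⟩
  induction h with
  | refl =>
    refine ⟨fun x k1 k2 k3 k4 k5 => ?_, fun h => absurd rfl h⟩
    dsimp only at k1 k2 k3 k4 ⊢
    have f1 := free_of hD.mono (a := a0) (by omega) h1 h2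
    have f2 := free_of hD.mono (a := b0) (by omega) h3 h4
    have n1 := Nd.single (D := D) x0
    have n2 := Nd.single (D := D) y0
    rw [ang_free f1] at n1
    rw [ang_free f2] at n2
    have := (Strip.base (D := D) (x0 := x0) (y0 := y0)).step n1 n2 (by linarith)
      (s := x0 - x) (by linarith)
      (flat_of hD.mono (a := a0) (by omega) (by linarith) (by linarith))
      (flat_of hD.mono (a := b0) (by omega) (by linarith) (by linarith))
    convert this using 1 <;> linarith
  | @tail w w' h' h ih =>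
    obtain ⟨ih1, ih2⟩ := ih
    have hw : IsT D w := Rch.isT hD h' hz
    have hout := Rch.outer h'
    cases h with
    | @left a p b c m1 m2 m3 m4 =>
      obtain ⟨w1, w2, w3, w4⟩ := hw
      dsimp only at ih1 ih2 w1 w2 w3 w4 hout ⊢
      have hpa : p ≤ a0 := by
        rcases hout with h | h
        · exact (Prod.mk.inj h).1.le
        · exact h.1
      have hb : b0 ≤ b := by
        rcases hout with h | h
        · exact (Prod.mk.inj (Prod.mk.inj h).2).1.ge
        · exact h.2.1
      have vp : D.v p < x0 := lt_of_le_of_lt ((hD.mono.le_iff (by omega) (by omega)).2 hpa) h1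
      have vp1 : D.v p < D.v (p + 1) := (hD.mono.lt_iff (by omega) (by omega)).2 (by omega)
      have va1 : D.v (a + 1) ≤ D.v p := (hD.mono.le_iff (by omega) (by omega)).2 (by omega)
      refine ⟨fun x k1 k2 k3 k4 k5 => ?_, fun _ x k1 k2 => ?_⟩
      · -- a chord near the outer end
        obtain ⟨ε, e0, e1, e2, e3⟩ : ∃ ε : ℝ, 0 < ε ∧ D.v p + ε < D.v (p + 1) ∧
            D.v p + ε < x0 ∧ D.v b < c - (D.v p + ε) := by
          refine ⟨min (D.v (p + 1) - D.v p) (min (x0 - D.v p) (c - D.v p - D.v b)) / 2, ?_, ?_, ?_,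
            ?_⟩
          · have : 0 < min (D.v (p + 1) - D.v p) (min (x0 - D.v p) (c - D.v p - D.v b)) :=
              lt_min (by linarith) (lt_min (by linarith) (by linarith))
            linarith
          all_goals
            have t1 := min_le_left (D.v (p + 1) - D.v p) (min (x0 - D.v p) (c - D.v p - D.v b))
            have t2 := min_le_right (D.v (p + 1) - D.v p) (min (x0 - D.v p) (c - D.v p - D.v b))
            have t3 := min_le_left (x0 - D.v p) (c - D.v p - D.v b)
            have t4 := min_le_right (x0 - D.v p) (c - D.v p - D.v b)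
            linarith
        have s1 := ih1 (D.v p + ε) (by linarith) e1 e3 (by linarith) e2
        have f1 := free_of hD.mono (a := p) (x := D.v p + ε) (by omega) (by linarith) e1
        have f2 := free_of hD.mono (a := b) (x := c - (D.v p + ε)) (by omega) e3 (by linarith)
        have n1 := Nd.single (D := D) (D.v p + ε)
        have n2 := Nd.single (D := D) (c - (D.v p + ε))
        rw [ang_free f1] at n1
        rw [ang_free f2] at n2
        have s2 := s1.step n1 n2 (by linarith) (s := ε) e0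
          (flat_of hD.mono (a := p) (by omega) (by linarith) (by linarith))
          (flat_of hD.mono (a := b) (by omega) (by linarith) (by linarith))
        have e4 : D.v p + ε - ε = D.v p := by ring
        have e5 : c - (D.v p + ε) + ε = c - D.v p := by ring
        rw [e4, e5] at s2
        obtain ⟨θ, hθ, hc⟩ := m4
        have n3 := hc.nd hD (by omega)
        have f3 := free_of hD.mono (a := b) (x := c - D.v p) (by omega) (by linarith) (by linarith)
        have n4 := Nd.single (D := D) (c - D.v p)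
        rw [ang_free f3] at n4
        have s3 := s2.step n3 n4 (by linarith) (s := D.v (a + 1) - x) (by linarith)
          (flat_of hD.mono (a := a) (by omega) (by linarith) (by linarith))
          (flat_of hD.mono (a := b) (by omega) (by linarith) (by linarith))
        convert s3 using 1 <;> ring
      · have : D.v (a + 1) ≤ D.v p := va1
        linarith
    | @right a p b c m1 m2 m3 m4 m5 =>
      obtain ⟨w1, w2, w3, w4⟩ := hw
      dsimp only at ih1 ih2 w1 w2 w3 w4 hout ⊢
      have hpa : a ≤ a0 := by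
        rcases hout with h | h
        · exact (Prod.mk.inj h).1.le
        · exact h.1
      have hb : b0 ≤ p := by
        rcases hout with h | h
        · exact (Prod.mk.inj (Prod.mk.inj h).2).1.ge
        · exact h.2.1
      have vp1 : D.v p < D.v (p + 1) := (hD.mono.lt_iff (by omega) (by omega)).2 (by omega)
      have va1 : D.v a < D.v (a + 1) := (hD.mono.lt_iff (by omega) (by omega)).2 (by omega)
      have hx : c - D.v (p + 1) < x0 := by
        by_cases h : (a, p, c) = (a0, b0, c0)
        · obtain ⟨k1, k2⟩ := Prod.mk.inj h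
          obtain ⟨k3, k4⟩ := Prod.mk.inj k2
          rw [k3, k4]
          linarith
        · exact ih2 h _ (by linarith) (by linarith)
      refine ⟨fun x k1 k2 k3 k4 k5 => ?_, fun _ x k1 k2 => by linarith⟩
      obtain ⟨ε, e0, e1, e2, e3⟩ : ∃ ε : ℝ, 0 < ε ∧ c - D.v (p + 1) + ε < D.v (a + 1) ∧
          c - D.v (p + 1) + ε < x0 ∧ D.v p < c - (c - D.v (p + 1) + ε) := by
        refine ⟨min (D.v (a + 1) - (c - D.v (p + 1))) (min (x0 - (c - D.v (p + 1)))
          (D.v (p + 1) - D.v p)) / 2, ?_, ?_, ?_, ?_⟩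
        · have : 0 < min (D.v (a + 1) - (c - D.v (p + 1))) (min (x0 - (c - D.v (p + 1)))
            (D.v (p + 1) - D.v p)) :=
            lt_min (by linarith) (lt_min (by linarith) (by linarith))
          linarith
        all_goals
          have t1 := min_le_left (D.v (a + 1) - (c - D.v (p + 1))) (min (x0 - (c - D.v (p + 1)))
            (D.v (p + 1) - D.v p))
          have t2 := min_le_right (D.v (a + 1) - (c - D.v (p + 1))) (min (x0 - (c - D.v (p + 1)))
            (D.v (p + 1) - D.v p))
          have t3 := min_le_left (x0 - (c - D.v (p + 1))) (D.v (p + 1) - D.v p)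
          have t4 := min_le_right (x0 - (c - D.v (p + 1))) (D.v (p + 1) - D.v p)
          linarith
      have s1 := ih1 (c - D.v (p + 1) + ε) (by linarith) e1 e3 (by linarith) e2
      have f1 := free_of hD.mono (a := a) (x := c - D.v (p + 1) + ε) (by omega) (by linarith) e1
      have f2 := free_of hD.mono (a := p) (x := c - (c - D.v (p + 1) + ε)) (by omega) e3
        (by linarith)
      have n1 := Nd.single (D := D) (c - D.v (p + 1) + ε)
      have n2 := Nd.single (D := D) (c - (c - D.v (p + 1) + ε))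
      rw [ang_free f1] at n1
      rw [ang_free f2] at n2
      have s2 := s1.step n1 n2 (by linarith) (s := ε) e0
        (flat_of hD.mono (a := a) (by omega) (by linarith) (by linarith))
        (flat_of hD.mono (a := p) (by omega) (by linarith) (by linarith))
      have e4 : c - D.v (p + 1) + ε - ε = c - D.v (p + 1) := by ring
      have e5 : c - (c - D.v (p + 1) + ε) + ε = D.v (p + 1) := by ring
      rw [e4, e5] at s2
      obtain ⟨θ, hθ, hc⟩ := m5
      have n3 := hc.nd hD (by omega)
      have f3 := free_of hD.mono (a := a) (x := c - D.v (p + 1)) (by omega) (by linarith)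
        (by linarith)
      have n4 := Nd.single (D := D) (c - D.v (p + 1))
      rw [ang_free f3] at n4
      have s3 := s2.step n4 n3 (by linarith) (s := c - D.v (p + 1) - x) (by linarith)
        (flat_of hD.mono (a := a) (by omega) (by linarith) (by linarith))
        (flat_of hD.mono (a := b) (by omega) (by linarith) (by linarith))
      convert s3 using 1 <;> ring

/-- The turning in a strip between tracks. -/
theorem T_eq (hD : D.OK) {a a0 b0 b : ℕ} (h1 : a ≤ a0) (h2 : a0 ≤ b0) (h3 : b0 ≤ b) (h4 : b < D.n)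
    {x0 y0 x y : ℝ} (x1 : D.v a0 < x0) (x2 : x0 < D.v (a0 + 1)) (y1 : D.v b0 < y0)
    (y2 : y0 < D.v (b0 + 1)) (x3 : D.v a < x) (x4 : x < D.v (a + 1)) (y3 : D.v b < y)
    (y4 : y < D.v (b + 1)) : D.T x0 y0 x y = KK D a b - KK D a0 b0 := by
  classical
  have e : (range (D.n + 1)).filter (fun i => (x < D.v i ∧ D.v i ≤ x0) ∨ (y0 ≤ D.v i ∧ D.v i < y)) =
      Ioc a a0 ∪ Ioc b0 b := by
    ext i
    rw [Finset.mem_filter, Finset.mem_range, Finset.mem_union, Finset.mem_Ioc, Finset.mem_Ioc]
    have m := fun {i j : ℕ} (hi : i ≤ D.n) (hj : j ≤ D.n) => hD.mono.lt_iff hi hj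
    have m' := fun {i j : ℕ} (hi : i ≤ D.n) (hj : j ≤ D.n) => hD.mono.le_iff hi hj
    constructor
    · rintro ⟨h5, ⟨h6, h7⟩ | ⟨h6, h7⟩⟩
      · left
        constructor
        · rw [← m (by omega) (by omega)]; linarith
        · have : D.v i < D.v (a0 + 1) := by linarith
          rw [m (by omega) (by omega)] at this
          omega
      · right
        constructor
        · rw [← m (by omega) (by omega)]; linarith
        · have : D.v i < D.v (b + 1) := by linarith
          rw [m (by omega) (by omega)] at this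
          omega
    · rintro (⟨h6, h7⟩ | ⟨h6, h7⟩)
      · refine ⟨by omega, Or.inl ⟨?_, ?_⟩⟩
        · exact lt_of_lt_of_le x4 ((m' (by omega) (by omega)).2 h6)
        · exact ((m' (by omega) (by omega)).2 h7).trans x1.le
      · refine ⟨by omega, Or.inr ⟨?_, ?_⟩⟩
        · exact y2.le.trans ((m' (by omega) (by omega)).2 h6)
        · exact lt_of_le_of_lt ((m' (by omega) (by omega)).2 h7) y3
  unfold PD.T
  rw [e, Finset.sum_union, KK_left (D := D) h1 (h2.trans h3), KK_right (D := D) h2 h3]
  · ring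
  · rw [Finset.disjoint_left]
    intro i hi
    rw [Finset.mem_Ioc] at hi ⊢
    omega

/-- An interior chord of a track. -/
theorem IsT.chord (hD : D.OK) {z : ℕ × ℕ × ℝ} (hz : IsT D z) : ∃ x0 y0, D.v z.1 < x0 ∧
    x0 < D.v (z.1 + 1) ∧ D.v z.2.1 < y0 ∧ y0 < D.v (z.2.1 + 1) ∧ x0 + y0 = z.2.2 ∧ x0 < y0 := by
  obtain ⟨h1, h2, h3, h4⟩ := hz
  have va : D.v z.1 < D.v (z.1 + 1) := (hD.mono.lt_iff (by omega) (by omega)).2 (by omega)
  have vb : D.v z.2.1 < D.v (z.2.1 + 1) := (hD.mono.lt_iff (by omega) (by omega)).2 (by omega)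
  have vab : D.v (z.1 + 1) ≤ D.v z.2.1 := (hD.mono.le_iff (by omega) (by omega)).2 h1
  obtain ⟨x0, e1, e2⟩ : ∃ x0, max (D.v z.1) (z.2.2 - D.v (z.2.1 + 1)) < x0 ∧
      x0 < min (D.v (z.1 + 1)) (z.2.2 - D.v z.2.1) := by
    apply _root_.exists_between
    rw [max_lt_iff, lt_min_iff, lt_min_iff]
    refine ⟨⟨va, by linarith⟩, by linarith, by linarith⟩
  rw [max_lt_iff] at e1
  rw [lt_min_iff] at e2
  exact ⟨x0, z.2.2 - x0, e1.1, e2.1, by linarith, by linarith, by ring, by linarith⟩

/-- Two values reached by light strips cannot be close. -/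
theorem rch_far (hD : D.OK) {z : ℕ × ℕ × ℝ} (hz : IsT D z) {a b : ℕ} {c1 c2 : ℝ}
    (h1 : Rch D z (a, b, c1)) (h2 : Rch D z (a, b, c2)) (hlt : c1 < c2)
    (hK : KK D a b - KK D z.1 z.2.1 < π) :
    D.v (b + 1) - D.v b ≤ c2 - c1 ∧ D.v (a + 1) - D.v a ≤ c2 - c1 := by
  have hne : ∀ c, Rch D z (a, b, c) → ¬ (a = z.1 ∧ b = z.2.1) := by
    rintro c h ⟨rfl, rfl⟩
    have k1 : c1 = z.2.2 := by
      rcases h1.outer with h | h
      · rw [← h]
      · exact absurd ⟨rfl, rfl⟩ h.2.2
    have k2 : c2 = z.2.2 := by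
      rcases h2.outer with h | h
      · rw [← h]
      · exact absurd ⟨rfl, rfl⟩ h.2.2
    linarith
  have hne1 : (a, b, c1) ≠ z := by rintro rfl; exact hne c1 h1 ⟨rfl, rfl⟩
  have hne2 : (a, b, c2) ≠ z := by rintro rfl; exact hne c2 h2 ⟨rfl, rfl⟩
  obtain ⟨x0, y0, g1, g2, g3, g4, g5, g6⟩ := hz.chord hD
  have s1 := h1.strip hD hz g1 g2 g3 g4 g5
  have s2 := h2.strip hD hz g1 g2 g3 g4 g5
  have t1 := h1.isT hD hz
  have t2 := h2.isT hD hz
  obtain ⟨p1, p2, p3, p4⟩ := t1
  obtain ⟨q1, q2, q3, q4⟩ := t2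
  dsimp only at s1 s2 p1 p2 p3 p4 q3 q4
  have va : D.v a < D.v (a + 1) := (hD.mono.lt_iff (by omega) (by omega)).2 (by omega)
  have vb : D.v b < D.v (b + 1) := (hD.mono.lt_iff (by omega) (by omega)).2 (by omega)
  have hout : a ≤ z.1 ∧ z.2.1 ≤ b := by
    rcases h1.outer with h | h
    · exact absurd h hne1
    · exact ⟨h.1, h.2.1⟩
  have hzz := hz.1
  constructor
  · by_contra hc
    rw [not_le] at hc
    obtain ⟨u, e1, e2⟩ : ∃ u, max (D.v a) (c2 - D.v (b + 1)) < u ∧
        u < min (D.v (a + 1)) (c1 - D.v b) := by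
      apply _root_.exists_between
      rw [max_lt_iff, lt_min_iff, lt_min_iff]
      refine ⟨⟨va, by linarith⟩, by linarith, by linarith⟩
    rw [max_lt_iff] at e1
    rw [lt_min_iff] at e2
    have r1 := s1.1 u e1.1 e2.1 (by linarith) (by linarith) (s1.2 hne1 u e2.1 (by linarith))
    have r2 := s2.1 u e1.1 e2.1 (by linarith) (by linarith) (s2.2 hne2 u e2.1 (by linarith))
    refine strip_unique_right hD.mono g6 r1 r2 (by linarith) ?_ ?_ ?_
    · intro i hi
      rcases Nat.lt_or_ge b i with h | h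
      · right
        have := (hD.mono.le_iff (i := b + 1) (j := i) (by omega) hi).2 h
        linarith
      · left
        have := (hD.mono.le_iff (i := i) (j := b) hi (by omega)).2 h
        linarith
    · rw [T_eq hD hout.1 hz.1.le hout.2 p2 g1 g2 g3 g4 e1.1 e2.1 (by linarith) (by linarith)]
      exact hK
    · rw [T_eq hD hout.1 hz.1.le hout.2 p2 g1 g2 g3 g4 e1.1 e2.1 (by linarith) (by linarith)]
      exact hK
  · by_contra hc
    rw [not_le] at hc
    obtain ⟨y, e1, e2⟩ : ∃ y, max (D.v b) (c2 - D.v (a + 1)) < y ∧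
        y < min (D.v (b + 1)) (c1 - D.v a) := by
      apply _root_.exists_between
      rw [max_lt_iff, lt_min_iff, lt_min_iff]
      refine ⟨⟨vb, by linarith⟩, by linarith, by linarith⟩
    rw [max_lt_iff] at e1
    rw [lt_min_iff] at e2
    have r1 := s1.1 (c1 - y) (by linarith) (by linarith) (by linarith) (by linarith)
      (s1.2 hne1 _ (by linarith) (by linarith))
    have r2 := s2.1 (c2 - y) (by linarith) (by linarith) (by linarith) (by linarith)
      (s2.2 hne2 _ (by linarith) (by linarith))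
    have e3 : c1 - (c1 - y) = y := by ring
    have e4 : c2 - (c2 - y) = y := by ring
    rw [e3] at r1
    rw [e4] at r2
    refine strip_unique_left hD.mono g6 r1 r2 (by linarith) ?_ ?_ ?_
    · intro i hi
      rcases Nat.lt_or_ge a i with h | h
      · right
        have := (hD.mono.le_iff (i := a + 1) (j := i) (by omega) hi).2 h
        linarith
      · left
        have := (hD.mono.le_iff (i := i) (j := a) hi (by omega)).2 h
        linarith
    · rw [T_eq hD hout.1 hz.1.le hout.2 p2 g1 g2 g3 g4 (by linarith) (by linarith) e1.1 e2.1]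
      exact hK
    · rw [T_eq hD hout.1 hz.1.le hout.2 p2 g1 g2 g3 g4 (by linarith) (by linarith) e1.1 e2.1]
      exact hK

end

end Pool.Agent.MP33

end

section

/-!
# Counting the values reached by moves
-/

set_option autoImplicit false

namespace Pool.Agent.MP33

open Real Finset

section

variable {D : PD ℝ}

theorem light_card (hD : D.OK) {z : ℕ × ℕ × ℝ} (hz : IsT D z) {a b : ℕ}
    (hK : KK D a b - KK D z.1 z.2.1 < π) :
    ∃ F : Finset ℝ, F.card ≤ 2 ∧ ∀ c, Rch D z (a, b, c) → c ∈ F := by
  classical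
  have h3 : ∀ c1 c2 c3, Rch D z (a, b, c1) → Rch D z (a, b, c2) → Rch D z (a, b, c3) →
      c1 < c2 → c2 < c3 → False := by
    intro c1 c2 c3 r1 r2 r3 l1 l2
    have k1 := rch_far hD hz r1 r2 l1 hK
    have k2 := rch_far hD hz r2 r3 l2 hK
    obtain ⟨_, _, p3, _⟩ := r1.isT hD hz
    obtain ⟨_, _, _, q4⟩ := r3.isT hD hz
    dsimp only at p3 q4
    linarith
  by_cases h0 : ∃ c, Rch D z (a, b, c)
  · obtain ⟨c, hc⟩ := h0
    by_cases h1 : ∃ c', Rch D z (a, b, c') ∧ c' ≠ c
    · obtain ⟨c', hc', hne⟩ := h1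
      refine ⟨{c, c'}, Finset.card_le_two, fun d hd => ?_⟩
      rw [Finset.mem_insert, Finset.mem_singleton]
      by_contra hcon
      rw [not_or] at hcon
      obtain ⟨n1, n2⟩ := hcon
      rcases lt_or_gt_of_ne hne with l1 | l1 <;> rcases lt_or_gt_of_ne n1 with l2 | l2 <;>
        rcases lt_or_gt_of_ne n2 with l3 | l3
      · exact h3 _ _ _ hd hc' hc l3 l1
      · exact h3 _ _ _ hc' hd hc l3 l2
      · linarith
      · exact h3 _ _ _ hc' hc hd l1 l2
      · exact h3 _ _ _ hd hc hc' l2 l1
      · linarith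
      · exact h3 _ _ _ hc hd hc' l2 l3
      · exact h3 _ _ _ hc hc' hd l1 l3
    · refine ⟨{c}, by simp, fun d hd => ?_⟩
      rw [Finset.mem_singleton]
      by_contra hcon
      exact h1 ⟨d, hd, hcon⟩
  · exact ⟨∅, by simp, fun d hd => absurd ⟨d, hd⟩ h0⟩

theorem Rch.split {z w : ℕ × ℕ × ℝ} (h : Rch D z w) :
    KK D w.1 w.2.1 - KK D z.1 z.2.1 < π ∨ ∃ w1 w2, Rch D z w1 ∧
      KK D w1.1 w1.2.1 - KK D z.1 z.2.1 < π ∧ Mv D w1 w2 ∧
      π ≤ KK D w2.1 w2.2.1 - KK D z.1 z.2.1 ∧ Rch D w2 w := by
  induction h with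
  | refl => left; rw [sub_self]; exact Real.pi_pos
  | @tail w' w'' h' h ih =>
    rcases ih with ih | ⟨w1, w2, h1, h2, h3, h4, h5⟩
    · by_cases hc : KK D w''.1 w''.2.1 - KK D z.1 z.2.1 < π
      · exact Or.inl hc
      · exact Or.inr ⟨w', w'', h', ih, h, not_lt.1 hc, Relation.ReflTransGen.refl⟩
    · exact Or.inr ⟨w1, w2, h1, h2, h3, h4, h5.tail h⟩

/-- The value after a move between given tracks. -/
noncomputable def tgt (D : PD ℝ) (a1 b1 : ℕ) (c1 : ℝ) (a2 b2 : ℕ) : ℝ :=
  if a2 = a1 then c1 + D.v b2 - D.v (b1 + 1) else c1 + D.v (a2 + 1) - D.v a1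

theorem Mv.tgt {z w : ℕ × ℕ × ℝ} (h : Mv D z w) : w.2.2 = tgt D z.1 z.2.1 z.2.2 w.1 w.2.1 := by
  cases h with
  | left h1 h2 h3 h4 => unfold MP33.tgt; dsimp only; rw [if_neg (by omega)]
  | right h1 h2 h3 h4 h5 => unfold MP33.tgt; dsimp only; rw [if_pos rfl]

/-- The bound for the number of values. -/
def NN (n : ℕ) : ℕ → ℕ
  | 0 => 2
  | m + 1 => 2 + n ^ 4 * (2 * NN n m)

theorem reach_card (hD : D.OK) : ∀ (m : ℕ) (z : ℕ × ℕ × ℝ), IsT D z → ∀ a b,
    KK D a b - KK D z.1 z.2.1 < (m + 1) * π →
    ∃ F : Finset ℝ, F.card ≤ NN D.n m ∧ ∀ c, Rch D z (a, b, c) → c ∈ F := by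
  classical
  intro m
  induction m with
  | zero =>
    intro z hz a b hK
    exact light_card hD hz (by simpa using hK)
  | succ m ih =>
    intro z hz a b hK
    have hL : ∀ a1 b1 : ℕ, ∃ F : Finset ℝ, F.card ≤ 2 ∧
        (KK D a1 b1 - KK D z.1 z.2.1 < π → ∀ c, Rch D z (a1, b1, c) → c ∈ F) := by
      intro a1 b1
      by_cases h : KK D a1 b1 - KK D z.1 z.2.1 < π
      · obtain ⟨F, h1, h2⟩ := light_card hD hz h
        exact ⟨F, h1, fun _ => h2⟩
      · exact ⟨∅, by simp, fun h' => absurd h' h⟩
    choose FL hL1 hL2 using hL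
    have hM : ∀ w : ℕ × ℕ × ℝ, ∃ F : Finset ℝ, F.card ≤ NN D.n m ∧
        (IsT D w → KK D a b - KK D w.1 w.2.1 < (m + 1) * π → ∀ c, Rch D w (a, b, c) → c ∈ F) := by
      intro w
      by_cases h : IsT D w ∧ KK D a b - KK D w.1 w.2.1 < (m + 1) * π
      · obtain ⟨F, h1, h2⟩ := ih w h.1 a b h.2
        exact ⟨F, h1, fun _ _ => h2⟩
      · exact ⟨∅, by simp, fun h1 h2 => absurd ⟨h1, h2⟩ h⟩
    choose FM hM1 hM2 using hM
    refine ⟨FL a b ∪ ((range D.n ×ˢ range D.n) ×ˢ (range D.n ×ˢ range D.n)).biUnion (fun q =>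
      (FL q.1.1 q.1.2).biUnion (fun c1 =>
        FM (q.2.1, q.2.2, tgt D q.1.1 q.1.2 c1 q.2.1 q.2.2))), ?_, ?_⟩
    · refine (Finset.card_union_le _ _).trans ?_
      show _ ≤ 2 + D.n ^ 4 * (2 * NN D.n m)
      refine add_le_add (hL1 a b) ?_
      refine (Finset.card_biUnion_le_card_mul _ _ (2 * NN D.n m) (fun q _ => ?_)).trans ?_
      · refine (Finset.card_biUnion_le_card_mul _ _ (NN D.n m) (fun c _ => hM1 _)).trans ?_
        exact Nat.mul_le_mul_right _ (hL1 _ _)
      · rw [Finset.card_product, Finset.card_product, Finset.card_range]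
        exact le_of_eq (by ring)
    · intro c hc
      rw [Finset.mem_union]
      rcases hc.split with h | ⟨w1, w2, h1, h2, h3, h4, h5⟩
      · left; exact hL2 a b h c hc
      · right
        obtain ⟨a1, b1, c1⟩ := w1
        obtain ⟨a2, b2, c2⟩ := w2
        have t1 := h1.isT hD hz
        have t2 := h3.isT hD t1
        have e := h3.tgt
        dsimp only at h2 h4 e
        rw [Finset.mem_biUnion]
        refine ⟨((a1, b1), (a2, b2)), ?_, ?_⟩
        · simp only [Finset.mem_product, Finset.mem_range]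
          have q1 := t1.1
          have q2 := t1.2.1
          have q3 := t2.1
          have q4 := t2.2.1
          dsimp only at q1 q2 q3 q4
          omega
        · rw [Finset.mem_biUnion]
          refine ⟨c1, hL2 a1 b1 h2 c1 h1, ?_⟩
          dsimp only
          rw [← e]
          refine hM2 _ t2 ?_ c h5
          dsimp only
          push_cast at hK
          linarith

end

end Pool.Agent.MP33

end

section

/-!
# The algorithm and its correctness

Intervals `(lo, hi)` stand for the open interval if `lo < hi` and for the point `lo` if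
`lo = hi`.  `L a b` is a list of intervals whose union is the set of all `c` such that the track
`(a, b, c)` is closable, `G i j` is the least angle of a chain of vertices from `i` to `j`.
-/

set_option autoImplicit false

namespace Pool.Agent.MP33

open Real

open Classical in
/-- Test of `x < y`. -/
noncomputable def rlt (x y : ℝ) : Bool := decide (x < y)

open Classical in
/-- Test of `x = y`. -/
noncomputable def req (x y : ℝ) : Bool := decide (x = y)

theorem rlt_iff {x y : ℝ} : rlt x y = true ↔ x < y := by unfold rlt; exact decide_eq_true_iff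
theorem req_iff {x y : ℝ} : req x y = true ↔ x = y := by unfold req; exact decide_eq_true_iff

/-- Intervals. -/
abbrev IV := ℝ × ℝ

/-- Membership of a number in an interval. -/
noncomputable def memI (x : ℝ) (I : IV) : Bool :=
  (req I.1 I.2 && req x I.1) || (rlt I.1 x && rlt x I.2)

/-- Membership in the union of a list of intervals. -/
noncomputable def memL (x : ℝ) (l : List IV) : Bool := l.any (fun I => memI x I)

/-- The part of the interval below `w`, shifted by `d`. -/
noncomputable def clipHi (w d : ℝ) (I : IV) : Option IV :=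
  if rlt I.1 w then some (I.1 + d, (if rlt I.2 w then I.2 else w) + d) else none

/-- The part of the interval above `w`, shifted by `d`. -/
noncomputable def clipLo (w d : ℝ) (I : IV) : Option IV :=
  if rlt w I.2 then some ((if rlt w I.1 then I.1 else w) + d, I.2 + d) else none

/-- Do the intervals `I - x` and `J - y` meet? -/
noncomputable def inter (x y : ℝ) (I J : IV) : Bool :=
  (req I.1 I.2 && memI (I.1 - x + y) J) || (req J.1 J.2 && memI (J.1 - y + x) I) ||
    (rlt I.1 I.2 && rlt J.1 J.2 && rlt (I.1 - x) (J.2 - y) && rlt (J.1 - y) (I.2 - x))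

/-- Do the unions of two lists of intervals, shifted by `-x` and `-y`, meet? -/
noncomputable def meet (x y : ℝ) (l m : List IV) : Bool :=
  l.any (fun I => m.any (fun J => inter x y I J))

/-- Add an element unless it is present or the list is full. -/
noncomputable def addIV (B : ℕ) (acc : List IV) (I : IV) : List IV :=
  if acc.any (fun J => req I.1 J.1 && req I.2 J.2) then acc
  else if B ≤ acc.length then acc else I :: acc

/-- Remove duplicates, keep at most `B` elements. -/
noncomputable def nub (B : ℕ) (l : List IV) : List IV := l.foldl (addIV B) []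

theorem memI_iff {x : ℝ} {I : IV} : memI x I = true ↔ (I.1 = I.2 ∧ x = I.1) ∨ (I.1 < x ∧ x < I.2) := by
  unfold memI
  rw [Bool.or_eq_true, Bool.and_eq_true, Bool.and_eq_true, req_iff, req_iff, rlt_iff, rlt_iff]

theorem memL_iff {x : ℝ} {l : List IV} : memL x l = true ↔ ∃ I ∈ l, memI x I = true := by
  unfold memL; rw [List.any_eq_true]

theorem clipHi_mem {w d : ℝ} {I J : IV} (hI : I.1 ≤ I.2) (h : clipHi w d I = some J) :
    J.1 ≤ J.2 ∧ (∀ c, memI c J = true → memI (c - d) I = true ∧ c - d < w) ∧ I.1 < w ∧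
      J.1 = I.1 + d ∧ ((I.2 < w ∧ J.2 = I.2 + d) ∨ J.2 = w + d) := by
  unfold clipHi at h
  by_cases h1 : rlt I.1 w = true
  · rw [if_pos h1] at h
    rw [rlt_iff] at h1
    obtain rfl := Option.some.inj h
    by_cases h2 : rlt I.2 w = true
    · rw [if_pos h2]
      rw [rlt_iff] at h2
      refine ⟨by dsimp only; linarith, fun c hc => ?_, h1, rfl, Or.inl ⟨h2, rfl⟩⟩
      rw [memI_iff] at hc ⊢
      dsimp only at hc
      rcases hc with ⟨h3, h4⟩ | ⟨h3, h4⟩
      · exact ⟨Or.inl ⟨by linarith, by linarith⟩, by linarith⟩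
      · exact ⟨Or.inr ⟨by linarith, by linarith⟩, by linarith⟩
    · rw [if_neg h2]
      rw [rlt_iff, not_lt] at h2
      refine ⟨by dsimp only; linarith, fun c hc => ?_, h1, rfl, Or.inr rfl⟩
      rw [memI_iff] at hc ⊢
      dsimp only at hc
      rcases hc with ⟨h3, h4⟩ | ⟨h3, h4⟩
      · exfalso; linarith
      · exact ⟨Or.inr ⟨by linarith, by linarith⟩, by linarith⟩
  · rw [if_neg h1] at h; cases h

theorem clipHi_of {w d c : ℝ} {I : IV} (hc : memI c I = true) (hw : c < w) :
    ∃ J, clipHi w d I = some J ∧ memI (c + d) J = true := by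
  rw [memI_iff] at hc
  have h1 : I.1 < w := by rcases hc with ⟨_, h⟩ | ⟨h, _⟩ <;> linarith
  unfold clipHi
  rw [if_pos (rlt_iff.2 h1)]
  refine ⟨_, rfl, ?_⟩
  rw [memI_iff]
  dsimp only
  by_cases h2 : rlt I.2 w = true
  · rw [if_pos h2]
    rcases hc with ⟨h3, h4⟩ | ⟨h3, h4⟩
    · left; constructor <;> linarith
    · right; constructor <;> linarith
  · rw [if_neg h2]
    rw [rlt_iff, not_lt] at h2
    rcases hc with ⟨h3, h4⟩ | ⟨h3, h4⟩
    · exfalso; linarith
    · right; constructor <;> linarith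

theorem clipLo_mem {w d : ℝ} {I J : IV} (hI : I.1 ≤ I.2) (h : clipLo w d I = some J) :
    J.1 ≤ J.2 ∧ (∀ c, memI c J = true → memI (c - d) I = true ∧ w < c - d) ∧ w < I.2 ∧
      J.2 = I.2 + d ∧ ((w < I.1 ∧ J.1 = I.1 + d) ∨ J.1 = w + d) := by
  unfold clipLo at h
  by_cases h1 : rlt w I.2 = true
  · rw [if_pos h1] at h
    rw [rlt_iff] at h1
    obtain rfl := Option.some.inj h
    by_cases h2 : rlt w I.1 = true
    · rw [if_pos h2]
      rw [rlt_iff] at h2
      refine ⟨by dsimp only; linarith, fun c hc => ?_, h1, rfl, Or.inl ⟨h2, rfl⟩⟩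
      rw [memI_iff] at hc ⊢
      dsimp only at hc
      rcases hc with ⟨h3, h4⟩ | ⟨h3, h4⟩
      · exact ⟨Or.inl ⟨by linarith, by linarith⟩, by linarith⟩
      · exact ⟨Or.inr ⟨by linarith, by linarith⟩, by linarith⟩
    · rw [if_neg h2]
      rw [rlt_iff, not_lt] at h2
      refine ⟨by dsimp only; linarith, fun c hc => ?_, h1, rfl, Or.inr rfl⟩
      rw [memI_iff] at hc ⊢
      dsimp only at hc
      rcases hc with ⟨h3, h4⟩ | ⟨h3, h4⟩
      · exfalso; linarith
      · exact ⟨Or.inr ⟨by linarith, by linarith⟩, by linarith⟩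
  · rw [if_neg h1] at h; cases h

theorem clipLo_of {w d c : ℝ} {I : IV} (hc : memI c I = true) (hw : w < c) :
    ∃ J, clipLo w d I = some J ∧ memI (c + d) J = true := by
  rw [memI_iff] at hc
  have h1 : w < I.2 := by rcases hc with ⟨h', h⟩ | ⟨_, h⟩ <;> linarith
  unfold clipLo
  rw [if_pos (rlt_iff.2 h1)]
  refine ⟨_, rfl, ?_⟩
  rw [memI_iff]
  dsimp only
  by_cases h2 : rlt w I.1 = true
  · rw [if_pos h2]
    rcases hc with ⟨h3, h4⟩ | ⟨h3, h4⟩
    · left; constructor <;> linarith
    · right; constructor <;> linarith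
  · rw [if_neg h2]
    rw [rlt_iff, not_lt] at h2
    rcases hc with ⟨h3, h4⟩ | ⟨h3, h4⟩
    · exfalso; linarith
    · right; constructor <;> linarith

theorem inter_iff {x y : ℝ} {I J : IV} :
    inter x y I J = true ↔ ∃ z, memI (z + x) I = true ∧ memI (z + y) J = true := by
  unfold inter
  rw [Bool.or_eq_true, Bool.or_eq_true, Bool.and_eq_true, Bool.and_eq_true, Bool.and_eq_true,
    Bool.and_eq_true, Bool.and_eq_true, req_iff, req_iff, rlt_iff, rlt_iff, rlt_iff, rlt_iff]
  constructor
  · rintro ((⟨h1, h2⟩ | ⟨h1, h2⟩) | ⟨⟨⟨h1, h2⟩, h3⟩, h4⟩)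
    · refine ⟨I.1 - x, ?_, h2⟩
      rw [memI_iff]; left; exact ⟨h1, by ring⟩
    · refine ⟨J.1 - y, h2, ?_⟩
      rw [memI_iff]; left; exact ⟨h1, by ring⟩
    · obtain ⟨z, e1, e2⟩ : ∃ z, max (I.1 - x) (J.1 - y) < z ∧ z < min (I.2 - x) (J.2 - y) := by
        apply exists_between
        rw [max_lt_iff, lt_min_iff, lt_min_iff]
        refine ⟨⟨by linarith, by linarith⟩, by linarith, by linarith⟩
      rw [max_lt_iff] at e1
      rw [lt_min_iff] at e2
      refine ⟨z, ?_, ?_⟩
      · rw [memI_iff]; right; constructor <;> linarith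
      · rw [memI_iff]; right; constructor <;> linarith
  · rintro ⟨z, h1, h2⟩
    have h1' := h1
    have h2' := h2
    rw [memI_iff] at h1 h2
    rcases h1 with ⟨h3, h4⟩ | ⟨h3, h4⟩
    · left; left
      refine ⟨h3, ?_⟩
      have : I.1 - x + y = z + y := by linarith
      rw [this]; exact h2'
    · rcases h2 with ⟨h5, h6⟩ | ⟨h5, h6⟩
      · left; right
        refine ⟨h5, ?_⟩
        have : J.1 - y + x = z + x := by linarith
        rw [this]; exact h1'
      · right
        refine ⟨⟨⟨by linarith, by linarith⟩, by linarith⟩, by linarith⟩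

theorem meet_iff {x y : ℝ} {l m : List IV} :
    meet x y l m = true ↔ ∃ z, memL (z + x) l = true ∧ memL (z + y) m = true := by
  unfold meet
  rw [List.any_eq_true]
  constructor
  · rintro ⟨I, hI, h⟩
    rw [List.any_eq_true] at h
    obtain ⟨J, hJ, h⟩ := h
    obtain ⟨z, h1, h2⟩ := inter_iff.1 h
    exact ⟨z, memL_iff.2 ⟨I, hI, h1⟩, memL_iff.2 ⟨J, hJ, h2⟩⟩
  · rintro ⟨z, h1, h2⟩
    obtain ⟨I, hI, h3⟩ := memL_iff.1 h1
    obtain ⟨J, hJ, h4⟩ := memL_iff.1 h2
    exact ⟨I, hI, List.any_eq_true.2 ⟨J, hJ, inter_iff.2 ⟨z, h3, h4⟩⟩⟩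

theorem addIV_any {acc : List IV} {I : IV} :
    acc.any (fun J => req I.1 J.1 && req I.2 J.2) = true ↔ I ∈ acc := by
  rw [List.any_eq_true]
  constructor
  · rintro ⟨J, hJ, h⟩
    rw [Bool.and_eq_true, req_iff, req_iff] at h
    have : I = J := Prod.ext h.1 h.2
    rwa [this]
  · intro h
    exact ⟨I, h, by rw [Bool.and_eq_true, req_iff, req_iff]; exact ⟨rfl, rfl⟩⟩

theorem nub_aux (B : ℕ) (F : Finset IV) (hF : F.card ≤ B) : ∀ (l acc : List IV),
    (∀ I ∈ acc, I ∈ F) → acc.Nodup → (∀ I ∈ l, I ∈ F) →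
    (∀ I ∈ acc, I ∈ l.foldl (addIV B) acc) ∧ (∀ I ∈ l, I ∈ l.foldl (addIV B) acc) := by
  classical
  intro l
  induction l with
  | nil => intro acc _ _ _; exact ⟨fun I h => h, fun I h => by cases h⟩
  | cons I l ih =>
    intro acc h1 h2 h3
    have hI : I ∈ F := h3 I (by simp)
    have hl : ∀ J ∈ l, J ∈ F := fun J hJ => h3 J (by simp [hJ])
    rw [List.foldl_cons]
    unfold addIV
    by_cases hc : acc.any (fun J => req I.1 J.1 && req I.2 J.2) = true
    · rw [if_pos hc]
      rw [addIV_any] at hc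
      obtain ⟨k1, k2⟩ := ih acc h1 h2 hl
      refine ⟨k1, fun J hJ => ?_⟩
      rcases List.mem_cons.1 hJ with rfl | hJ
      · exact k1 _ hc
      · exact k2 _ hJ
    · rw [if_neg hc]
      rw [addIV_any] at hc
      have hlen : ¬ B ≤ acc.length := by
        intro hB
        have h4 : (I :: acc).Nodup := List.nodup_cons.2 ⟨hc, h2⟩
        have h5 : (I :: acc).toFinset ⊆ F := by
          intro J hJ
          rw [List.mem_toFinset, List.mem_cons] at hJ
          rcases hJ with rfl | hJ
          · exact hI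
          · exact h1 J hJ
        have h6 := Finset.card_le_card h5
        rw [List.toFinset_card_of_nodup h4, List.length_cons] at h6
        omega
      rw [if_neg hlen]
      obtain ⟨k1, k2⟩ := ih (I :: acc) (by
        intro J hJ
        rcases List.mem_cons.1 hJ with rfl | hJ
        · exact hI
        · exact h1 J hJ) (List.nodup_cons.2 ⟨hc, h2⟩) hl
      refine ⟨fun J hJ => k1 J (by simp [hJ]), fun J hJ => ?_⟩
      rcases List.mem_cons.1 hJ with rfl | hJ
      · exact k1 _ (by simp)
      · exact k2 _ hJ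

theorem mem_nub {B : ℕ} {F : Finset IV} (hF : F.card ≤ B) {l : List IV} (hl : ∀ I ∈ l, I ∈ F)
    {I : IV} (hI : I ∈ l) : I ∈ nub B l :=
  (nub_aux B F hF l [] (by simp) List.nodup_nil hl).2 I hI

theorem of_mem_nub_aux (B : ℕ) : ∀ (l acc : List IV) (I : IV), I ∈ l.foldl (addIV B) acc →
    I ∈ acc ∨ I ∈ l := by
  intro l
  induction l with
  | nil => intro acc I h; exact Or.inl h
  | cons J l ih =>
    intro acc I h
    rw [List.foldl_cons] at h
    rcases ih _ _ h with h1 | h1
    · unfold addIV at h1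
      split_ifs at h1
      · exact Or.inl h1
      · exact Or.inl h1
      · rcases List.mem_cons.1 h1 with rfl | h2
        · exact Or.inr (by simp)
        · exact Or.inl h2
    · exact Or.inr (by simp [h1])

theorem of_mem_nub {B : ℕ} {l : List IV} {I : IV} (h : I ∈ nub B l) : I ∈ l := by
  rcases of_mem_nub_aux B l [] I h with h | h
  · cases h
  · exact h

theorem nub_length_aux (B : ℕ) : ∀ (l acc : List IV), acc.length ≤ B →
    (l.foldl (addIV B) acc).length ≤ B := by
  intro l
  induction l with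
  | nil => intro acc h; exact h
  | cons J l ih =>
    intro acc h
    rw [List.foldl_cons]
    apply ih
    unfold addIV
    split_ifs with h1 h2
    · exact h
    · exact h
    · rw [List.length_cons]; omega

theorem nub_length (B : ℕ) (l : List IV) : (nub B l).length ≤ B :=
  nub_length_aux B l [] (by simp)

end Pool.Agent.MP33

end

section

/-!
# The table of the dynamic program

Definitions of the algorithm; the input is given by functions `V`, `A` (positions and angles),
the tables by functions `L`, `G`.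
-/

set_option autoImplicit false

namespace Pool.Agent.MP33

open Real

/-- Keep only angles at most `2 π`. -/
noncomputable def capAN (x : AN) : Option AN := if leAN x (2, 1, 0) then some x else none

/-- Minimum. -/
noncomputable def minO (s : Option AN) (x : AN) : Option AN :=
  if (s.map (fun y => leAN y x)).getD false then s else some x

/-- Minimum of a list. -/
noncomputable def minL (l : List AN) : Option AN := l.foldl minO none

/-- Is the angle at most `π`? -/
noncomputable def grpT (g : Option AN) : Bool := (g.map (fun x => leAN x (1, 1, 0))).getD false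

/-- Is the sum of the angles at most `π`? -/
noncomputable def sumT (g h : Option AN) : Bool :=
  (g.map (fun x => (h.map (fun y => leAN (addAN x y) (1, 1, 0))).getD false)).getD false

/-- Can vertices `i` and `j` be glued, the arc between them being closed? -/
noncomputable def nodeT (V : ℕ → ℝ) (L : ℕ → ℕ → List IV) (G : ℕ → ℕ → Option AN) (i j : ℕ) :
    Bool :=
  (G i j).isSome || (List.range j).any (fun s => (List.range j).any (fun f =>
    (List.range j).any (fun t => ((decide (i ≤ s) && decide (s ≤ f)) && decide (f ≤ t)) &&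
      (sumT (G i s) (G (t + 1) j) && meet (V s) (V (t + 1)) (L s f) (L f t)))))

/-- The least angle of a chain of vertices from `i` to `i + k`. -/
noncomputable def newG (V : ℕ → ℝ) (A : ℕ → AN) (L : ℕ → ℕ → List IV)
    (G : ℕ → ℕ → Option AN) (i k : ℕ) : Option AN :=
  if k = 0 then capAN (A i) else
    minL ((List.range k).filterMap (fun d =>
      if memL (V (i + d) + V (i + k)) (L (i + d) (i + k - 1)) then
        (G i (i + d)).bind (fun x => capAN (addAN x (A (i + k)))) else none))

/-- The intervals of a track, with repetitions. -/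
noncomputable def rawL (V : ℕ → ℝ) (L : ℕ → ℕ → List IV) (G : ℕ → ℕ → Option AN) (a b : ℕ) :
    List IV :=
  (if nodeT V L G (a + 1) b then [(V (a + 1) + V b, V (a + 1) + V b)] else []) ++
  ((List.range (b - a)).flatMap (fun d => if grpT (G (a + 1) (a + 1 + d)) then
      (L (a + 1 + d) b).filterMap
        (clipHi (V (a + 1 + d) + V (b + 1)) (V (a + 1) - V (a + 1 + d))) else []) ++
  (List.range (b - a)).flatMap (fun d => if grpT (G (a + d + 1) b) then
      (L a (a + d)).filterMap (clipLo (V a + V (a + d + 1)) (V b - V (a + d + 1))) else []))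

/-- The intervals of the track `(a, a + k)`. -/
noncomputable def newL (B : ℕ) (V : ℕ → ℝ) (L : ℕ → ℕ → List IV) (G : ℕ → ℕ → Option AN)
    (a k : ℕ) : List IV :=
  if k = 0 then [(V a + V a, V (a + 1) + V (a + 1))] else nub B (rawL V L G a (a + k))

/-- Entries of the table. -/
abbrev ENT := List IV × Option AN

/-- Look up. -/
def getE (T : List (List ENT)) (a b : ℕ) : ENT := (T.getD (b - a) []).getD a ([], none)

/-- Look up. -/
def getL (T : List (List ENT)) (a b : ℕ) : List IV := (getE T a b).1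

/-- Look up. -/
def getG (T : List (List ENT)) (a b : ℕ) : Option AN := (getE T a b).2

/-- One more row of the table. -/
noncomputable def stepT (B n : ℕ) (V : ℕ → ℝ) (A : ℕ → AN) (T : List (List ENT)) :
    List (List ENT) :=
  T ++ [(List.range (n + 1)).map (fun a =>
    (newL B V (getL T) (getG T) a T.length, newG V A (getL T) (getG T) a T.length))]

/-- The bound for the number of endpoints. -/
def EB (n : ℕ) : ℕ := 2 + n ^ 2 * NN n 4

/-- The whole table. -/
noncomputable def table (n : ℕ) (V : ℕ → ℝ) (A : ℕ → AN) : List (List ENT) :=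
  (stepT (EB n ^ 2) n V A)^[n + 1] []

/-- The answer. -/
noncomputable def answer (n : ℕ) (V : ℕ → ℝ) (A : ℕ → AN) : Bool :=
  nodeT V (getL (table n V A)) (getG (table n V A)) 0 n

/-! ### Lemmas about angles -/

theorem Rep.le_two_pi {x : AN} {θ : ℝ} (hx : Rep x θ) : leAN x (2, 1, 0) = true ↔ θ ≤ 2 * π := by
  rw [hx.le_iff (Rep.pi 2)]
  push_cast
  exact Iff.rfl

theorem Rep.le_pi {x : AN} {θ : ℝ} (hx : Rep x θ) : leAN x (1, 1, 0) = true ↔ θ ≤ π := by
  rw [hx.le_iff (Rep.pi 1)]
  push_cast
  rw [one_mul]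

theorem capAN_eq {x y : AN} : capAN x = some y ↔ x = y ∧ leAN x (2, 1, 0) = true := by
  unfold capAN
  split_ifs with h
  · simp [h]
  · simp [h]

theorem minO_some {s : Option AN} {x z : AN} (h : minO s x = some z) : s = some z ∨ x = z := by
  unfold minO at h
  split_ifs at h with h1
  · exact Or.inl h
  · exact Or.inr (Option.some.inj h)

theorem minL_aux : ∀ (l : List AN) (s : Option AN) (z : AN), l.foldl minO s = some z →
    s = some z ∨ z ∈ l := by
  intro l
  induction l with
  | nil => intro s z h; exact Or.inl h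
  | cons x l ih =>
    intro s z h
    rw [List.foldl_cons] at h
    rcases ih _ _ h with h | h
    · rcases minO_some h with h | rfl
      · exact Or.inl h
      · exact Or.inr (by simp)
    · exact Or.inr (by simp [h])

theorem minL_mem {l : List AN} {z : AN} (h : minL l = some z) : z ∈ l := by
  rcases minL_aux l none z h with h | h
  · cases h
  · exact h

theorem minL_le_aux : ∀ (l : List AN) (s : Option AN), (∀ x ∈ l, ∃ θ, Rep x θ) →
    (∀ x, s = some x → ∃ θ, Rep x θ) → ∀ (y : AN) (η : ℝ), Rep y η → (s = some y ∨ y ∈ l) →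
    ∃ z θ, l.foldl minO s = some z ∧ Rep z θ ∧ θ ≤ η := by
  intro l
  induction l with
  | nil =>
    intro s _ _ y η hy h
    rcases h with h | h
    · exact ⟨y, η, h, hy, le_refl _⟩
    · cases h
  | cons x l ih =>
    intro s hl hs y η hy h
    rw [List.foldl_cons]
    obtain ⟨θx, hx⟩ := hl x (by simp)
    have hl' : ∀ x ∈ l, ∃ θ, Rep x θ := fun z hz => hl z (by simp [hz])
    have hm : ∀ z, minO s x = some z → ∃ θ, Rep z θ := by
      intro z hz
      rcases minO_some hz with h1 | rfl
      · exact hs z h1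
      · exact ⟨θx, hx⟩
    -- the minimum is at most both
    have key : (∀ (y : AN) (η : ℝ), Rep y η → s = some y → ∃ z θ, minO s x = some z ∧ Rep z θ ∧
        θ ≤ η) ∧ ∃ z θ, minO s x = some z ∧ Rep z θ ∧ θ ≤ θx := by
      cases s with
      | none =>
        refine ⟨fun y η _ h => (by cases h), x, θx, ?_, hx, le_refl _⟩
        simp [minO]
      | some w =>
        obtain ⟨θw, hw⟩ := hs w rfl
        by_cases hc : leAN w x = true
        · have h1 : minO (some w) x = some w := by simp [minO, hc]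
          have h2 := (hw.le_iff hx).1 hc
          refine ⟨fun y η hy h => ?_, w, θw, h1, hw, h2⟩
          obtain rfl := Option.some.inj h
          exact ⟨w, η, h1, hy, le_refl _⟩
        · have h1 : minO (some w) x = some x := by simp [minO, hc]
          refine ⟨fun y η hy h => ?_, x, θx, h1, hx, le_refl _⟩
          obtain rfl := Option.some.inj h
          rw [hy.le_iff hx, not_le] at hc
          exact ⟨x, θx, h1, hx, hc.le⟩
    have fin : ∀ z θ, minO s x = some z → Rep z θ → θ ≤ η →
        ∃ z θ, l.foldl minO (minO s x) = some z ∧ Rep z θ ∧ θ ≤ η := by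
      intro z θ h1 h2 h3
      obtain ⟨z', θ', h4, h5, h6⟩ := ih (minO s x) hl' hm z θ h2 (Or.inl h1)
      exact ⟨z', θ', h4, h5, h6.trans h3⟩
    rcases h with h | h
    · obtain ⟨z, θ, h1, h2, h3⟩ := key.1 y η hy h
      exact fin z θ h1 h2 h3
    · rcases List.mem_cons.1 h with rfl | h
      · obtain ⟨z, θ, h1, h2, h3⟩ := key.2
        have : θ ≤ η := by
          refine ((h2.le_iff hy).1 ?_)
          rw [h2.le_iff hx]; exact h3
        exact fin z θ h1 h2 this
      · exact ih (minO s x) hl' hm y η hy (Or.inr h)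

theorem minL_le {l : List AN} (hl : ∀ x ∈ l, ∃ θ, Rep x θ) {y : AN} {η : ℝ} (hy : Rep y η)
    (h : y ∈ l) : ∃ z θ, minL l = some z ∧ Rep z θ ∧ θ ≤ η :=
  minL_le_aux l none hl (fun x h => by cases h) y η hy (Or.inr h)

end Pool.Agent.MP33

end

section

/-!
# Correctness of the dynamic program
-/

set_option autoImplicit false

namespace Pool.Agent.MP33

open Real Finset

/-- The possible endpoints of intervals. -/
def EP (D : PD ℝ) (a b : ℕ) (c : ℝ) : Prop :=
  c = D.v a + D.v b ∨ c = D.v (a + 1) + D.v (b + 1) ∨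
    ∃ a0 b0, IsT D (a0, b0, D.v (a0 + 1) + D.v b0) ∧ 0 ≤ KK D a0 b0 ∧
      Rch D (a0, b0, D.v (a0 + 1) + D.v b0) (a, b, c)

/-- Specification of the intervals of a track. -/
structure SpecL (D : PD ℝ) (a b : ℕ) (l : List IV) : Prop where
  le : ∀ I ∈ l, I.1 ≤ I.2
  sound : ∀ I ∈ l, ∀ c, memI c I = true → Trk D a b c
  ep : ∀ I ∈ l, EP D a b I.1 ∧ EP D a b I.2
  complete : KK D a b ≤ 4 * π → ∀ c, Trk D a b c → memL c l = true

/-- Specification of the angle of a chain. -/
structure SpecG (D : PD ℝ) (i j : ℕ) (g : Option AN) : Prop where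
  sound : ∀ x, g = some x → ∃ θ ≤ 2 * π, Rep x θ ∧ VC D i j θ
  complete : ∀ θ ≤ 2 * π, KV D i j θ ≤ 4 * π → VC D i j θ →
    ∃ x θ', g = some x ∧ Rep x θ' ∧ θ' ≤ θ

section

variable {D : PD ℝ} {V : ℕ → ℝ} {A : ℕ → AN} {L : ℕ → ℕ → List IV} {G : ℕ → ℕ → Option AN}

theorem ep_card (hD : D.OK) {a b : ℕ} (hK : KK D a b ≤ 4 * π) :
    ∃ F : Finset ℝ, F.card ≤ EB D.n ∧ ∀ c, EP D a b c → c ∈ F := by
  classical
  have hF : ∀ q : ℕ × ℕ, ∃ F : Finset ℝ, F.card ≤ NN D.n 4 ∧
      (IsT D (q.1, q.2, D.v (q.1 + 1) + D.v q.2) → 0 ≤ KK D q.1 q.2 →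
        ∀ c, Rch D (q.1, q.2, D.v (q.1 + 1) + D.v q.2) (a, b, c) → c ∈ F) := by
    intro q
    by_cases h : IsT D (q.1, q.2, D.v (q.1 + 1) + D.v q.2) ∧ 0 ≤ KK D q.1 q.2
    · obtain ⟨F, h1, h2⟩ := reach_card hD 4 _ h.1 a b (by
        have := h.2
        have := Real.pi_pos
        push_cast
        linarith)
      exact ⟨F, h1, fun _ _ => h2⟩
    · exact ⟨∅, by simp, fun h1 h2 => absurd ⟨h1, h2⟩ h⟩
  choose F hF1 hF2 using hF
  refine ⟨{D.v a + D.v b, D.v (a + 1) + D.v (b + 1)} ∪ (range D.n ×ˢ range D.n).biUnion F, ?_, ?_⟩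
  · refine (Finset.card_union_le _ _).trans ?_
    refine add_le_add Finset.card_le_two ?_
    refine (Finset.card_biUnion_le_card_mul _ _ _ (fun q _ => hF1 q)).trans ?_
    rw [Finset.card_product, Finset.card_range, pow_two]
  · rintro c (rfl | rfl | ⟨a0, b0, h1, h2, h3⟩)
    · simp
    · simp
    · rw [Finset.mem_union]
      right
      rw [Finset.mem_biUnion]
      refine ⟨(a0, b0), ?_, hF2 (a0, b0) h1 h2 c h3⟩
      have q1 := h1.1
      have q2 := h1.2.1
      dsimp only at q1 q2
      simp only [Finset.mem_product, Finset.mem_range]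
      omega

/-- The interval is not empty. -/
theorem exists_memI {I : IV} (h : I.1 ≤ I.2) : ∃ c, memI c I = true := by
  rcases eq_or_lt_of_le h with h1 | h1
  · exact ⟨I.1, memI_iff.2 (Or.inl ⟨h1, rfl⟩)⟩
  · exact ⟨(I.1 + I.2) / 2, memI_iff.2 (Or.inr ⟨by linarith, by linarith⟩)⟩

theorem ep_base (hD : D.OK) {a b : ℕ} (hab : a < b) (hb : b < D.n) (hK : 0 ≤ KK D a b) :
    EP D a b (D.v (a + 1) + D.v b) := by
  right; right
  have va : D.v a < D.v (a + 1) := (hD.mono.lt_iff (by omega) (by omega)).2 (by omega)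
  have vb : D.v b < D.v (b + 1) := (hD.mono.lt_iff (by omega) (by omega)).2 (by omega)
  exact ⟨a, b, ⟨hab, hb, by dsimp only; linarith, by dsimp only; linarith⟩, hK,
    Relation.ReflTransGen.refl⟩

/-- Endpoints move to endpoints. -/
theorem ep_left (hD : D.OK) {a p b : ℕ} (hap : a < p) (hpb : p ≤ b) (hb : b < D.n) {c : ℝ}
    (h : EP D p b c) (hc : c < D.v p + D.v (b + 1)) (hg : grp D (a + 1) p) (hK : 0 ≤ KK D a b) :
    EP D a b (c + (D.v (a + 1) - D.v p)) := by
  have vp : D.v p < D.v (p + 1) := (hD.mono.lt_iff (by omega) (by omega)).2 (by omega)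
  rcases h with rfl | rfl | ⟨a0, b0, h1, h2, h3⟩
  · have : D.v p + D.v b + (D.v (a + 1) - D.v p) = D.v (a + 1) + D.v b := by ring
    rw [this]
    exact ep_base hD (by omega) hb hK
  · exfalso; linarith
  · right; right
    refine ⟨a0, b0, h1, h2, h3.tail ?_⟩
    have ht := Rch.isT hD h3 h1
    obtain ⟨_, _, h4, _⟩ := ht
    dsimp only at h4
    have e : c + (D.v (a + 1) - D.v p) = c + D.v (a + 1) - D.v p := by ring
    rw [e]
    exact Mv.left hap h4 hc hg

theorem ep_right (hD : D.OK) {a p b : ℕ} (hap : a ≤ p) (hpb : p < b) (hb : b < D.n) {c : ℝ}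
    (h : EP D a p c) (hc : D.v a + D.v (p + 1) < c) (hg : grp D (p + 1) b) (hK : 0 ≤ KK D a b) :
    EP D a b (c + (D.v b - D.v (p + 1))) := by
  have vp : D.v p < D.v (p + 1) := (hD.mono.lt_iff (by omega) (by omega)).2 (by omega)
  rcases h with rfl | rfl | ⟨a0, b0, h1, h2, h3⟩
  · exfalso; linarith
  · have : D.v (a + 1) + D.v (p + 1) + (D.v b - D.v (p + 1)) = D.v (a + 1) + D.v b := by ring
    rw [this]
    exact ep_base hD (by omega) hb hK
  · right; right
    refine ⟨a0, b0, h1, h2, h3.tail ?_⟩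
    have ht := Rch.isT hD h3 h1
    obtain ⟨_, _, _, h4⟩ := ht
    dsimp only at h4
    have e : c + (D.v b - D.v (p + 1)) = c + D.v b - D.v (p + 1) := by ring
    rw [e]
    exact Mv.right hpb hb hc h4 hg

theorem grpT_iff {i j : ℕ} {g : Option AN} (hg : SpecG D i j g) :
    (grpT g = true → grp D i j) ∧
    (∀ θ ≤ π, VC D i j θ → KV D i j θ ≤ 4 * π → grpT g = true) := by
  constructor
  · intro h
    cases g with
    | none => simp [grpT] at h
    | some x =>
      obtain ⟨θ, _, h2, h3⟩ := hg.sound x rfl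
      refine ⟨θ, ?_, h3⟩
      simp only [grpT, Option.map_some, Option.getD_some] at h
      exact h2.le_pi.1 h
  · intro θ hθ h1 h2
    obtain ⟨x, θ', rfl, h3, h4⟩ := hg.complete θ (by linarith [Real.pi_pos]) h2 h1
    simp only [grpT, Option.map_some, Option.getD_some]
    rw [h3.le_pi]
    linarith

theorem sumT_iff {i s t j : ℕ} {g h : Option AN} (hg : SpecG D i s g) (hh : SpecG D t j h) :
    (sumT g h = true → ∃ θ1 θ2, VC D i s θ1 ∧ VC D t j θ2 ∧ θ1 + θ2 ≤ π) ∧
    (∀ θ1 θ2, VC D i s θ1 → VC D t j θ2 → θ1 + θ2 ≤ π → 0 ≤ θ1 → 0 ≤ θ2 →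
      KV D i s θ1 ≤ 4 * π → KV D t j θ2 ≤ 4 * π → sumT g h = true) := by
  have hπ := Real.pi_pos
  constructor
  · intro hs
    cases g with
    | none => simp [sumT] at hs
    | some x =>
      cases h with
      | none => simp [sumT] at hs
      | some y =>
        obtain ⟨θ1, _, h2, h3⟩ := hg.sound x rfl
        obtain ⟨θ2, _, h5, h6⟩ := hh.sound y rfl
        simp only [sumT, Option.map_some, Option.getD_some] at hs
        exact ⟨θ1, θ2, h3, h6, (h2.add h5).le_pi.1 hs⟩
  · intro θ1 θ2 h1 h2 h3 p1 p2 h4 h5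
    obtain ⟨x, η1, rfl, h6, h7⟩ := hg.complete θ1 (by linarith) h4 h1
    obtain ⟨y, η2, rfl, h8, h9⟩ := hh.complete θ2 (by linarith) h5 h2
    simp only [sumT, Option.map_some, Option.getD_some]
    rw [(h6.add h8).le_pi]
    linarith

theorem VC.nonneg (hD : D.OK) {i j : ℕ} {θ : ℝ} (h : VC D i j θ) (hj : j ≤ D.n) : 0 ≤ θ :=
  (ang_nonneg hD _).trans ((h.nd hD hj).ge hD).1

/-- Correctness of the test for nodes. -/
theorem nodeT_iff (hD : D.OK) {i j : ℕ} (hi : i < D.n) (hj : j ≤ D.n) (hij : i ≤ j)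
    (hV : ∀ i ≤ D.n, V i = D.v i)
    (hL : ∀ a b, i ≤ a → a ≤ b → b < j → SpecL D a b (L a b))
    (hG : ∀ a b, i ≤ a → a ≤ b → b ≤ j → SpecG D a b (G a b)) :
    (nodeT V L G i j = true → ∃ θ ≤ 2 * π, Nd D (D.v i) (D.v j) θ) ∧
    (∀ θ ≤ 2 * π, Nd D (D.v i) (D.v j) θ →
      (∑ t ∈ Icc i j, (π - D.al t)) ≤ 3 * π → nodeT V L G i j = true) := by
  have hπ := Real.pi_pos
  constructor
  · intro h
    rw [nv_iff hD hi hj]
    unfold nodeT at h
    rw [Bool.or_eq_true] at h
    rcases h with h | h
    · left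
      rw [Option.isSome_iff_exists] at h
      obtain ⟨x, hx⟩ := h
      obtain ⟨θ, h1, _, h2⟩ := (hG i j (le_refl _) hij (le_refl _)).sound x hx
      exact ⟨θ, h1, h2⟩
    · right
      rw [List.any_eq_true] at h
      obtain ⟨s, hs, h⟩ := h
      rw [List.any_eq_true] at h
      obtain ⟨f, hf, h⟩ := h
      rw [List.any_eq_true] at h
      obtain ⟨t, ht, h⟩ := h
      rw [List.mem_range] at hs hf ht
      rw [Bool.and_eq_true, Bool.and_eq_true, Bool.and_eq_true, Bool.and_eq_true,
        decide_eq_true_iff, decide_eq_true_iff, decide_eq_true_iff] at h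
      obtain ⟨⟨⟨h1, h2⟩, h3⟩, h4, h5⟩ := h
      obtain ⟨θ1, θ2, h6, h7, h8⟩ := (sumT_iff (hG i s (le_refl _) h1 (by omega))
        (hG (t + 1) j (by omega) (by omega) (le_refl _))).1 h4
      obtain ⟨z, h9, h10⟩ := meet_iff.1 h5
      refine ⟨s, f, t, θ1, θ2, h6, h7, h2, h3, h8, z, ?_, ?_⟩
      · obtain ⟨I, hI, h11⟩ := memL_iff.1 h9
        rw [hV s (by omega)] at h11
        have := (hL s f h1 h2 (by omega)).sound I hI _ h11
        rwa [add_comm] at this
      · obtain ⟨I, hI, h11⟩ := memL_iff.1 h10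
        rw [hV (t + 1) (by omega)] at h11
        exact (hL f t (by omega) h3 (by omega)).sound I hI _ h11
  · intro θ hθ h hK
    unfold nodeT
    rw [Bool.or_eq_true]
    rcases (nv_iff hD hi hj).1 ⟨θ, hθ, h⟩ with ⟨θ, hθ, h⟩ | ⟨s, f, t, θ1, θ2, h1, h2, h3, h4, h5,
      x, h6, h7⟩
    · left
      obtain ⟨x, θ', h1, _, _⟩ := (hG i j (le_refl _) hij (le_refl _)).complete θ hθ (by
        unfold KV; linarith) h
      rw [h1]; rfl
    · right
      have l1 := h1.le
      have l2 := h2.le
      have c1 := h1.curv hD (by omega)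
      have c2 := h2.curv hD hj
      have c3 := h6.curv hD h3 (by omega)
      have c4 := h7.curv hD h4 (by omega)
      have n1 := h1.nonneg hD (by omega)
      have n2 := h2.nonneg hD hj
      have tot : KV D i s θ1 + KK D s f + KK D f t + KV D (t + 1) j θ2 =
          (∑ t ∈ Icc i j, (π - D.al t)) + θ1 + θ2 := by
        unfold KV KK
        have e : Icc i j = Icc i s ∪ (Ioc s f ∪ (Ioc f t ∪ Icc (t + 1) j)) := by
          ext u
          simp only [Finset.mem_Icc, Finset.mem_union, Finset.mem_Ioc]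
          omega
        rw [e, Finset.sum_union, Finset.sum_union, Finset.sum_union]
        · ring
        · rw [Finset.disjoint_left]
          intro u hu
          simp only [Finset.mem_Icc, Finset.mem_Ioc] at hu ⊢
          omega
        · rw [Finset.disjoint_left]
          intro u hu
          simp only [Finset.mem_Icc, Finset.mem_union, Finset.mem_Ioc] at hu ⊢
          omega
        · rw [Finset.disjoint_left]
          intro u hu
          simp only [Finset.mem_Icc, Finset.mem_union, Finset.mem_Ioc] at hu ⊢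
          omega
      rw [List.any_eq_true]
      refine ⟨s, List.mem_range.2 (by omega), ?_⟩
      rw [List.any_eq_true]
      refine ⟨f, List.mem_range.2 (by omega), ?_⟩
      rw [List.any_eq_true]
      refine ⟨t, List.mem_range.2 (by omega), ?_⟩
      rw [Bool.and_eq_true, Bool.and_eq_true, Bool.and_eq_true, Bool.and_eq_true,
        decide_eq_true_iff, decide_eq_true_iff, decide_eq_true_iff]
      refine ⟨⟨⟨l1, h3⟩, h4⟩, ?_, ?_⟩
      · exact (sumT_iff (hG i s (le_refl _) l1 (by omega))
          (hG (t + 1) j (by omega) l2 (le_refl _))).2 θ1 θ2 h1 h2 h5 n1 n2 (by linarith)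
          (by linarith)
      · rw [meet_iff]
        refine ⟨x, ?_, ?_⟩
        · rw [hV s (by omega), add_comm]
          exact (hL s f l1 h3 (by omega)).complete (by linarith) _ h6
        · rw [hV (t + 1) (by omega)]
          exact (hL f t (by omega) h4 (by omega)).complete (by linarith) _ h7

/-- Chains, stage `0`. -/
theorem specG_zero {i : ℕ} (hi : i ≤ D.n) (hA : ∀ i ≤ D.n, Rep (A i) (D.al i)) :
    SpecG D i i (newG V A L G i 0) := by
  unfold newG
  rw [if_pos rfl]
  constructor
  · intro x hx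
    obtain ⟨rfl, h⟩ := capAN_eq.1 hx
    exact ⟨D.al i, (hA i hi).le_two_pi.1 h, hA i hi, VC.single i⟩
  · intro θ hθ _ h
    have e : θ = D.al i := by
      have gen : ∀ j θ, VC D i j θ → j = i → θ = D.al i := by
        intro j θ h
        cases h with
        | single => intro _; rfl
        | snoc h1 h2 h3 => intro h4; have := h1.le; omega
      exact gen i θ h rfl
    rw [e] at hθ ⊢
    exact ⟨A i, D.al i, capAN_eq.2 ⟨rfl, (hA i hi).le_two_pi.2 hθ⟩, hA i hi, le_refl _⟩

/-- Chains, later stages. -/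
theorem specG_succ (hD : D.OK) {i k : ℕ} (hi : i + (k + 1) ≤ D.n)
    (hV : ∀ i ≤ D.n, V i = D.v i) (hA : ∀ i ≤ D.n, Rep (A i) (D.al i))
    (hL : ∀ a b, a ≤ b → b < D.n → b - a < k + 1 → SpecL D a b (L a b))
    (hG : ∀ a b, a ≤ b → b ≤ D.n → b - a < k + 1 → SpecG D a b (G a b)) :
    SpecG D i (i + (k + 1)) (newG V A L G i (k + 1)) := by
  have hπ := Real.pi_pos
  unfold newG
  rw [if_neg (by omega)]
  have hmem : ∀ x, x ∈ (List.range (k + 1)).filterMap (fun d =>
      if memL (V (i + d) + V (i + (k + 1))) (L (i + d) (i + (k + 1) - 1)) then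
        (G i (i + d)).bind (fun x => capAN (addAN x (A (i + (k + 1))))) else none) ↔
      ∃ d < k + 1, memL (V (i + d) + V (i + (k + 1))) (L (i + d) (i + k)) = true ∧
        ∃ y, G i (i + d) = some y ∧ addAN y (A (i + (k + 1))) = x ∧ leAN x (2, 1, 0) = true := by
    intro x
    rw [List.mem_filterMap]
    have e : i + (k + 1) - 1 = i + k := by omega
    rw [e]
    constructor
    · rintro ⟨d, hd, h⟩
      rw [List.mem_range] at hd
      split_ifs at h with h1
      rw [Option.bind_eq_some_iff] at h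
      obtain ⟨y, h2, h3⟩ := h
      obtain ⟨h4, h5⟩ := capAN_eq.1 h3
      exact ⟨d, hd, h1, y, h2, h4, by rw [← h4]; exact h5⟩
    · rintro ⟨d, hd, h1, y, h2, h3, h4⟩
      refine ⟨d, List.mem_range.2 hd, ?_⟩
      rw [if_pos h1, h2, Option.bind_some, capAN_eq]
      exact ⟨h3, by rw [h3]; exact h4⟩
  have hvc : ∀ x, (∃ d < k + 1, memL (V (i + d) + V (i + (k + 1))) (L (i + d) (i + k)) = true ∧
        ∃ y, G i (i + d) = some y ∧ addAN y (A (i + (k + 1))) = x ∧ leAN x (2, 1, 0) = true) →
      ∃ θ ≤ 2 * π, Rep x θ ∧ VC D i (i + (k + 1)) θ := by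
    rintro x ⟨d, hd, h1, y, h2, rfl, h3⟩
    obtain ⟨θ, h4, h5, h6⟩ := (hG i (i + d) (by omega) (by omega) (by omega)).sound y h2
    have h7 := h5.add (hA (i + (k + 1)) hi)
    refine ⟨_, h7.le_two_pi.1 h3, h7, ?_⟩
    rw [hV _ (by omega), hV _ hi] at h1
    obtain ⟨I, hI, h8⟩ := memL_iff.1 h1
    have h9 := (hL (i + d) (i + k) (by omega) (by omega) (by omega)).sound I hI _ h8
    exact h6.snoc (j := i + k) (by omega) h9
  constructor
  · intro x hx
    exact hvc x ((hmem x).1 (minL_mem hx))
  · intro θ hθ hK h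
    have gen : ∀ j θ, VC D i j θ → j = i + (k + 1) → ∃ p θ1, VC D i p θ1 ∧ p ≤ i + k ∧
        Trk D p (i + k) (D.v p + D.v (i + (k + 1))) ∧ θ = θ1 + D.al (i + (k + 1)) := by
      intro j θ h
      cases h with
      | single => intro h; omega
      | @snoc p j θ1 h1 h2 h3 =>
        intro h4
        obtain rfl : j = i + k := by omega
        exact ⟨p, θ1, h1, h2, h3, rfl⟩
    obtain ⟨p, θ1, h1, h2, h3, rfl⟩ := gen _ _ h rfl
    have l1 := h1.le
    have c1 := h1.curv hD (by omega)
    have c2 := h3.curv hD h2 (by omega)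
    have hK2 : KV D i (i + (k + 1)) (θ1 + D.al (i + (k + 1))) = KV D i p θ1 + KK D p (i + k) :=
      KV_snoc l1 h2
    rw [hK2] at hK
    have ha : 0 ≤ D.al (i + (k + 1)) := by
      rcases Nat.lt_or_ge (i + (k + 1)) D.n with h | h
      · exact (hD.pos _ h).le
      · rw [le_antisymm hi h]; exact hD.last
    obtain ⟨d, rfl⟩ : ∃ d, p = i + d := ⟨p - i, by omega⟩
    obtain ⟨x, θ', h4, h5, h6⟩ := (hG i (i + d) (by omega) (by omega) (by omega)).complete θ1
      (by linarith) (by linarith) h1
    have h7 := (hL (i + d) (i + k) (by omega) (by omega) (by omega)).complete (by linarith) _ h3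
    have h8 := h5.add (hA (i + (k + 1)) hi)
    have h9 : leAN (addAN x (A (i + (k + 1)))) (2, 1, 0) = true := by
      rw [h8.le_two_pi]; linarith
    have h10 := (hmem (addAN x (A (i + (k + 1))))).2 ⟨d, by omega, by
      rw [hV _ (by omega), hV _ hi]; exact h7, x, h4, rfl, h9⟩
    obtain ⟨z, η, h11, h12, h13⟩ := minL_le (fun y hy => by
      obtain ⟨η, _, h, _⟩ := hvc y ((hmem y).1 hy)
      exact ⟨η, h⟩) h8 h10
    exact ⟨z, η, h11, h12, by linarith⟩

/-- Tracks, stage `0`. -/
theorem specL_zero (hD : D.OK) {B a : ℕ} (ha : a < D.n) (hV : ∀ i ≤ D.n, V i = D.v i) :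
    SpecL D a a (newL B V L G a 0) := by
  unfold newL
  rw [if_pos rfl, hV a (by omega), hV (a + 1) (by omega)]
  have va : D.v a < D.v (a + 1) := (hD.mono.lt_iff (by omega) (by omega)).2 (by omega)
  constructor
  · intro I hI
    rw [List.mem_singleton] at hI
    subst hI
    dsimp only
    linarith
  · intro I hI c hc
    rw [List.mem_singleton] at hI
    subst hI
    rw [memI_iff] at hc
    dsimp only at hc
    rw [trk_self hD ha]
    rcases hc with ⟨h1, h2⟩ | ⟨h1, h2⟩
    · exfalso; linarith
    · constructor <;> linarith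
  · intro I hI
    rw [List.mem_singleton] at hI
    subst hI
    exact ⟨Or.inl rfl, Or.inr (Or.inl rfl)⟩
  · intro _ c hc
    rw [trk_self hD ha] at hc
    rw [memL_iff]
    refine ⟨_, List.mem_singleton.2 rfl, ?_⟩
    rw [memI_iff]
    right
    dsimp only
    constructor <;> linarith [hc.1, hc.2]

theorem mem_rawL {a b : ℕ} (hab : a ≤ b) {J : IV} : J ∈ rawL V L G a b ↔
    (nodeT V L G (a + 1) b = true ∧ J = (V (a + 1) + V b, V (a + 1) + V b)) ∨
    (∃ p, a < p ∧ p ≤ b ∧ grpT (G (a + 1) p) = true ∧ ∃ I ∈ L p b,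
      clipHi (V p + V (b + 1)) (V (a + 1) - V p) I = some J) ∨
    (∃ p, a ≤ p ∧ p < b ∧ grpT (G (p + 1) b) = true ∧ ∃ I ∈ L a p,
      clipLo (V a + V (p + 1)) (V b - V (p + 1)) I = some J) := by
  unfold rawL
  rw [List.mem_append, List.mem_append, List.mem_flatMap, List.mem_flatMap]
  refine or_congr ?_ (or_congr ?_ ?_)
  · split_ifs with h
    · rw [List.mem_singleton]; simp [h]
    · simp [h]
  · constructor
    · rintro ⟨d, hd, h⟩
      rw [List.mem_range] at hd
      split_ifs at h with h1
      · rw [List.mem_filterMap] at h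
        exact ⟨a + 1 + d, by omega, by omega, h1, h⟩
      · cases h
    · rintro ⟨p, h1, h2, h3, h4⟩
      refine ⟨p - (a + 1), List.mem_range.2 (by omega), ?_⟩
      have e : a + 1 + (p - (a + 1)) = p := by omega
      rw [e, if_pos h3, List.mem_filterMap]
      exact h4
  · constructor
    · rintro ⟨d, hd, h⟩
      rw [List.mem_range] at hd
      split_ifs at h with h1
      · rw [List.mem_filterMap] at h
        exact ⟨a + d, by omega, by omega, h1, h⟩
      · cases h
    · rintro ⟨p, h1, h2, h3, h4⟩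
      refine ⟨p - a, List.mem_range.2 (by omega), ?_⟩
      have e : a + (p - a) = p := by omega
      rw [e, if_pos h3, List.mem_filterMap]
      exact h4

/-- The raw list of intervals is correct. -/
theorem rawL_spec (hD : D.OK) {a b : ℕ} (hab : a < b) (hb : b < D.n)
    (hV : ∀ i ≤ D.n, V i = D.v i)
    (hL : ∀ a' b', a' ≤ b' → b' < D.n → b' - a' < b - a → SpecL D a' b' (L a' b'))
    (hG : ∀ a' b', a' ≤ b' → b' ≤ D.n → b' - a' < b - a → SpecG D a' b' (G a' b')) :
    SpecL D a b (rawL V L G a b) := by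
  have hπ := Real.pi_pos
  have va : D.v a < D.v (a + 1) := (hD.mono.lt_iff (by omega) (by omega)).2 (by omega)
  have vb : D.v b < D.v (b + 1) := (hD.mono.lt_iff (by omega) (by omega)).2 (by omega)
  have va' : V a = D.v a := hV a (by omega)
  have va1 : V (a + 1) = D.v (a + 1) := hV _ (by omega)
  have vb' : V b = D.v b := hV b (by omega)
  have vb1 : V (b + 1) = D.v (b + 1) := hV _ (by omega)
  have hN := nodeT_iff (V := V) (L := L) (G := G) hD (i := a + 1) (j := b) (by omega) (by omega)
    (by omega) hV (fun a' b' h1 h2 h3 => hL a' b' h2 (by omega) (by omega))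
    (fun a' b' h1 h2 h3 => hG a' b' h2 (by omega) (by omega))
  have hsum : ∑ i ∈ Ioc a b, (π - D.al i) = ∑ i ∈ Icc (a + 1) b, (π - D.al i) := by
    rw [Ioc_eq_Icc]
  -- order and soundness
  have hmain : ∀ J ∈ rawL V L G a b, J.1 ≤ J.2 ∧ ∀ c, memI c J = true → Trk D a b c := by
    intro J hJ
    rw [mem_rawL hab.le, va', va1, vb', vb1] at hJ
    rcases hJ with ⟨h1, rfl⟩ | ⟨p, h1, h2, h3, I, hI, h4⟩ | ⟨p, h1, h2, h3, I, hI, h4⟩
    · refine ⟨le_refl _, fun c hc => ?_⟩
      rw [memI_iff] at hc
      rw [trk_rec hD hab hb]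
      left
      rcases hc with ⟨_, h2⟩ | ⟨h2, h3⟩
      · exact ⟨h2, hN.1 h1⟩
      · exfalso; dsimp only at h2 h3; linarith
    · rw [hV p (by omega)] at h4
      have sL := hL p b h2 hb (by omega)
      have g := (grpT_iff (hG (a + 1) p (by omega) (by omega) (by omega))).1 h3
      obtain ⟨k1, k2, _, _, _⟩ := clipHi_mem (sL.le I hI) h4
      refine ⟨k1, fun c hc => ?_⟩
      obtain ⟨k3, k4⟩ := k2 c hc
      have k5 := sL.sound I hI _ k3
      rw [trk_rec hD hab hb]
      right; left
      refine ⟨p, h1, h2, g, ?_, by linarith⟩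
      have e : c - (D.v (a + 1) - D.v p) = c - D.v (a + 1) + D.v p := by ring
      rwa [e] at k5
    · rw [hV (p + 1) (by omega)] at h4
      have sL := hL a p h1 (by omega) (by omega)
      have g := (grpT_iff (hG (p + 1) b (by omega) (by omega) (by omega))).1 h3
      obtain ⟨k1, k2, _, _, _⟩ := clipLo_mem (sL.le I hI) h4
      refine ⟨k1, fun c hc => ?_⟩
      obtain ⟨k3, k4⟩ := k2 c hc
      have k5 := sL.sound I hI _ k3
      rw [trk_rec hD hab hb]
      right; right
      refine ⟨p, h1, h2, g, ?_, by linarith⟩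
      have e : c - (D.v b - D.v (p + 1)) = c - D.v b + D.v (p + 1) := by ring
      rwa [e] at k5
  refine ⟨fun J hJ => (hmain J hJ).1, fun J hJ => (hmain J hJ).2, ?_, ?_⟩
  · -- endpoints
    intro J hJ
    have hK : 0 ≤ KK D a b := by
      obtain ⟨c, hc⟩ := exists_memI (hmain J hJ).1
      exact ((hmain J hJ).2 c hc).curv hD hab.le hb
    rw [mem_rawL hab.le, va', va1, vb', vb1] at hJ
    rcases hJ with ⟨h1, rfl⟩ | ⟨p, h1, h2, h3, I, hI, h4⟩ | ⟨p, h1, h2, h3, I, hI, h4⟩
    · exact ⟨ep_base hD hab hb hK, ep_base hD hab hb hK⟩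
    · rw [hV p (by omega)] at h4
      have sL := hL p b h2 hb (by omega)
      have g := (grpT_iff (hG (a + 1) p (by omega) (by omega) (by omega))).1 h3
      obtain ⟨_, _, k3, k4, k5⟩ := clipHi_mem (sL.le I hI) h4
      obtain ⟨e1, e2⟩ := sL.ep I hI
      constructor
      · rw [k4]
        exact ep_left hD h1 h2 hb e1 k3 g hK
      · rcases k5 with ⟨k6, k7⟩ | k6
        · rw [k7]
          exact ep_left hD h1 h2 hb e2 k6 g hK
        · right; left
          rw [k6]; ring
    · rw [hV (p + 1) (by omega)] at h4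
      have sL := hL a p h1 (by omega) (by omega)
      have g := (grpT_iff (hG (p + 1) b (by omega) (by omega) (by omega))).1 h3
      obtain ⟨_, _, k3, k4, k5⟩ := clipLo_mem (sL.le I hI) h4
      obtain ⟨e1, e2⟩ := sL.ep I hI
      constructor
      · rcases k5 with ⟨k6, k7⟩ | k6
        · rw [k7]
          exact ep_right hD h1 h2 hb e1 k6 g hK
        · left
          rw [k6]; ring
      · rw [k4]
        exact ep_right hD h1 h2 hb e2 k3 g hK
  · -- completeness
    intro hK c hc
    have hc' := hc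
    rw [trk_rec hD hab hb] at hc'
    rw [memL_iff]
    rcases hc' with ⟨rfl, θ, hθ, h1⟩ | ⟨p, h1, h2, ⟨θ, hθ, h3⟩, h4, h5⟩ |
      ⟨p, h1, h2, ⟨θ, hθ, h3⟩, h4, h5⟩
    · refine ⟨(V (a + 1) + V b, V (a + 1) + V b), ?_, ?_⟩
      · rw [mem_rawL hab.le]
        left
        refine ⟨hN.2 θ hθ h1 ?_, rfl⟩
        unfold KK at hK
        linarith
      · rw [memI_iff, va1, vb']
        left
        exact ⟨rfl, rfl⟩
    · have g := h3.grp hD hθ (by omega)
      have k1 := h4.curv hD h2 hb
      have e := KK_left (D := D) (a := a) (p := p) (b := b) (by omega) h2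
      have sL := hL p b h2 hb (by omega)
      obtain ⟨I, hI, hI2⟩ := memL_iff.1 (sL.complete (by linarith) _ h4)
      have hg := (grpT_iff (hG (a + 1) p (by omega) (by omega) (by omega))).2 θ hθ h3
        (by linarith)
      obtain ⟨J, hJ, hJ2⟩ := clipHi_of (w := D.v p + D.v (b + 1)) (d := D.v (a + 1) - D.v p) hI2
        (by linarith)
      refine ⟨J, ?_, ?_⟩
      · rw [mem_rawL hab.le, va1, vb1]
        right; left
        refine ⟨p, h1, h2, hg, I, hI, ?_⟩
        rw [hV p (by omega)]
        exact hJ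
      · have e2 : c - D.v (a + 1) + D.v p + (D.v (a + 1) - D.v p) = c := by ring
        rwa [e2] at hJ2
    · have g := h3.grp hD hθ (by omega)
      have k1 := h4.curv hD h1 (by omega)
      have e := KK_right (D := D) (a := a) (p := p) (b := b) h1 (by omega)
      have sL := hL a p h1 (by omega) (by omega)
      obtain ⟨I, hI, hI2⟩ := memL_iff.1 (sL.complete (by linarith) _ h4)
      have hg := (grpT_iff (hG (p + 1) b (by omega) (by omega) (by omega))).2 θ hθ h3
        (by linarith)
      obtain ⟨J, hJ, hJ2⟩ := clipLo_of (w := D.v a + D.v (p + 1)) (d := D.v b - D.v (p + 1)) hI2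
        (by linarith)
      refine ⟨J, ?_, ?_⟩
      · rw [mem_rawL hab.le, va', vb']
        right; right
        refine ⟨p, h1, h2, hg, I, hI, ?_⟩
        rw [hV (p + 1) (by omega)]
        exact hJ
      · have e2 : c - D.v b + D.v (p + 1) + (D.v b - D.v (p + 1)) = c := by ring
        rwa [e2] at hJ2

/-- Removing repetitions preserves correctness. -/
theorem nub_spec (hD : D.OK) {a b : ℕ} {l : List IV} (h : SpecL D a b l) :
    SpecL D a b (nub (EB D.n ^ 2) l) := by
  refine ⟨fun I hI => h.le I (of_mem_nub hI), fun I hI => h.sound I (of_mem_nub hI),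
    fun I hI => h.ep I (of_mem_nub hI), fun hK c hc => ?_⟩
  obtain ⟨F, h1, h2⟩ := ep_card hD hK
  obtain ⟨I, hI, hI2⟩ := memL_iff.1 (h.complete hK c hc)
  rw [memL_iff]
  refine ⟨I, mem_nub (F := F ×ˢ F) ?_ (fun J hJ => ?_) hI, hI2⟩
  · rw [Finset.card_product, pow_two]
    exact Nat.mul_le_mul h1 h1
  · rw [Finset.mem_product]
    exact ⟨h2 _ (h.ep J hJ).1, h2 _ (h.ep J hJ).2⟩

/-- The invariant of the table. -/
def Inv (D : PD ℝ) (k : ℕ) (T : List (List ENT)) : Prop :=
  T.length = k ∧ ∀ a b, a ≤ b → b - a < k → (b < D.n → SpecL D a b (getL T a b)) ∧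
    (b ≤ D.n → SpecG D a b (getG T a b))

theorem getE_append {T : List (List ENT)} {R : List ENT} {a b : ℕ} (h : b - a < T.length) :
    getE (T ++ [R]) a b = getE T a b := by
  unfold getE
  rw [List.getD_append _ _ _ _ h]

theorem getE_last {n a b : ℕ} {T : List (List ENT)} {f : ℕ → ENT} (h : b - a = T.length)
    (ha : a ≤ n) : getE (T ++ [(List.range (n + 1)).map f]) a b = f a := by
  unfold getE
  rw [h]
  simp [List.getD_eq_getElem?_getD, ha]

theorem inv_step (hD : D.OK) (hV : ∀ i ≤ D.n, V i = D.v i) (hA : ∀ i ≤ D.n, Rep (A i) (D.al i))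
    {k : ℕ} {T : List (List ENT)} (h : Inv D k T) :
    Inv D (k + 1) (stepT (EB D.n ^ 2) D.n V A T) := by
  obtain ⟨hk, hT⟩ := h
  refine ⟨by unfold stepT; rw [List.length_append, List.length_singleton, hk], ?_⟩
  intro a b hab hlt
  rcases Nat.lt_or_ge (b - a) k with h1 | h1
  · have e : getE (stepT (EB D.n ^ 2) D.n V A T) a b = getE T a b := by
      unfold stepT
      exact getE_append (by omega)
    unfold getL getG
    rw [e]
    exact hT a b hab h1
  · have hbk : b - a = k := by omega
    rcases Nat.lt_or_ge D.n b with hn | hn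
    · exact ⟨fun h => by omega, fun h => by omega⟩
    have e : getE (stepT (EB D.n ^ 2) D.n V A T) a b =
        (newL (EB D.n ^ 2) V (getL T) (getG T) a k, newG V A (getL T) (getG T) a k) := by
      unfold stepT
      rw [getE_last (by omega) (by omega), hk]
    unfold getL getG
    rw [e]
    dsimp only
    obtain rfl : b = a + k := by omega
    constructor
    · intro hb
      cases k with
      | zero => exact specL_zero hD hb hV
      | succ k =>
        unfold newL
        rw [if_neg (by omega)]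
        refine nub_spec hD (rawL_spec hD (by omega) hb hV (fun a' b' h2 h3 h4 => ?_)
          (fun a' b' h2 h3 h4 => ?_))
        · exact (hT a' b' h2 (by omega)).1 h3
        · exact (hT a' b' h2 (by omega)).2 h3
    · intro _
      cases k with
      | zero => exact specG_zero hn hA
      | succ k =>
        exact specG_succ hD hn hV hA (fun a' b' h2 h3 h4 => (hT a' b' h2 (by omega)).1 h3)
          (fun a' b' h2 h3 h4 => (hT a' b' h2 (by omega)).2 h3)

theorem inv_table (hD : D.OK) (hV : ∀ i ≤ D.n, V i = D.v i)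
    (hA : ∀ i ≤ D.n, Rep (A i) (D.al i)) (k : ℕ) :
    Inv D k ((stepT (EB D.n ^ 2) D.n V A)^[k] []) := by
  induction k with
  | zero => exact ⟨rfl, fun a b _ h => by omega⟩
  | succ k ih =>
    rw [Function.iterate_succ_apply']
    exact inv_step hD hV hA ih

/-- Correctness of the algorithm. -/
theorem answer_iff (hD : D.OK) (hn : 0 < D.n) (hlast : D.al D.n = 0)
    (hsum : ∑ i ∈ range D.n, (π - D.al i) = 2 * π) (hV : ∀ i ≤ D.n, V i = D.v i)
    (hA : ∀ i ≤ D.n, Rep (A i) (D.al i)) :
    answer D.n V A = true ↔ ∃ θ ≤ 2 * π, Nd D (D.v 0) (D.v D.n) θ := by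
  obtain ⟨_, hT⟩ := inv_table hD hV hA (D.n + 1)
  have hN := nodeT_iff (V := V) (L := getL (table D.n V A)) (G := getG (table D.n V A)) hD
    (i := 0) (j := D.n) hn (le_refl _) (Nat.zero_le _) hV
    (fun a b _ h1 h2 => (hT a b h1 (by omega)).1 h2)
    (fun a b _ h1 h2 => (hT a b h1 (by omega)).2 h2)
  refine ⟨fun h => hN.1 h, ?_⟩
  rintro ⟨θ, hθ, h⟩
  refine hN.2 θ hθ h ?_
  have e : Icc 0 D.n = range (D.n + 1) := by
    ext t; simp only [Finset.mem_Icc, Finset.mem_range]; omega
  rw [e, Finset.sum_range_succ, hsum, hlast]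
  linarith

end

end Pool.Agent.MP33

end

section

/-!
# The boundary data of a simple polygon satisfy the assumptions
-/

set_option autoImplicit false

namespace Pool.Agent.MP33

open Real

section

variable {n : ℕ} {z : ZMod n → ℂ}

theorem IsSimplePolygon.intAngle_pos (h : IsSimplePolygon z) (i : ZMod n) :
    0 < intAngle z i := by
  unfold intAngle
  split_ifs
  · exact h.leftAngle_pos i
  · have : leftAngle z i < 2 * π := ccwAngle_lt _ _
    linarith

theorem intAngle_le (z : ZMod n → ℂ) (i : ZMod n) : intAngle z i ≤ 2 * π := by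
  unfold intAngle
  split_ifs
  · exact (ccwAngle_lt _ _).le
  · have : 0 ≤ leftAngle z i := ccwAngle_nonneg _ _
    linarith

theorem IsSimplePolygon.sum_intAngle (h : IsSimplePolygon z) :
    ∑ i ∈ Finset.range n, (π - intAngle z i) = 2 * π := by
  have hπ := Real.pi_pos
  rcases h.turning_eq with h1 | h1
  · have h2 : 0 < turning z := by rw [h1]; linarith
    rw [← h1]
    unfold turning
    refine Finset.sum_congr rfl (fun i _ => ?_)
    unfold intAngle
    rw [if_pos h2]
  · have h2 : ¬ 0 < turning z := by rw [h1]; linarith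
    have h3 : ∑ i ∈ Finset.range n, (π - intAngle z i) = -turning z := by
      unfold turning
      rw [← Finset.sum_neg_distrib]
      refine Finset.sum_congr rfl (fun i _ => ?_)
      unfold intAngle
      rw [if_neg h2]
      ring
    rw [h3, h1, neg_neg]

theorem IsSimplePolygon.ok (h : IsSimplePolygon z) : (bdry z).OK := by
  have hlt : ∀ i : ℕ, (bdry z).v i < (bdry z).v (i + 1) := by
    intro i
    show ∑ i ∈ Finset.range i, _ < ∑ i ∈ Finset.range (i + 1), _
    rw [Finset.sum_range_succ]
    have := norm_pos_iff.2 (h.next_ne i)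
    linarith
  have hmono : StrictMono (bdry z).v := strictMono_nat_of_lt_succ hlt
  refine ⟨fun i j hij _ => hmono hij, ?_, ?_, ?_⟩
  · intro i hi
    have hi' : i < n := hi
    show 0 < if i < n then intAngle z i else 0
    rw [if_pos hi']
    exact h.intAngle_pos i
  · show 0 ≤ if n < n then intAngle z n else 0
    rw [if_neg (lt_irrefl _)]
  · intro i _
    show (if i < n then intAngle z i else 0) ≤ 2 * π
    split_ifs
    · exact intAngle_le z i
    · linarith [Real.pi_pos]

/-- The algorithm decides foldability if it is given the positions and angles. -/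
theorem answer_foldable (h : IsSimplePolygon z) {V : ℕ → ℝ} {A : ℕ → AN}
    (hV : ∀ i ≤ n, V i = ∑ k ∈ Finset.range i, ‖z (k + 1) - z k‖)
    (hA : ∀ i < n, Rep (A i) (intAngle z i)) (hAn : Rep (A n) 0) :
    answer n V A = true ↔ Foldable z := by
  have hn : 0 < n := by have := h.three; omega
  have hlast : (bdry z).al n = 0 := by
    show (if n < n then intAngle z n else 0) = 0
    rw [if_neg (lt_irrefl _)]
  have h1 := gluing_iff (bdry z) hn h.ok.mono h.ok.pos hlast
  have hV' : ∀ i ≤ (bdry z).n, V i = (bdry z).v i := hV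
  have hA' : ∀ i ≤ (bdry z).n, Rep (A i) ((bdry z).al i) := by
    intro i hi
    have h2 : i ≤ n := hi
    show Rep (A i) (if i < n then intAngle z i else 0)
    split_ifs with h1
    · exact hA i h1
    · rw [show i = n by omega]
      exact hAn
  have hsum : ∑ i ∈ Finset.range (bdry z).n, (π - (bdry z).al i) = 2 * π := by
    rw [← h.sum_intAngle]
    refine Finset.sum_congr rfl (fun i hi => ?_)
    show π - (if i < n then intAngle z i else 0) = _
    rw [if_pos (Finset.mem_range.1 hi)]
  have h2 := answer_iff h.ok hn hlast hsum hV' hA'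
  exact h2.trans (h1.symm.trans (alexandrov_iff_planar (bdry z) hn h.ok.mono).symm)

end

end Pool.Agent.MP33

end

section

/-!
# The decision function on the list of coordinates
-/

set_option autoImplicit false

namespace Pool.Agent.MP33

open Real

/-- Representation of the counterclockwise angle from `(a, b)` to `(c, d)`. -/
noncomputable def vecR (a b c d : ℝ) : AN := normAN 0 (a * c + b * d) (a * d - b * c)

/-- First coordinate of the vertex `i`. -/
noncomputable def cx (x : List ℝ) (i : ℕ) : ℝ := x.getD (i + i) 0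

/-- Second coordinate of the vertex `i`. -/
noncomputable def cy (x : List ℝ) (i : ℕ) : ℝ := x.getD (i + i + 1) 0

/-- Length of the edge `i`. -/
noncomputable def distL (x : List ℝ) (n i : ℕ) : ℝ :=
  √ ((cx x ((i + 1) % n) - cx x i) * (cx x ((i + 1) % n) - cx x i) +
    (cy x ((i + 1) % n) - cy x i) * (cy x ((i + 1) % n) - cy x i))

/-- Positions of the vertices. -/
noncomputable def posL (x : List ℝ) (n : ℕ) : List ℝ :=
  (List.range (n + 1)).map (fun k => (List.range k).foldl (fun s i => s + distL x n i) 0)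

/-- The angle to the left at the vertex `i`. -/
noncomputable def langL (x : List ℝ) (n i : ℕ) : AN :=
  vecR (cx x ((i + 1) % n) - cx x i) (cy x ((i + 1) % n) - cy x i)
    (cx x ((i + (n - 1)) % n) - cx x i) (cy x ((i + (n - 1)) % n) - cy x i)

/-- The angle to the right at the vertex `i`. -/
noncomputable def rangL (x : List ℝ) (n i : ℕ) : AN :=
  vecR (cx x ((i + (n - 1)) % n) - cx x i) (cy x ((i + (n - 1)) % n) - cy x i)
    (cx x ((i + 1) % n) - cx x i) (cy x ((i + 1) % n) - cy x i)

/-- The sum of the angles to the left. -/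
noncomputable def sumL (x : List ℝ) (n : ℕ) : AN :=
  (List.range n).foldl (fun s i => addAN s (langL x n i)) (0, 1, 0)

/-- Interior angles at the vertices. -/
noncomputable def angL (x : List ℝ) (n : ℕ) : List AN :=
  (List.range n).map (fun i => if leAN (sumL x n) (n, 1, 0) then langL x n i else rangL x n i)

/-- The decision function. -/
noncomputable def decideFold (x : List ℝ) : Bool :=
  answer (x.length / 2) (fun i => (posL x (x.length / 2)).getD i 0)
    (fun i => (angL x (x.length / 2)).getD i (0, 1, 0))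

section

variable {n : ℕ} {z : ZMod n → ℂ}

theorem coords_length (z : ZMod n → ℂ) : (coords z).length = n * 2 := by
  unfold coords
  rw [List.length_flatMap]
  simp

theorem coords_get (z : ZMod n → ℂ) {i : ℕ} (hi : i < n) :
    cx (coords z) i = (z i).re ∧ cy (coords z) i = (z i).im := by
  have key : ∀ m i : ℕ, i < m → ((List.range m).flatMap (fun i : ℕ =>
      [(z i).re, (z i).im])).getD (i + i) 0 = (z i).re ∧ ((List.range m).flatMap (fun i : ℕ =>
      [(z i).re, (z i).im])).getD (i + i + 1) 0 = (z i).im := by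
    intro m
    induction m with
    | zero => intro i h; omega
    | succ m ih =>
      intro i h
      rw [List.range_succ, List.flatMap_append, List.flatMap_singleton]
      have hl : ((List.range m).flatMap (fun i : ℕ => [(z i).re, (z i).im])).length = m * 2 := by
        rw [List.length_flatMap]; simp
      rcases Nat.lt_or_ge i m with h1 | h1
      · obtain ⟨h2, h3⟩ := ih i h1
        rw [List.getD_append _ _ _ _ (by omega), List.getD_append _ _ _ _ (by omega)]
        exact ⟨h2, h3⟩
      · obtain rfl : i = m := by omega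
        rw [List.getD_append_right _ _ _ _ (by omega), List.getD_append_right _ _ _ _ (by omega),
          hl]
        have e1 : i + i - i * 2 = 0 := by omega
        have e2 : i + i + 1 - i * 2 = 1 := by omega
        rw [e1, e2]
        exact ⟨rfl, rfl⟩
  unfold cx cy coords
  exact key n i hi

theorem cast_next (i : ℕ) : (((i + 1) % n : ℕ) : ZMod n) = (i : ZMod n) + 1 := by
  rw [ZMod.natCast_mod]; push_cast; rfl

theorem cast_prev (hn : 0 < n) (i : ℕ) :
    (((i + (n - 1)) % n : ℕ) : ZMod n) = (i : ZMod n) - 1 := by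
  rw [ZMod.natCast_mod, Nat.cast_add, Nat.cast_sub hn, ZMod.natCast_self]
  push_cast
  ring

theorem dist_eq (hn : 0 < n) {i : ℕ} (hi : i < n) :
    distL (coords z) n i = ‖z (i + 1) - z i‖ := by
  unfold distL
  have h1 := coords_get z (Nat.mod_lt (i + 1) hn)
  have h2 := coords_get z hi
  rw [h1.1, h1.2, h2.1, h2.2, cast_next, Complex.norm_def, Complex.normSq_apply,
    Complex.sub_re, Complex.sub_im]

theorem foldl_add_eq (f g : ℕ → ℝ) (k : ℕ) (h : ∀ i < k, f i = g i) :
    (List.range k).foldl (fun s i => s + f i) 0 = ∑ i ∈ Finset.range k, g i := by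
  induction k with
  | zero => rfl
  | succ k ih =>
    rw [List.range_succ, List.foldl_append, ih (fun i hi => h i (by omega)),
      Finset.sum_range_succ, ← h k (by omega)]
    rfl

theorem langL_rep (h : IsSimplePolygon z) {i : ℕ} (hi : i < n) :
    Rep (langL (coords z) n i) (leftAngle z i) ∧
      Rep (rangL (coords z) n i) (2 * π - leftAngle z i) := by
  have hn : 0 < n := by have := h.three; omega
  have h1 := coords_get z (Nat.mod_lt (i + 1) hn)
  have h2 := coords_get z hi
  have h3 := coords_get z (Nat.mod_lt (i + (n - 1)) hn)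
  rw [cast_next] at h1
  rw [cast_prev hn] at h3
  unfold langL rangL
  rw [h1.1, h1.2, h2.1, h2.2, h3.1, h3.2]
  constructor
  · exact Rep.vec (h.next_ne i) (h.prev_ne i)
  · have h4 := ccwAngle_comm (h.next_ne i) (h.prev_ne i) (h.leftAngle_pos i)
    unfold leftAngle
    rw [← h4]
    exact Rep.vec (h.prev_ne i) (h.next_ne i)

theorem sumL_rep (h : IsSimplePolygon z) :
    Rep (sumL (coords z) n) (∑ i ∈ Finset.range n, leftAngle z i) := by
  have key : ∀ k ≤ n, Rep ((List.range k).foldl (fun s i => addAN s (langL (coords z) n i))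
      (0, 1, 0)) (∑ i ∈ Finset.range k, leftAngle z i) := by
    intro k
    induction k with
    | zero =>
      intro _
      have := Rep.pi 0
      rw [Nat.cast_zero, zero_mul] at this
      simpa using this
    | succ k ih =>
      intro hk
      rw [List.range_succ, List.foldl_append, Finset.sum_range_succ]
      exact (ih (by omega)).add (langL_rep h (by omega)).1
  exact key n (le_refl _)

/-- The orientation test. -/
theorem orient_iff (h : IsSimplePolygon z) :
    leAN (sumL (coords z) n) (n, 1, 0) = true ↔ 0 < turning z := by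
  rw [(sumL_rep h).le_iff (Rep.pi n)]
  have e : turning z = n * π - ∑ i ∈ Finset.range n, leftAngle z i := by
    unfold turning
    rw [Finset.sum_sub_distrib, Finset.sum_const, Finset.card_range, nsmul_eq_mul]
  have hπ := Real.pi_pos
  rcases h.turning_eq with h1 | h1
  · rw [h1] at e ⊢
    constructor
    · intro _; linarith
    · intro _; linarith
  · rw [h1] at e ⊢
    constructor
    · intro _; linarith
    · intro _; linarith

/-- Correctness of the decision function. -/
theorem decideFold_iff (h : IsSimplePolygon z) : decideFold (coords z) = true ↔ Foldable z := by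
  have hn : 0 < n := by have := h.three; omega
  have hlen : (coords z).length / 2 = n := by
    rw [coords_length, Nat.mul_div_cancel _ (by norm_num)]
  unfold decideFold
  rw [hlen]
  refine answer_foldable h ?_ ?_ ?_
  · intro i hi
    unfold posL
    rw [List.getD_eq_getElem?_getD, List.getElem?_map, List.getElem?_range (by omega)]
    exact foldl_add_eq _ _ _ (fun k hk => dist_eq hn (by omega))
  · intro i hi
    unfold angL intAngle
    rw [List.getD_eq_getElem?_getD, List.getElem?_map, List.getElem?_range hi]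
    show Rep (if _ then _ else _) _
    by_cases ht : 0 < turning z
    · rw [if_pos ((orient_iff h).2 ht), if_pos ht]
      exact (langL_rep h hi).1
    · rw [if_neg (fun hc => ht ((orient_iff h).1 hc)), if_neg ht]
      exact (langL_rep h hi).2
  · unfold angL
    rw [List.getD_eq_getElem?_getD, List.getElem?_eq_none (by simp)]
    have := Rep.pi 0
    rwa [Nat.cast_zero, zero_mul] at this

end

end Pool.Agent.MP33

end

section

/-!
# The decision function is computable in polynomial time on the real RAM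
-/

set_option autoImplicit false

namespace Pool.Agent.MP33

open Real Pool.Agent.RRAM

section

variable {α : Type} [Enc α]

@[fun_prop]
theorem ptf_rlt {f g : α → ℝ} (hf : PTF f) (hg : PTF g) : PTF (fun a => rlt (f a) (g a)) := by
  classical
  exact (PTF.rlt hf hg).congr (fun a => by unfold rlt; rw [decide_eq_decide])

@[fun_prop]
theorem ptf_req {f g : α → ℝ} (hf : PTF f) (hg : PTF g) : PTF (fun a => req (f a) (g a)) := by
  classical
  exact (PTF.eq hf hg).congr (fun a => by unfold req; rw [decide_eq_decide])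

@[fun_prop]
theorem ptf_memI {x : α → ℝ} {I : α → IV} (hx : PTF x) (hI : PTF I) :
    PTF (fun a => memI (x a) (I a)) := by
  unfold memI; fun_prop

@[fun_prop]
theorem ptf_memL {x : α → ℝ} {l : α → List IV} (hx : PTF x) (hl : PTF l) :
    PTF (fun a => memL (x a) (l a)) := by
  unfold memL; fun_prop

@[fun_prop]
theorem ptf_clipHi {w d : α → ℝ} {I : α → IV} (hw : PTF w) (hd : PTF d) (hI : PTF I) :
    PTF (fun a => clipHi (w a) (d a) (I a)) := by
  unfold clipHi; fun_prop

@[fun_prop]
theorem ptf_clipLo {w d : α → ℝ} {I : α → IV} (hw : PTF w) (hd : PTF d) (hI : PTF I) :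
    PTF (fun a => clipLo (w a) (d a) (I a)) := by
  unfold clipLo; fun_prop

@[fun_prop]
theorem ptf_inter {x y : α → ℝ} {I J : α → IV} (hx : PTF x) (hy : PTF y) (hI : PTF I)
    (hJ : PTF J) : PTF (fun a => inter (x a) (y a) (I a) (J a)) := by
  unfold inter; fun_prop

@[fun_prop]
theorem ptf_meet {x y : α → ℝ} {l m : α → List IV} (hx : PTF x) (hy : PTF y) (hl : PTF l)
    (hm : PTF m) : PTF (fun a => meet (x a) (y a) (l a) (m a)) := by
  unfold meet; fun_prop

@[fun_prop]
theorem ptf_addIV {B : α → ℕ} {acc : α → List IV} {I : α → IV} (hB : PTF B) (ha : PTF acc)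
    (hI : PTF I) : PTF (fun a => addIV (B a) (acc a) (I a)) := by
  unfold addIV; fun_prop

theorem sz_IV (I : IV) : sz I = 3 := rfl

@[fun_prop]
theorem ptf_nub {B : α → ℕ} {l : α → List IV} (hB : PTF B) (hl : PTF l) :
    PTF (fun a => nub (B a) (l a)) := by
  unfold nub
  refine PTF.foldl_add (l := l) (init := fun _ => ([] : List IV))
    (step := fun p : α × (List IV × IV) => addIV (B p.1) p.2.1 p.2.2) hl (PTF.const [])
    (by fun_prop) (fun _ => 4) (PB.const 4) (fun a s I _ => ?_)
  show sz (addIV (B a) s I) ≤ _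
  unfold addIV
  split_ifs
  · omega
  · omega
  · rw [sz_cons, sz_IV]; omega

@[fun_prop]
theorem ptf_normAN {m : α → ℕ} {c s : α → ℝ} (hm : PTF m) (hc : PTF c) (hs : PTF s) :
    PTF (fun a => normAN (m a) (c a) (s a)) := by
  have h : PTF (fun a => if (rlt (s a) 0 || (!rlt 0 (s a) && rlt (c a) 0)) = true then
      (m a + 1, - c a, - s a) else (m a, c a, s a)) := by fun_prop
  refine h.congr (fun a => ?_)
  unfold normAN
  congr 1
  rw [eq_iff_iff, Bool.or_eq_true, Bool.and_eq_true, Bool.not_eq_true', ← Bool.not_eq_true,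
    rlt_iff, rlt_iff, rlt_iff]

@[fun_prop]
theorem ptf_addAN {x y : α → AN} (hx : PTF x) (hy : PTF y) : PTF (fun a => addAN (x a) (y a)) := by
  unfold addAN; fun_prop

@[fun_prop]
theorem ptf_leAN {x y : α → AN} (hx : PTF x) (hy : PTF y) : PTF (fun a => leAN (x a) (y a)) := by
  have h : PTF (fun a => decide ((x a).1 < (y a).1) || (decide ((x a).1 = (y a).1) &&
      !rlt ((x a).2.1 * (y a).2.2 - (x a).2.2 * (y a).2.1) 0)) := by fun_prop
  refine h.congr (fun a => ?_)
  unfold leAN rlt
  rfl

@[fun_prop]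
theorem ptf_capAN {x : α → AN} (hx : PTF x) : PTF (fun a => capAN (x a)) := by
  unfold capAN; fun_prop

@[fun_prop]
theorem ptf_minO {s : α → Option AN} {x : α → AN} (hs : PTF s) (hx : PTF x) :
    PTF (fun a => minO (s a) (x a)) := by
  unfold minO; fun_prop

theorem minL_foldl {l : List AN} {z : AN} (h : l.foldl minO none = some z) : z ∈ l := minL_mem h

@[fun_prop]
theorem ptf_minL {l : α → List AN} (hl : PTF l) : PTF (fun a => minL (l a)) := by
  unfold minL
  refine PTF.foldl (l := l) (init := fun _ => (none : Option AN))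
    (step := fun p : α × (Option AN × AN) => minO p.2.1 p.2.2) hl (PTF.const none)
    (by fun_prop) (fun a => sz (l a) + 2) (hl.size.add (PB.const 2)) (fun a l1 l2 h => ?_)
  show sz (l1.foldl minO none) ≤ _
  cases hz : l1.foldl minO none with
  | none => rw [sz_none]; omega
  | some z =>
    have h1 := minL_foldl hz
    have h2 : z ∈ l a := by rw [h]; simp [h1]
    rw [sz_some]
    have := sz_le_of_mem h2
    omega

@[fun_prop]
theorem ptf_grpT {g : α → Option AN} (hg : PTF g) : PTF (fun a => grpT (g a)) := by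
  unfold grpT; fun_prop

@[fun_prop]
theorem ptf_sumT {g h : α → Option AN} (hg : PTF g) (hh : PTF h) :
    PTF (fun a => sumT (g a) (h a)) := by
  unfold sumT; fun_prop

@[fun_prop]
theorem ptf_getE {T : α → List (List ENT)} {i j : α → ℕ} (hT : PTF T) (hi : PTF i) (hj : PTF j) :
    PTF (fun a => getE (T a) (i a) (j a)) := by
  unfold getE; fun_prop

@[fun_prop]
theorem ptf_getL {T : α → List (List ENT)} {i j : α → ℕ} (hT : PTF T) (hi : PTF i) (hj : PTF j) :
    PTF (fun a => getL (T a) (i a) (j a)) := by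
  unfold getL; fun_prop

@[fun_prop]
theorem ptf_getG {T : α → List (List ENT)} {i j : α → ℕ} (hT : PTF T) (hi : PTF i) (hj : PTF j) :
    PTF (fun a => getG (T a) (i a) (j a)) := by
  unfold getG; fun_prop

end

end Pool.Agent.MP33

end
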